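import Pool.Agent.Lib.MP_0430e4_lc.BY.H.Mul

/-!
# Block H: lemmas for HA (split off from `BY.H.HAm`)
-/

set_option autoImplicit false

open Finset

namespace Pool.Agent.Lib.MP_0430e4_lc.BY

/-- polynomial factors are absorbed -/
theorem poly_le_pw (K ε : ℝ) (hε : 0 < ε) :
    ∃ n0 : ℕ, ∀ n ≥ n0, K * ((n : ℝ) + 1) ^ 3 ≤ pw n ε := by
  have h2 : (1 : ℝ) < 2 ^ ε := Real.one_lt_rpow (by norm_num) hε
  have h1 := tendsto_pow_const_div_const_pow_of_one_lt 3 h2
  have h3 : Filter.Tendsto (fun n : ℕ => (|K| * 2 ^ ε + 1) * ((((n + 1 : ℕ) : ℝ)) ^ 3 / ((2 : ℝ) ^ ε) ^ (n + 1)))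
      Filter.atTop (nhds ((|K| * 2 ^ ε + 1) * 0)) :=
    (h1.comp (Filter.tendsto_add_atTop_nat 1)).const_mul _
  rw [mul_zero] at h3
  have h4 := h3.eventually (gt_mem_nhds (show (0 : ℝ) < 1 by norm_num))
  obtain ⟨n0, hn0⟩ := Filter.eventually_atTop.mp h4
  refine ⟨n0, fun n hn => ?_⟩
  have h5 := hn0 n hn
  have h6 : (0 : ℝ) < ((2 : ℝ) ^ ε) ^ (n + 1) := by positivity
  have h7 : (0 : ℝ) < 2 ^ ε := by positivity
  rw [← mul_div_assoc, div_lt_one h6] at h5
  have h8 : pw n ε * 2 ^ ε = ((2 : ℝ) ^ ε) ^ (n + 1) := by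
    unfold pw
    rw [Real.rpow_mul (by norm_num), Real.rpow_natCast, pow_succ]
  rw [← h8] at h5
  have h9 : K * ((n : ℝ) + 1) ^ 3 * 2 ^ ε ≤ pw n ε * 2 ^ ε := by
    refine le_trans ?_ h5.le
    push_cast
    have h10 : K ≤ |K| := le_abs_self K
    have h11 : (0 : ℝ) ≤ ((n : ℝ) + 1) ^ 3 := by positivity
    nlinarith [mul_le_mul_of_nonneg_right h10 (mul_nonneg h11 h7.le)]
  exact le_of_mul_le_mul_right h9 h7

variable {n : ℕ}

/-- the transform of a radial function is radial -/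
theorem radF_hatW {f : Wd n → ℝ} {H : ℕ → ℝ} (hf : RadF f H) :
    RadF (hatW f) (fun w => ∑ k ∈ range (n + 1), H k * kr n k w) := by
  intro x
  unfold hatW
  rw [← Finset.sum_fiberwise_of_maps_to (s := univ) (t := range (n + 1)) (g := fun y : Wd n => wt y)
    (fun y _ => Finset.mem_range.mpr (Nat.lt_succ_of_le (wt_le y)))]
  apply Finset.sum_congr rfl
  intro k _
  rw [← sum_e_wt, Finset.mul_sum]
  apply Finset.sum_congr rfl
  intro y hy
  rw [hf y, (Finset.mem_filter.mp hy).2]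

/-- lower bound for the transform of the modified certificate -/
theorem hat_low {l : ℝ} {f : Wd n → ℝ} {H : ℕ → ℝ} (hf : WCert l f) (hr : RadF f H) {D : ℕ}
    (hD : D ≤ n) (hl : (n : ℝ) - 2 * D < l) {s : ℝ} (hs : 0 ≤ s) {x : Wd n} (h1 : D ≤ wt x)
    (h2 : wt x + D ≤ n) :
    s * (2 ^ n / (((n : ℝ) + 1) ^ 3 * n.choose (wt x))) ≤ hatW (mulC f s) x := by
  obtain ⟨j, hj, hm⟩ := exists_low hf hD hl
  have hr' := radF_hatW hr
  have h3 : ∑ x ∈ univ.filter (fun x : Wd n => wt x = j), hatW f x =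
      n.choose j * (∑ k ∈ range (n + 1), H k * kr n k j) := by
    rw [← card_wt (n := n) j, ← nsmul_eq_mul, ← Finset.sum_const]
    apply Finset.sum_congr rfl
    intro y hy
    rw [hr' y, (Finset.mem_filter.mp hy).2]
  rw [h3] at hm
  have h4 := ker hr' hf.hat (j := j) (x := x) (hj.trans h1) (by omega)
  rw [hatW_mulC]
  have hc : (0 : ℝ) < n.choose (wt x) := by exact_mod_cast Nat.choose_pos (wt_le x)
  have hn : (0 : ℝ) < (n : ℝ) + 1 := by positivity
  have h5 : (2 : ℝ) ^ n / (((n : ℝ) + 1) ^ 3 * n.choose (wt x)) ≤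
      n.choose j * (∑ k ∈ range (n + 1), H k * kr n k j) / ((n + 1) * n.choose (wt x)) := by
    rw [div_le_iff₀ (by positivity)] at hm
    rw [div_le_div_iff₀ (by positivity) (by positivity)]
    have h6 := mul_le_mul_of_nonneg_right hm (show (0 : ℝ) ≤ (n + 1) * n.choose (wt x) by positivity)
    calc (2 : ℝ) ^ n * ((n + 1) * n.choose (wt x)) ≤ _ := h6
      _ = _ := by ring
  have h7 := mul_le_mul_of_nonneg_left (h5.trans h4) hs
  have h8 := hf.hat x
  linarith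

end Pool.Agent.Lib.MP_0430e4_lc.BY
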