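import Pool.Agent.Lib.MP_0430e4_lc.BY.H.Defs
import Pool.Agent.Lib.MP_0430e4_lc.BY.ToB
import Pool.Agent.Lib.MP_0430e4_lc.Stab.Radial

/-!
# Block H: radial certificates on words from Boolean certificates

PROOF. Average over the permutations of the coordinates (`Stab.symm`), divide by the value at `0`
and transfer to words over `F_2` with `toB`.
-/

set_option autoImplicit false

open Finset

namespace Pool.Agent.Lib.MP_0430e4_lc.BY

variable {n : ℕ}

/-- the bijection between words over `F_2` and Boolean words -/
def tbE (n : ℕ) : Wd n ≃ (Fin n → Bool) := ⟨toB, ofB, ofB_toB, toB_ofB⟩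

theorem toB_zero : toB (0 : Wd n) = fun _ => false := by
  funext i; simp [toB]

theorem toB_add_sing (x : Wd n) (i : Fin n) : toB (x + sing i) = Tensor.flp (toB x) i := by
  funext j
  unfold toB sing Tensor.flp
  by_cases h : j = i
  · subst h
    rw [Function.update_self, Pi.add_apply, Pi.single_eq_same]
    show decide (x j + 1 ≠ 0) = !(decide (x j ≠ 0))
    generalize x j = a
    revert a; decide
  · rw [Function.update_of_ne h, Pi.add_apply, Pi.single_eq_of_ne h, add_zero]

theorem e_eq_chi (x y : Wd n) : e x y = Tensor.chi (toB x) (toB y) := by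
  unfold e Tensor.chi toB dotProduct
  rw [sg_sum]
  apply Finset.prod_congr rfl
  intro i _
  rcases z01 (x i) with h | h <;> rcases z01 (y i) with h' | h' <;> simp [h, h', sg_zero, sg_one]

theorem symm_toB {h : (Fin n → Bool) → ℝ} (hs : Stab.IsSymm h) {x y : Wd n} (hxy : wt x = wt y) :
    h (toB x) = h (toB y) := by
  have h1 : Fintype.card {i // x i ≠ 0} = Fintype.card {i // y i ≠ 0} := by
    rw [Fintype.card_subtype, Fintype.card_subtype]; exact hxy
  let E : {i // x i ≠ 0} ≃ {i // y i ≠ 0} := Fintype.equivOfCardEq h1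
  have h2 : toB x = fun i => toB y (E.extendSubtype i) := by
    funext i
    unfold toB
    by_cases hi : x i ≠ 0
    · have h3 := E.extendSubtype_mem i hi
      rw [decide_eq_true hi, decide_eq_true h3]
    · have h3 := E.extendSubtype_not_mem i hi
      rw [decide_eq_false hi, decide_eq_false h3]
  rw [h2, hs]

theorem radialize {l : ℝ} {h : (Fin n → Bool) → ℝ} (hh : Tensor.IsCert l h) :
    ∃ (f : Wd n → ℝ) (H : ℕ → ℝ), RadF f H ∧ WCert l f ∧ ∑ x, f x = Tensor.val h := by
  classical
  set g : (Fin n → Bool) → ℝ := Stab.symm h with hg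
  have gc : Tensor.IsCert l g := Stab.isCert_symm hh
  have gs : Stab.IsSymm g := Stab.isSymm_symm h
  have gv : Tensor.val g = Tensor.val h := Stab.val_symm h
  have hc : 0 < g (fun _ => false) := gc.pos
  set c : ℝ := g (fun _ => false) with hcdef
  refine ⟨fun x => g (toB x) / c,
    fun k => if hk : ∃ x : Wd n, wt x = k then g (toB (Classical.choose hk)) / c else 0,
    ?_, ?_, ?_⟩
  · intro x
    have hk : ∃ x' : Wd n, wt x' = wt x := ⟨x, rfl⟩
    show g (toB x) / c = if hk : ∃ x' : Wd n, wt x' = wt x then
      g (toB (Classical.choose hk)) / c else 0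
    rw [dif_pos hk]
    rw [symm_toB gs (Classical.choose_spec hk).symm]
  · refine ⟨fun x => div_nonneg (gc.nonneg _) hc.le, fun x => ?_, fun x => ?_, ?_⟩
    · unfold hatW
      have h1 : ∑ y : Wd n, g (toB y) / c * e x y = (∑ z, g z * Tensor.chi (toB x) z) / c := by
        rw [← (tbE n).sum_comp (fun z => g z * Tensor.chi (toB x) z), Finset.sum_div]
        apply Finset.sum_congr rfl
        intro y _
        rw [e_eq_chi]
        show g (toB y) / c * Tensor.chi (toB x) (toB y) =
          g (toB y) * Tensor.chi (toB x) (toB y) / c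
        ring
      rw [h1]
      exact div_nonneg (gc.fourier _) hc.le
    · have h1 : ∑ i, g (toB (x + sing i)) / c = (∑ i, g (Tensor.flp (toB x) i)) / c := by
        rw [Finset.sum_div]
        apply Finset.sum_congr rfl
        intro i _
        rw [toB_add_sing]
      show l * (g (toB x) / c) ≤ ∑ i, g (toB (x + sing i)) / c
      rw [h1, ← mul_div_assoc]
      exact div_le_div_of_nonneg_right (gc.adj _) hc.le
    · show g (toB 0) / c = 1
      rw [toB_zero]
      exact div_self hc.ne'
  · rw [← gv]
    unfold Tensor.val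
    rw [← (tbE n).sum_comp g, Finset.sum_div]
    rfl

end Pool.Agent.Lib.MP_0430e4_lc.BY
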