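import Pool.Agent.Lib.MP_0430e4_lc.BY.H.Rad
import Pool.Agent.Lib.MP_0430e4_lc.Exact.INP

/-!
# Block H: near-optimal certificates

PROOF. `Tensor.ell (1/2 - 1/π) = 1/2` (library Exact, used in Final.lean / Assm.lean: look for the
name there), `Tensor.ell_continuousOn` gives `δ' < 1/2 - 1/π`, `δ' > 0`, with `ell δ' < 1/2 + ε/3`;
`c := 2 (1/2 - 1/π - δ')`, so `(1 - 2 δ') n = (2/π + c) n`. `Tensor.tendsto_ell` gives
`lexp δ' n / n < 1/2 + ε/2` for `n` large, i.e. `Lam n ((2/π + c) n) < 2^((1/2 + ε/2) n)`; `Lam` is the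
infimum of `val h` over certificates, so some certificate has `val h ≤ 2^((1/2 + ε) n)`. `radialize`.
-/

set_option autoImplicit false

open Finset Filter Topology

namespace Pool.Agent.Lib.MP_0430e4_lc.BY

theorem exists_near (ε : ℝ) (hε : 0 < ε) : ∃ c : ℝ, 0 < c ∧ c ≤ 1 ∧ ∃ n0 : ℕ, ∀ n ≥ n0,
    ∃ (f : Wd n → ℝ) (H : ℕ → ℝ), RadF f H ∧ WCert ((2 / Real.pi + c) * n) f ∧
      ∑ x, f x ≤ pw n (1 / 2 + ε) := by
  have hcont := Exact.ell_continuousAt Exact.mid_pos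
  have hev : ∀ᶠ δ in 𝓝 (1 / 2 - 1 / Real.pi), Tensor.ell δ < 1 / 2 + ε / 3 := by
    apply hcont.eventually_lt_const
    rw [Exact.fin_mid_ell Exact.inputs]; linarith
  obtain ⟨κ, hκ, hκ'⟩ := Metric.eventually_nhds_iff.mp hev
  have hmid := Exact.mid_pos
  set c : ℝ := min κ (min (1 / 2 - 1 / Real.pi) 1) with hc
  have hc0 : 0 < c := lt_min hκ (lt_min hmid one_pos)
  have hcκ : c ≤ κ := min_le_left _ _
  have hcm : c ≤ 1 / 2 - 1 / Real.pi := (min_le_right _ _).trans (min_le_left _ _)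
  have hc1 : c ≤ 1 := (min_le_right _ _).trans (min_le_right _ _)
  refine ⟨c, hc0, hc1, ?_⟩
  set δ : ℝ := 1 / 2 - 1 / Real.pi - c / 2 with hδ
  have hδ0 : 0 < δ := by rw [hδ]; linarith
  have hell : Tensor.ell δ < 1 / 2 + ε / 3 := by
    apply hκ'
    rw [Real.dist_eq, hδ, abs_lt]
    constructor <;> linarith
  have ht := Tensor.tendsto_ell hδ0.le
  have hev2 : ∀ᶠ n : ℕ in atTop, Tensor.lexp δ n / n < 1 / 2 + ε / 2 :=
    ht.eventually_lt_const (by linarith)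
  obtain ⟨n0, hn0⟩ := eventually_atTop.mp hev2
  refine ⟨max n0 1, fun n hn => ?_⟩
  have h4 := hn0 n ((le_max_left _ _).trans hn)
  have hn' : (0 : ℝ) < n := by exact_mod_cast (le_max_right n0 1).trans hn
  rw [div_lt_iff₀ hn'] at h4
  have hlev : (1 - 2 * δ) * n ≤ n := Tensor.level_le hδ0.le n
  have h5 : 1 ≤ Tensor.Lam n ((1 - 2 * δ) * n) := Tensor.one_le_lam hlev
  have h6 : Tensor.Lam n ((1 - 2 * δ) * n) < pw n (1 / 2 + ε / 2) := by
    unfold pw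
    rw [← Real.logb_lt_iff_lt_rpow (by norm_num) (by linarith)]
    exact h4
  unfold Tensor.Lam at h6
  obtain ⟨v, ⟨h, hcert, rfl⟩, hv⟩ := exists_lt_of_csInf_lt (Tensor.lam_nonempty hlev) h6
  obtain ⟨f, H, hR, hW, hsum⟩ := radialize hcert
  have hlv : (1 - 2 * δ) * n = (2 / Real.pi + c) * n := by
    rw [hδ]; ring
  rw [hlv] at hW
  refine ⟨f, H, hR, hW, ?_⟩
  rw [hsum]
  refine hv.le.trans ?_
  unfold pw
  apply Real.rpow_le_rpow_of_exponent_le (by norm_num)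
  apply mul_le_mul_of_nonneg_right _ hn'.le
  linarith

end Pool.Agent.Lib.MP_0430e4_lc.BY
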