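import Pool.Agent.Lib.MP_0430e4_lc.BY.H.HAm0
import Pool.Agent.Lib.MP_0430e4_lc.BY.H.Near

/-!
# Block H: theorem HA

PROOF. `exists_near (ε/2)`: `f` radial, level `l = (2/π + c) n`, mass `≤ 2^((1/2+ε/2) n)`. `D = ⌈(1/2-1/π) n⌉`,
`n - 2 D ≤ (2/π) n`. `hatW f` is radial too (`RadF (hatW f) H'` with `H' w = ∑_k H k kr n k w`). `exists_low`
gives `j ≤ D` with `C(n,j) H' j ≥ 2^n/(n+1)^2`. For `wt x = w`, `D ≤ w ≤ n - D`: `j ≤ w`, `j + w ≤ n`, so `ker`
for `G = hatW f`: `∑_z mub z hatW f (x+z) ≥ 2^n / ((n+1)^3 C(n,w))`, and `hatW (mulC f s) x ≥ s` times that.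
`s = c/8`: `(1-s)/(1+s) (2/π + c) ≥ 2/π + c/2`. `slackA` for `mulC f s` with `l' = (1-s)/(1+s) l`,
`μ = l'`: `μ - (n - 2D) ≥ c n/2`, so `(c n/2) s 2^n / ((n+1)^3 C(n,w)) Nw C w ≤ |C| n 2 2^((1/2+ε/2) n)`.
The polynomial factor is absorbed by `2^(ε n/2)` for `n` large.
-/

set_option autoImplicit false

open Finset

namespace Pool.Agent.Lib.MP_0430e4_lc.BY

theorem HA_holds : HA := by
  intro ε hε
  obtain ⟨c, hc, hc1, n1, hn1⟩ := exists_near (ε / 2) (by linarith)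
  obtain ⟨n2, hn2⟩ := poly_le_pw (32 / c ^ 2) (ε / 2) (by linarith)
  refine ⟨max (max n1 n2) 1, fun n hn C hC w hw hwn => ?_⟩
  have hna : n1 ≤ n := (le_max_left _ _).trans ((le_max_left _ _).trans hn)
  have hnb : n2 ≤ n := (le_max_right _ _).trans ((le_max_left _ _).trans hn)
  have hnc : 1 ≤ n := (le_max_right _ _).trans hn
  have hn0 : (0 : ℝ) < n := by exact_mod_cast hnc
  obtain ⟨f, H, hr, hf, hm⟩ := hn1 n hna
  have hpi := Real.pi_gt_three
  have hpi4 := Real.pi_le_four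
  have hip : 1 / Real.pi < 1 / 3 := by
    apply one_div_lt_one_div_of_lt (by norm_num) hpi
  have hip0 : 0 < 1 / Real.pi := by positivity
  have hD1 : (1 / 2 - 1 / Real.pi) * (n : ℝ) ≤ Dst n := Nat.le_ceil _
  have hD2 : Dst n ≤ n := by
    unfold Dst
    apply Nat.ceil_le.mpr
    nlinarith
  have hD3 : 0 < Dst n := by
    unfold Dst
    apply Nat.ceil_pos.mpr
    apply mul_pos _ hn0
    linarith
  have h2pi : 2 / Real.pi = 2 * (1 / Real.pi) := by ring
  set s : ℝ := c / 8 with hs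
  have hs0 : 0 < s := by positivity
  have hs1 : s < 1 := by rw [hs]; linarith
  have hlev : 2 / Real.pi + c / 2 ≤ (1 - s) / (1 + s) * (2 / Real.pi + c) := by
    rw [div_mul_eq_mul_div, le_div_iff₀ (by linarith)]
    rw [h2pi]
    have h1 : s = c / 8 := hs
    rw [h1]
    nlinarith
  set l : ℝ := (1 - s) / (1 + s) * ((2 / Real.pi + c) * n) with hl
  have hl2 : (2 / Real.pi + c / 2) * n ≤ l := by
    rw [hl, ← mul_assoc]
    exact mul_le_mul_of_nonneg_right hlev hn0.le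
  have hnD : (n : ℝ) - 2 * Dst n ≤ 2 / Real.pi * n := by
    rw [h2pi]; nlinarith
  have hlpos : 0 ≤ (2 / Real.pi + c) * n := by positivity
  have hadj := fun x => mulC_adj hf.nonneg hlpos hs0.le hs1 hf.adj x
  have hnn := fun x => mulC_nonneg hf.nonneg hs0.le hs1.le x
  have hcn : (0 : ℝ) < n.choose w := by
    exact_mod_cast Nat.choose_pos (by omega)
  have hhat : ∀ x : Wd n, 0 ≤ hatW (mulC f s) x := by
    intro x
    rw [hatW_mulC]
    have h1 := hf.hat x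
    have h2 : 0 ≤ ∑ z, mub z * hatW f (x + z) :=
      Finset.sum_nonneg fun z _ => mul_nonneg (mub_pos z).le (hf.hat _)
    positivity
  have hlow : ∀ x : Wd n, wt x = w →
      s * (2 ^ n / (((n : ℝ) + 1) ^ 3 * n.choose w)) ≤ hatW (mulC f s) x := by
    intro x hx
    rw [← hx]
    apply hat_low hf hr hD2 _ hs0.le (by omega) (by omega)
    have : 0 < c * n := by positivity
    linarith [hnD]
  have hsl := slackA (n := n) (l := l) (μ := l) (d := Dst n) (w := w) hnn hhat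
    (by intro x; rw [hl]; exact hadj x) (by nlinarith [mul_pos hc hn0]) le_rfl hC (by omega) hlow
  have hmass : ∑ x, mulC f s x ≤ 2 * pw n (1 / 2 + ε / 2) := by
    calc ∑ x, mulC f s x ≤ ∑ x, 2 * f x :=
          Finset.sum_le_sum fun x _ => mulC_le hf.nonneg hs0.le hs1.le x
      _ = 2 * ∑ x, f x := by rw [Finset.mul_sum]
      _ ≤ _ := by linarith
  have hl0 : 0 ≤ l := le_trans (by positivity) hl2
  have hCc : (0 : ℝ) ≤ C.card := Nat.cast_nonneg _
  have hmass0 : 0 ≤ ∑ x, mulC f s x := Finset.sum_nonneg fun x _ => hnn x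
  have hR : (C.card : ℝ) * (n - l) * ∑ x, mulC f s x ≤ C.card * n * (2 * pw n (1 / 2 + ε / 2)) := by
    calc (C.card : ℝ) * (n - l) * ∑ x, mulC f s x ≤ C.card * n * ∑ x, mulC f s x := by
          apply mul_le_mul_of_nonneg_right _ hmass0
          apply mul_le_mul_of_nonneg_left _ hCc
          linarith
      _ ≤ _ := mul_le_mul_of_nonneg_left hmass (by positivity)
  have hN0 : (0 : ℝ) ≤ Nw C w := Nat.cast_nonneg _
  have hLb : c / 2 * n * (s * (2 ^ n / (((n : ℝ) + 1) ^ 3 * n.choose w)) * Nw C w) ≤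
      (l - (n - 2 * Dst n)) * (s * (2 ^ n / (((n : ℝ) + 1) ^ 3 * n.choose w)) * Nw C w) := by
    apply mul_le_mul_of_nonneg_right _ (by positivity)
    nlinarith
  have hfin := (hLb.trans hsl).trans hR
  have hpoly := hn2 n hnb
  have hpw1 : pw n (1 / 2 + ε / 2) = 2 ^ n * pw n (-(1 / 2) + ε / 2) := by
    rw [← pw_one n, ← pw_add]
    congr 1
    ring
  have hpw2 : pw n (-(1 / 2) + ε) = pw n (-(1 / 2) + ε / 2) * pw n (ε / 2) := by
    rw [← pw_add]
    congr 1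
    ring
  have hP := pw_pos n (-(1 / 2) + ε / 2)
  have h2n : (0 : ℝ) < 2 ^ n := by positivity
  -- solve for the number of pairs
  have h9 : (Nw C w : ℝ) ≤ C.card * (32 / c ^ 2 * ((n : ℝ) + 1) ^ 3) * pw n (-(1 / 2) + ε / 2) *
      n.choose w := by
    rw [hpw1] at hfin
    have h10 : c / 2 * n * (s * (2 ^ n / (((n : ℝ) + 1) ^ 3 * n.choose w)) * Nw C w) =
        (c ^ 2 / 16 * n * 2 ^ n / (((n : ℝ) + 1) ^ 3 * n.choose w)) * Nw C w := by
      rw [hs]; ring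
    rw [h10] at hfin
    have h11 : (0 : ℝ) < c ^ 2 / 16 * n * 2 ^ n / (((n : ℝ) + 1) ^ 3 * n.choose w) := by positivity
    have h12 : (C.card : ℝ) * n * (2 * (2 ^ n * pw n (-(1 / 2) + ε / 2))) =
        (c ^ 2 / 16 * n * 2 ^ n / (((n : ℝ) + 1) ^ 3 * n.choose w)) *
          (C.card * (32 / c ^ 2 * ((n : ℝ) + 1) ^ 3) * pw n (-(1 / 2) + ε / 2) * n.choose w) := by
      field_simp
      ring
    rw [h12] at hfin
    exact le_of_mul_le_mul_left hfin h11
  refine h9.trans ?_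
  rw [hpw2]
  have h13 : (C.card : ℝ) * (32 / c ^ 2 * ((n : ℝ) + 1) ^ 3) * pw n (-(1 / 2) + ε / 2) ≤
      C.card * (pw n (-(1 / 2) + ε / 2) * pw n (ε / 2)) := by
    calc (C.card : ℝ) * (32 / c ^ 2 * ((n : ℝ) + 1) ^ 3) * pw n (-(1 / 2) + ε / 2) =
          (C.card * pw n (-(1 / 2) + ε / 2)) * (32 / c ^ 2 * ((n : ℝ) + 1) ^ 3) := by ring
      _ ≤ (C.card * pw n (-(1 / 2) + ε / 2)) * pw n (ε / 2) :=
          mul_le_mul_of_nonneg_left hpoly (by positivity)
      _ = _ := by ring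
  exact mul_le_mul_of_nonneg_right h13 hcn.le

end Pool.Agent.Lib.MP_0430e4_lc.BY
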