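import Pool.Agent.Lib.MP_0430e4_lc.BY.H.LB

/-!
# Block H: masses of a near-optimal certificate below `k`

Write `m_j = C(n,j) H j`, so `Pfr f x = ∑_j m_j x^j`; `E(x) = ‖Es x‖ = exp (Psi x).re`; `d/dlog x (Psi x).re = gr x`
(hasDerivAt_Psi), `gr` continuous and strictly increasing on `[0,1)` (block E).
Upper bound for all `0 ≤ x < 1`: `Pfr f x ≤ E(x)^n e^{2 n a}` (`ub` at real points, `2x - x² ≤ 1`).
Lower bound `Pfr f x ≥ E(x)^n e^{-β n}` at finitely many chosen points (`lb`).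
PROOF of `mass_at` (one target). Let `0 < y < 1`, `η > 0`. There are `β, a > 0`, `n0`: for `n ≥ n0` and all `k` with
`(gr y + η) n ≤ k`: some `j ≤ k`, `gr y n - η n ≤ j`, has `m_j y^j ≥ E(y)^n e^{-2 β n}` (β as small as desired):
`∑_{j > k} m_j y^j ≤ (y/y')^k Pfr f y'` for `y' > y` close to `y` with `gr y' ≤ gr y + η/2`:
`≤ E(y)^n e^{2na} exp(n [log E(y') - log E(y) - (gr y + η) log(y'/y)]) ≤ E(y)^n e^{2na} e^{-n (η/2) log(y'/y)}` (mean value
theorem in `log x`), and likewise `∑_{j < gr y n - η n} m_j y^j ≤ (y/y'')^{(gr y - η) n} Pfr f y''`, `y'' < y`. Both are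
`≤ (1/4) E(y)^n e^{-β n}` if `β, a` are small and `n` large; the rest has at most `n+1` terms.
PROOF of `mass`. Net of points `y_i` in `[x2/2, y_N]` with `gr y_i = i η`. Given `k`, take `i` with
`(i+1) η ≤ k/n < (i+2) η` and `j` from `mass_at`; `x := max y_i x2`; if `i η > gr y_N` take `y_N` (close to 1).
-/

set_option autoImplicit false

open Finset

namespace Pool.Agent.Lib.MP_0430e4_lc.BY

/-- real part of `Psi` on the real axis -/
noncomputable def hmPr (x : ℝ) : ℝ := (Psi (x : ℂ)).re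

theorem hm_hasDerivAt {x : ℝ} (h0 : 0 < x) (h1 : x < 1) : HasDerivAt hmPr (gr x / x) x := by
  have hz := norm_ofReal_lt h0.le h1
  have h := (hasDerivAt_Psi hz).real_of_complex
  have e1 : gr x / x = (psi1 (x : ℂ)).re := by
    unfold gr
    field_simp
  rw [e1]
  exact h

theorem hm_mono {x y : ℝ} (h0 : 0 ≤ x) (h : x ≤ y) (h1 : y < 1) : gr x ≤ gr y :=
  gr_strictMonoOn.monotoneOn ⟨h0, lt_of_le_of_lt h h1⟩ ⟨h0.trans h, h1⟩ h

theorem hm_le {y y' : ℝ} (h0 : 0 < y) (h : y ≤ y') (h1 : y' < 1) :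
    hmPr y' - hmPr y ≤ gr y' * (Real.log y' - Real.log y) := by
  have hd : ∀ x ∈ Set.Icc y y',
      HasDerivAt (fun x => hmPr x - gr y' * Real.log x) (gr x / x - gr y' * x⁻¹) x := by
    intro x hx
    have hx0 : 0 < x := lt_of_lt_of_le h0 hx.1
    exact (hm_hasDerivAt hx0 (lt_of_le_of_lt hx.2 h1)).sub
      ((Real.hasDerivAt_log hx0.ne').const_mul _)
  have hanti : AntitoneOn (fun x => hmPr x - gr y' * Real.log x) (Set.Icc y y') := by
    apply antitoneOn_of_deriv_nonpos (convex_Icc _ _)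
    · intro x hx
      exact (hd x hx).continuousAt.continuousWithinAt
    · intro x hx
      rw [interior_Icc] at hx
      exact (hd x (Set.Ioo_subset_Icc_self hx)).differentiableAt.differentiableWithinAt
    · intro x hx
      rw [interior_Icc] at hx
      have hx' := Set.Ioo_subset_Icc_self hx
      rw [(hd x hx').deriv]
      have hx0 : 0 < x := lt_of_lt_of_le h0 hx'.1
      have hm : gr x ≤ gr y' := hm_mono hx0.le hx'.2 h1
      rw [← div_eq_mul_inv, ← sub_div]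
      exact div_nonpos_of_nonpos_of_nonneg (by linarith) hx0.le
  have := hanti (Set.left_mem_Icc.mpr h) (Set.right_mem_Icc.mpr h) h
  simp only at this
  linarith

theorem hm_ge {y y' : ℝ} (h0 : 0 < y) (h : y ≤ y') (h1 : y' < 1) :
    gr y * (Real.log y' - Real.log y) ≤ hmPr y' - hmPr y := by
  have hd : ∀ x ∈ Set.Icc y y',
      HasDerivAt (fun x => hmPr x - gr y * Real.log x) (gr x / x - gr y * x⁻¹) x := by
    intro x hx
    have hx0 : 0 < x := lt_of_lt_of_le h0 hx.1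
    exact (hm_hasDerivAt hx0 (lt_of_le_of_lt hx.2 h1)).sub
      ((Real.hasDerivAt_log hx0.ne').const_mul _)
  have hmono : MonotoneOn (fun x => hmPr x - gr y * Real.log x) (Set.Icc y y') := by
    apply monotoneOn_of_deriv_nonneg (convex_Icc _ _)
    · intro x hx
      exact (hd x hx).continuousAt.continuousWithinAt
    · intro x hx
      rw [interior_Icc] at hx
      exact (hd x (Set.Ioo_subset_Icc_self hx)).differentiableAt.differentiableWithinAt
    · intro x hx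
      rw [interior_Icc] at hx
      have hx' := Set.Ioo_subset_Icc_self hx
      rw [(hd x hx').deriv]
      have hx0 : 0 < x := lt_of_lt_of_le h0 hx'.1
      have hm : gr y ≤ gr x := hm_mono h0.le hx'.1 (lt_of_le_of_lt hx'.2 h1)
      rw [← div_eq_mul_inv, ← sub_div]
      exact div_nonneg (by linarith) hx0.le
  have := hmono (Set.left_mem_Icc.mpr h) (Set.right_mem_Icc.mpr h) h
  simp only at this
  linarith

theorem hm_contAt {y : ℝ} (h0 : 0 < y) (h1 : y < 1) : ContinuousAt gr y := by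
  have hz := norm_ofReal_lt h0.le h1
  have hd : ∀ z ∈ Metric.ball (0 : ℂ) 1, psi1 z = deriv Psi z := fun z hz =>
    ((hasDerivAt_Psi (by simpa using hz)).deriv).symm
  have hc : ContinuousOn psi1 (Metric.ball 0 1) :=
    (differentiableOn_Psi.deriv Metric.isOpen_ball).continuousOn.congr hd
  have h2 : ContinuousAt psi1 (y : ℂ) :=
    hc.continuousAt (Metric.isOpen_ball.mem_nhds (by simpa using hz))
  have h3 : ContinuousAt (fun x : ℝ => psi1 (x : ℂ)) y :=
    ContinuousAt.comp (f := fun x : ℝ => (x : ℂ)) h2 Complex.continuous_ofReal.continuousAt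
  have h4 : ContinuousAt (fun x : ℝ => (psi1 (x : ℂ)).re) y :=
    Complex.continuous_re.continuousAt.comp h3
  exact continuousAt_id.mul h4

theorem hm_near {y η : ℝ} (h0 : 0 < y) (h1 : y < 1) (hη : 0 < η) :
    (∃ u, y < u ∧ u < 1 ∧ gr u ≤ gr y + η) ∧ ∃ v, 0 < v ∧ v < y ∧ gr y - η ≤ gr v := by
  obtain ⟨δ, hδ, hc⟩ := Metric.continuousAt_iff.mp (hm_contAt h0 h1) η hη
  constructor
  · have hm : 0 < min (δ / 2) ((1 - y) / 2) := lt_min (by linarith) (by linarith)
    have hm1 := min_le_left (δ / 2) ((1 - y) / 2)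
    have hm2 := min_le_right (δ / 2) ((1 - y) / 2)
    refine ⟨y + min (δ / 2) ((1 - y) / 2), by linarith, by linarith, ?_⟩
    have h := hc (x := y + min (δ / 2) ((1 - y) / 2)) (by
      rw [Real.dist_eq, add_sub_cancel_left, abs_of_pos hm]
      linarith)
    rw [Real.dist_eq] at h
    linarith [(abs_lt.mp h).2]
  · have hm : 0 < min (δ / 2) (y / 2) := lt_min (by linarith) (by linarith)
    have hm1 := min_le_left (δ / 2) (y / 2)
    have hm2 := min_le_right (δ / 2) (y / 2)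
    refine ⟨y - min (δ / 2) (y / 2), by linarith, by linarith, ?_⟩
    have h := hc (x := y - min (δ / 2) (y / 2)) (by
      rw [Real.dist_eq, sub_sub_cancel_left, abs_neg, abs_of_pos hm]
      linarith)
    rw [Real.dist_eq] at h
    linarith [(abs_lt.mp h).1]

theorem hm_wt_le {n : ℕ} (x : Wd n) : wt x ≤ n := by
  have h := hammingNorm_le_card_fintype (x := x)
  rw [Fintype.card_fin] at h
  exact h

theorem hm_Pfr_eq {n : ℕ} {f : Wd n → ℝ} {H : ℕ → ℝ} (hr : RadF f H) (r : ℝ) :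
    Pfr f r = ∑ j ∈ range (n + 1), n.choose j * H j * r ^ j := by
  unfold Pfr
  rw [← sum_fiberwise_of_maps_to (s := univ) (t := range (n + 1)) (g := wt)
    (fun x _ => mem_range.mpr (Nat.lt_succ_of_le (hm_wt_le x)))]
  apply sum_congr rfl
  intro j _
  have h2 : ∀ x ∈ univ.filter (fun y : Wd n => wt y = j), f x * r ^ wt x = H j * r ^ j := by
    intro x hx
    rw [hr x, (mem_filter.mp hx).2]
  rw [sum_congr rfl h2, sum_const, card_wt, nsmul_eq_mul]
  ring

theorem hm_nonneg {n : ℕ} {f : Wd n → ℝ} {H : ℕ → ℝ} (hr : RadF f H) (hf : ∀ x, 0 ≤ f x) {j : ℕ}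
    (hj : j ≤ n) : 0 ≤ H j := by
  have hc : 0 < (univ.filter (fun y : Wd n => wt y = j)).card := by
    rw [card_wt]
    exact Nat.choose_pos hj
  obtain ⟨y, hy⟩ := card_pos.mp hc
  rw [← (mem_filter.mp hy).2, ← hr y]
  exact hf y

theorem hm_Pfr_le {n : ℕ} {l : ℝ} {f : Wd n → ℝ} (hf : WCert l f) {a : ℝ} (ha : 0 ≤ a)
    (hm : ∑ x, f x ≤ Real.sqrt 2 ^ n * Real.exp (n * a)) {x : ℝ} (h0 : 0 ≤ x) (h1 : x < 1) :
    Pfr f x ≤ Real.exp (n * hmPr x + n * a) := by
  have hz := norm_ofReal_lt h0 h1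
  have h := ub hf ha hm hz (by simpa using h0)
  rw [Pf_ofReal, Complex.norm_real, Real.norm_eq_abs] at h
  have h2 : (2 * (x : ℂ) - (x : ℂ) ^ 2).re = 2 * x - x ^ 2 := by
    have : (2 * (x : ℂ) - (x : ℂ) ^ 2) = ((2 * x - x ^ 2 : ℝ) : ℂ) := by push_cast; ring
    rw [this, Complex.ofReal_re]
  rw [h2, norm_Es, ← Real.exp_nat_mul, ← Real.exp_add] at h
  refine (le_abs_self _).trans (h.trans (Real.exp_le_exp.mpr ?_))
  have h3 : (n : ℝ) * a * (2 * x - x ^ 2) ≤ n * a * 1 := by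
    apply mul_le_mul_of_nonneg_left _ (by positivity)
    nlinarith [sq_nonneg (1 - x)]
  unfold hmPr
  linarith

theorem hm_Es {n : ℕ} (x : ℝ) : ‖Es (x : ℂ)‖ ^ n = Real.exp (n * hmPr x) := by
  rw [norm_Es, ← Real.exp_nat_mul]
  rfl

theorem hm_large {β : ℝ} (hβ : 0 < β) {n : ℕ} (h3 : 3 ≤ n) (hn : 1 / β ^ 2 < n) :
    (n : ℝ) + 3 < Real.exp (2 * β * n) := by
  have hn3 : (3 : ℝ) ≤ n := by exact_mod_cast h3
  have h1 := Real.quadratic_le_exp_of_nonneg (x := 2 * β * n) (by positivity)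
  rw [div_lt_iff₀ (by positivity)] at hn
  have h2 : (2 * β * n) ^ 2 / 2 = 2 * n * (n * β ^ 2) := by ring
  rw [h2] at h1
  have h4 : 2 * (n : ℝ) * 1 ≤ 2 * n * (n * β ^ 2) :=
    mul_le_mul_of_nonneg_left hn.le (by positivity)
  have h5 : 0 < 2 * β * n := by positivity
  linarith

theorem mass_at (y η β' : ℝ) (h0 : 0 < y) (h1 : y < 1) (hη : 0 < η) (hβ : 0 < β') :
    ∃ a : ℝ, 0 < a ∧ ∃ n0 : ℕ, ∀ n ≥ n0, ∀ (l : ℝ) (f : Wd n → ℝ) (H : ℕ → ℝ), RadF f H →
    WCert l f → 2 / Real.pi * n ≤ l → ∑ x, f x ≤ Real.sqrt 2 ^ n * Real.exp (n * a) →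
    ∃ j : ℕ, (j : ℝ) ≤ (gr y + η) * n ∧ (gr y - η) * n ≤ j ∧
      ‖Es (y : ℂ)‖ ^ n * Real.exp (-(β' * n)) ≤ n.choose j * H j * y ^ j := by
  obtain ⟨⟨u, hu0, hu1, hu⟩, v, hv0, hv1, hv⟩ := hm_near h0 h1 (half_pos hη)
  set lam : ℝ := Real.log u - Real.log y with hlam
  set mu : ℝ := Real.log y - Real.log v with hmu
  have hlam0 : 0 < lam := by
    rw [hlam]
    have := Real.log_lt_log h0 hu0
    linarith
  have hmu0 : 0 < mu := by
    rw [hmu]
    have := Real.log_lt_log hv0 hv1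
    linarith
  set β : ℝ := min β' (min (η / 2 * lam) (η / 2 * mu)) / 4 with hβdef
  have hβ0 : 0 < β := by
    rw [hβdef]
    have : 0 < min β' (min (η / 2 * lam) (η / 2 * mu)) :=
      lt_min hβ (lt_min (by positivity) (by positivity))
    linarith
  have hb1 : 4 * β ≤ β' := by
    rw [hβdef]
    have := min_le_left β' (min (η / 2 * lam) (η / 2 * mu))
    linarith
  have hb2 : 4 * β ≤ η / 2 * lam := by
    rw [hβdef]
    have := min_le_right β' (min (η / 2 * lam) (η / 2 * mu))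
    have := min_le_left (η / 2 * lam) (η / 2 * mu)
    linarith
  have hb3 : 4 * β ≤ η / 2 * mu := by
    rw [hβdef]
    have := min_le_right β' (min (η / 2 * lam) (η / 2 * mu))
    have := min_le_right (η / 2 * lam) (η / 2 * mu)
    linarith
  obtain ⟨a1, ha1, n1, hlb⟩ := lb y β h0 h1 hβ0
  refine ⟨min a1 β, lt_min ha1 hβ0, max n1 (max 3 (⌈1 / β ^ 2⌉₊ + 1)), ?_⟩
  intro n hn l f H hr hf hl hmass
  have hn1 : n1 ≤ n := (le_max_left _ _).trans hn
  have hn2 : 3 ≤ n := ((le_max_left _ _).trans (le_max_right _ _)).trans hn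
  have hn3 : ⌈1 / β ^ 2⌉₊ + 1 ≤ n := ((le_max_right _ _).trans (le_max_right _ _)).trans hn
  have hn4 : 1 / β ^ 2 < n := by
    have h := Nat.le_ceil (1 / β ^ 2)
    have h' : ((⌈1 / β ^ 2⌉₊ + 1 : ℕ) : ℝ) ≤ n := by exact_mod_cast hn3
    push_cast at h'
    linarith
  have hlarge := hm_large hβ0 hn2 hn4
  have hnn : (0 : ℝ) ≤ n := Nat.cast_nonneg n
  set a : ℝ := min a1 β with hadef
  have ha0 : 0 < a := lt_min ha1 hβ0
  have haβ : a ≤ β := min_le_right _ _
  have haa : a ≤ a1 := min_le_left _ _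
  have hlow : ‖Es (y : ℂ)‖ ^ n * Real.exp (-(β * n)) ≤ Pfr f y := by
    apply hlb n hn1 l f hf hl
    refine hmass.trans ?_
    apply mul_le_mul_of_nonneg_left _ (by positivity)
    exact Real.exp_le_exp.mpr (mul_le_mul_of_nonneg_left haa hnn)
  by_contra hcon
  push Not at hcon
  have hPu := hm_Pfr_le hf ha0.le hmass (h0.trans hu0).le hu1
  have hPv := hm_Pfr_le hf ha0.le hmass hv0.le (hv1.trans h1)
  have hmj : ∀ j, j ≤ n → 0 ≤ (n.choose j : ℝ) * H j := fun j hj =>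
    mul_nonneg (Nat.cast_nonneg _) (hm_nonneg hr hf.nonneg hj)
  have hyu : Real.log y = Real.log u - lam := by rw [hlam]; ring
  have hyv : Real.log y = Real.log v + mu := by rw [hmu]; ring
  have hpow : ∀ (r : ℝ), 0 < r → ∀ j : ℕ, r ^ j = Real.exp (j * Real.log r) := by
    intro r hr j
    rw [Real.exp_nat_mul, Real.exp_log hr]
  have hterm : ∀ j ∈ range (n + 1), (n.choose j : ℝ) * H j * y ^ j ≤
      Real.exp (n * hmPr y) * Real.exp (-(β' * n)) +
      Real.exp (-((gr y + η) * n * lam)) * ((n.choose j : ℝ) * H j * u ^ j) +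
      Real.exp ((gr y - η) * n * mu) * ((n.choose j : ℝ) * H j * v ^ j) := by
    intro j hj
    have hj' : j ≤ n := Nat.lt_succ_iff.mp (mem_range.mp hj)
    have hm0 := hmj j hj'
    have hu' : 0 ≤ (n.choose j : ℝ) * H j * u ^ j := mul_nonneg hm0 (pow_nonneg (h0.trans hu0).le _)
    have hv' : 0 ≤ (n.choose j : ℝ) * H j * v ^ j := mul_nonneg hm0 (pow_nonneg hv0.le _)
    have e1 : 0 ≤ Real.exp (n * hmPr y) * Real.exp (-(β' * n)) := by positivity
    have e2 : 0 ≤ Real.exp (-((gr y + η) * n * lam)) * ((n.choose j : ℝ) * H j * u ^ j) :=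
      mul_nonneg (Real.exp_pos _).le hu'
    have e3 : 0 ≤ Real.exp ((gr y - η) * n * mu) * ((n.choose j : ℝ) * H j * v ^ j) :=
      mul_nonneg (Real.exp_pos _).le hv'
    by_cases c1 : (j : ℝ) ≤ (gr y + η) * n
    · by_cases c2 : (gr y - η) * n ≤ j
      · have h3 := (hcon j c1 c2).le
        rw [hm_Es] at h3
        linarith
      · push Not at c2
        have h3 : y ^ j ≤ Real.exp ((gr y - η) * n * mu) * v ^ j := by
          rw [hpow y h0, hpow v hv0, ← Real.exp_add]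
          apply Real.exp_le_exp.mpr
          rw [hyv]
          have := mul_le_mul_of_nonneg_right c2.le hmu0.le
          linarith
        have h4 := mul_le_mul_of_nonneg_left h3 hm0
        have h5 : (n.choose j : ℝ) * H j * (Real.exp ((gr y - η) * n * mu) * v ^ j) =
          Real.exp ((gr y - η) * n * mu) * ((n.choose j : ℝ) * H j * v ^ j) := by ring
        linarith
    · push Not at c1
      have h3 : y ^ j ≤ Real.exp (-((gr y + η) * n * lam)) * u ^ j := by
        rw [hpow y h0, hpow u (h0.trans hu0), ← Real.exp_add]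
        apply Real.exp_le_exp.mpr
        rw [hyu]
        have := mul_le_mul_of_nonneg_right c1.le hlam0.le
        linarith
      have h4 := mul_le_mul_of_nonneg_left h3 hm0
      have h5 : (n.choose j : ℝ) * H j * (Real.exp (-((gr y + η) * n * lam)) * u ^ j) =
        Real.exp (-((gr y + η) * n * lam)) * ((n.choose j : ℝ) * H j * u ^ j) := by ring
      linarith
  have hsum := sum_le_sum hterm
  rw [← hm_Pfr_eq hr y, sum_add_distrib, sum_add_distrib, sum_const, card_range, nsmul_eq_mul,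
    ← mul_sum, ← mul_sum, ← hm_Pfr_eq hr u, ← hm_Pfr_eq hr v] at hsum
  have hU : Real.exp (-((gr y + η) * n * lam)) * Pfr f u ≤
      Real.exp (n * hmPr y) * Real.exp (-(3 * β * n)) := by
    refine (mul_le_mul_of_nonneg_left hPu (Real.exp_pos _).le).trans ?_
    rw [← Real.exp_add, ← Real.exp_add]
    apply Real.exp_le_exp.mpr
    have h3 := hm_le h0 hu0.le hu1
    rw [← hlam] at h3
    have h4 : gr u * lam ≤ (gr y + η / 2) * lam := mul_le_mul_of_nonneg_right hu hlam0.le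
    have h5 : (n : ℝ) * (hmPr u - hmPr y + a + 3 * β - (gr y + η) * lam) ≤ n * 0 := by
      apply mul_le_mul_of_nonneg_left _ hnn
      linarith
    linarith
  have hV : Real.exp ((gr y - η) * n * mu) * Pfr f v ≤
      Real.exp (n * hmPr y) * Real.exp (-(3 * β * n)) := by
    refine (mul_le_mul_of_nonneg_left hPv (Real.exp_pos _).le).trans ?_
    rw [← Real.exp_add, ← Real.exp_add]
    apply Real.exp_le_exp.mpr
    have h3 := hm_ge hv0 hv1.le h1
    rw [← hmu] at h3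
    have h4 : (gr y - η / 2) * mu ≤ gr v * mu := mul_le_mul_of_nonneg_right hv hmu0.le
    have h5 : (n : ℝ) * (hmPr v - hmPr y + a + 3 * β + (gr y - η) * mu) ≤ n * 0 := by
      apply mul_le_mul_of_nonneg_left _ hnn
      linarith
    linarith
  have hW : ((n + 1 : ℕ) : ℝ) * (Real.exp (n * hmPr y) * Real.exp (-(β' * n))) ≤
      (n + 1) * (Real.exp (n * hmPr y) * Real.exp (-(3 * β * n))) := by
    push_cast
    apply mul_le_mul_of_nonneg_left _ (by positivity)
    apply mul_le_mul_of_nonneg_left _ (by positivity)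
    apply Real.exp_le_exp.mpr
    have : (n : ℝ) * (3 * β) ≤ n * β' := mul_le_mul_of_nonneg_left (by linarith) hnn
    linarith
  rw [hm_Es] at hlow
  have hfin : Real.exp (n * hmPr y) * Real.exp (-(β * n)) ≤
      Real.exp (n * hmPr y) * (((n : ℝ) + 3) * Real.exp (-(3 * β * n))) := by
    linarith
  have h6 := le_of_mul_le_mul_left hfin (Real.exp_pos _)
  have h7 : ((n : ℝ) + 3) * Real.exp (-(3 * β * n)) <
      Real.exp (2 * β * n) * Real.exp (-(3 * β * n)) :=
    mul_lt_mul_of_pos_right hlarge (Real.exp_pos _)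
  rw [← Real.exp_add] at h7
  have h8 : 2 * β * n + -(3 * β * n) = -(β * n) := by ring
  rw [h8] at h7
  linarith

/-- the statement of `mass_at` for one point -/
def HmAt (y η β' a : ℝ) (n0 : ℕ) : Prop :=
  ∀ n ≥ n0, ∀ (l : ℝ) (f : Wd n → ℝ) (H : ℕ → ℝ), RadF f H →
    WCert l f → 2 / Real.pi * n ≤ l → ∑ x, f x ≤ Real.sqrt 2 ^ n * Real.exp (n * a) →
    ∃ j : ℕ, (j : ℝ) ≤ (gr y + η) * n ∧ (gr y - η) * n ≤ j ∧
      ‖Es (y : ℂ)‖ ^ n * Real.exp (-(β' * n)) ≤ n.choose j * H j * y ^ j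

theorem HmAt.mono {y η β' a a' : ℝ} {n0 n0' : ℕ} (h : HmAt y η β' a n0) (ha : a' ≤ a)
    (hn : n0 ≤ n0') : HmAt y η β' a' n0' := by
  intro n hn' l f H hr hf hl hm
  apply h n (hn.trans hn') l f H hr hf hl
  refine hm.trans ?_
  apply mul_le_mul_of_nonneg_left _ (by positivity)
  exact Real.exp_le_exp.mpr (mul_le_mul_of_nonneg_left ha (Nat.cast_nonneg n))

theorem hm_family {η β' : ℝ} (hη : 0 < η) (hβ : 0 < β') (y : ℕ → ℝ)
    (hy : ∀ i, 0 < y i ∧ y i < 1) (N : ℕ) :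
    ∃ a : ℝ, 0 < a ∧ ∃ n0 : ℕ, ∀ i < N, HmAt (y i) η β' a n0 := by
  induction N with
  | zero => exact ⟨1, one_pos, 0, fun i hi => absurd hi (Nat.not_lt_zero i)⟩
  | succ N ih =>
    obtain ⟨a, ha, n0, h⟩ := ih
    obtain ⟨a', ha', n0', h'⟩ := mass_at (y N) η β' (hy N).1 (hy N).2 hη hβ
    refine ⟨min a a', lt_min ha ha', max n0 n0', fun i hi => ?_⟩
    rcases Nat.lt_succ_iff_lt_or_eq.mp hi with h1 | h1
    · exact (h i h1).mono (min_le_left _ _) (le_max_left _ _)
    · rw [h1]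
      exact HmAt.mono h' (min_le_right _ _) (le_max_right _ _)

theorem hm_fin {n : ℕ} {ε x2 y m : ℝ} {k j : ℕ} (h1 : x2 < 1) (hy0 : 0 < y)
    (hy1 : y < 1) (hk : gr x2 * n ≤ k) (hky : gr y * n ≤ k)
    (hjk : ((k : ℝ) - j) * (-Real.log y) ≤ 3 / 4 * ε * n)
    (hm : ‖Es (y : ℂ)‖ ^ n * Real.exp (-(ε / 4 * n)) ≤ m * y ^ j) :
    ∃ x : ℝ, x2 ≤ x ∧ x < 1 ∧ ‖Es (x : ℂ)‖ ^ n ≤ x ^ k * Real.exp (ε * n) * m := by
  refine ⟨max y x2, le_max_right _ _, max_lt hy1 h1, ?_⟩
  set x : ℝ := max y x2 with hx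
  have hyx : y ≤ x := le_max_left _ _
  have hx1 : x < 1 := max_lt hy1 h1
  have hx0 : 0 < x := lt_of_lt_of_le hy0 hyx
  have hkx : gr x * n ≤ k := by
    rcases max_choice y x2 with h | h
    · rw [hx, h]; exact hky
    · rw [hx, h]; exact hk
  have hlog : 0 ≤ Real.log x - Real.log y := by
    have := Real.log_le_log hy0 hyx
    linarith
  have h2 := mul_le_mul_of_nonneg_left (hm_le hy0 hyx hx1) (Nat.cast_nonneg (α := ℝ) n)
  have h3 := mul_le_mul_of_nonneg_right hkx hlog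
  have hpow : ∀ (r : ℝ), 0 < r → ∀ j : ℕ, r ^ j = Real.exp (j * Real.log r) := by
    intro r hr j
    rw [Real.exp_nat_mul, Real.exp_log hr]
  rw [hm_Es, hpow y hy0] at hm
  have hm2 : Real.exp (n * hmPr y - ε / 4 * n - j * Real.log y) ≤ m := by
    have h4 := mul_le_mul_of_nonneg_right hm (Real.exp_pos (-(j * Real.log y))).le
    rw [mul_assoc m, ← Real.exp_add, ← Real.exp_add, ← Real.exp_add, add_neg_cancel,
      Real.exp_zero, mul_one] at h4
    have e : n * hmPr y - ε / 4 * n - j * Real.log y =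
        n * hmPr y + -(ε / 4 * n) + -(j * Real.log y) := by ring
    rw [e]
    exact h4
  rw [hm_Es, hpow x hx0, ← Real.exp_add]
  refine le_trans ?_ (mul_le_mul_of_nonneg_left hm2 (Real.exp_pos _).le)
  rw [← Real.exp_add]
  apply Real.exp_le_exp.mpr
  linarith

theorem mass (ε x2 : ℝ) (hε : 0 < ε) (h0 : 0 < x2) (h1 : x2 < 1) :
    ∃ a : ℝ, 0 < a ∧ ∃ n0 : ℕ, ∀ n ≥ n0, ∀ (l : ℝ) (f : Wd n → ℝ) (H : ℕ → ℝ), RadF f H →
    WCert l f → 2 / Real.pi * n ≤ l → ∑ x, f x ≤ Real.sqrt 2 ^ n * Real.exp (n * a) →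
    ∀ k : ℕ, gr x2 * n ≤ k → 2 * k ≤ n →
    ∃ x : ℝ, x2 ≤ x ∧ x < 1 ∧ ∃ j : ℕ, j ≤ k ∧
      ‖Es (x : ℂ)‖ ^ n ≤ x ^ k * Real.exp (ε * n) * (n.choose j * H j) := by
  set xl : ℝ := x2 / 2 with hxl
  have hxl0 : 0 < xl := by rw [hxl]; linarith
  have hxl2 : xl < x2 := by rw [hxl]; linarith
  have hxl1 : xl < 1 := hxl2.trans h1
  set xt : ℝ := max x2 (Real.exp (-ε)) with hxt
  have hxt2 : x2 ≤ xt := le_max_left _ _
  have hxt0 : 0 < xt := lt_of_lt_of_le h0 hxt2
  have hxt1 : xt < 1 := max_lt h1 (by rw [Real.exp_lt_one_iff]; linarith)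
  have hxtlog : -Real.log xt ≤ ε := by
    have h := Real.log_le_log (Real.exp_pos (-ε)) (le_max_right x2 (Real.exp (-ε)))
    rw [Real.log_exp] at h
    linarith
  have hgl0 : 0 ≤ gr xl := by
    have h := hm_mono (le_refl (0 : ℝ)) hxl0.le hxl1
    have h2 : gr 0 = 0 := by simp [gr]
    linarith
  have hgg : gr xl < gr x2 := gr_strictMonoOn ⟨hxl0.le, hxl1⟩ ⟨h0.le, h1⟩ hxl2
  set Lam : ℝ := -Real.log xl with hLam
  have hLam0 : 0 < Lam := by
    have := Real.log_neg hxl0 hxl1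
    rw [hLam]
    linarith
  set η : ℝ := min ((gr x2 - gr xl) / 2) (ε / (6 * Lam)) with hη
  have hη0 : 0 < η := lt_min (by linarith) (by positivity)
  have hη1 : 2 * η ≤ gr x2 - gr xl := by
    have := min_le_left ((gr x2 - gr xl) / 2) (ε / (6 * Lam))
    rw [← hη] at this
    linarith
  have hη2 : 3 * η * Lam ≤ ε / 2 := by
    have h := min_le_right ((gr x2 - gr xl) / 2) (ε / (6 * Lam))
    rw [← hη, le_div_iff₀ (by positivity)] at h
    linarith
  have hivt : ∀ i : ℕ, ∃ y : ℝ, (xl ≤ y ∧ y ≤ xt) ∧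
      (gr xl ≤ i * η → i * η ≤ gr xt → gr y = i * η) := by
    intro i
    by_cases c : gr xl ≤ i * η ∧ i * η ≤ gr xt
    · have hcont : ContinuousOn gr (Set.Icc xl xt) := fun z hz =>
        (hm_contAt (lt_of_lt_of_le hxl0 hz.1) (lt_of_le_of_lt hz.2 hxt1)).continuousWithinAt
      obtain ⟨y, hy, hy'⟩ := intermediate_value_Icc (hxl2.le.trans hxt2) hcont ⟨c.1, c.2⟩
      exact ⟨y, ⟨hy.1, hy.2⟩, fun _ _ => hy'⟩
    · exact ⟨xl, ⟨le_rfl, hxl2.le.trans hxt2⟩, fun a b => absurd ⟨a, b⟩ c⟩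
  choose y hy hyg using hivt
  have hε4 : 0 < ε / 4 := by linarith
  obtain ⟨a1, ha1, n1, hfam⟩ := hm_family hη0 hε4 y
    (fun i => ⟨lt_of_lt_of_le hxl0 (hy i).1, lt_of_le_of_lt (hy i).2 hxt1⟩) ⌈1 / η⌉₊
  obtain ⟨a2, ha2, n2, htop⟩ := mass_at xt η (ε / 4) hxt0 hxt1 hη0 hε4
  refine ⟨min a1 a2, lt_min ha1 ha2, max 1 (max n1 n2), ?_⟩
  intro n hn l f H hr hf hl hmass k hk1 hk2
  have hn1 : 1 ≤ n := (le_max_left _ _).trans hn
  have hnn1 : n1 ≤ n := ((le_max_left _ _).trans (le_max_right _ _)).trans hn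
  have hnn2 : n2 ≤ n := ((le_max_right _ _).trans (le_max_right _ _)).trans hn
  have hn0 : (0 : ℝ) < n := by exact_mod_cast hn1
  have hk2' : 2 * (k : ℝ) ≤ n := by exact_mod_cast hk2
  have hηn : 0 < η * n := by positivity
  obtain ⟨i, hi1, hi2⟩ : ∃ i : ℕ, ((i : ℝ) + 1) * (η * n) ≤ k ∧ (k : ℝ) < (i + 2) * (η * n) := by
    have hq1 := Nat.floor_le (a := (k : ℝ) / (η * n)) (by positivity)
    have hq2 := Nat.lt_floor_add_one ((k : ℝ) / (η * n))
    have hq3 : 1 ≤ ⌊(k : ℝ) / (η * n)⌋₊ := by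
      rw [Nat.one_le_floor_iff, le_div_iff₀ hηn]
      have : 2 * η * n ≤ gr x2 * n := mul_le_mul_of_nonneg_right (by linarith) hn0.le
      linarith
    obtain ⟨i, hi⟩ := Nat.exists_eq_add_of_le' hq3
    refine ⟨i, ?_, ?_⟩
    · rw [le_div_iff₀ hηn, hi] at hq1
      push_cast at hq1
      exact hq1
    · rw [div_lt_iff₀ hηn, hi] at hq2
      push_cast at hq2
      linarith
  have hkj : ∀ j : ℕ, (j : ℝ) ≤ k → j ≤ k := fun j hj => by exact_mod_cast hj
  by_cases c : (i : ℝ) * η ≤ gr xt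
  · have hc2 : gr xl ≤ i * η := by
      have h2 : gr x2 * n < (i + 2) * η * n := by linarith
      have h3 := lt_of_mul_lt_mul_right h2 hn0.le
      linarith
    have hgy := hyg i hc2 c
    have hiN : i < ⌈1 / η⌉₊ := by
      rw [Nat.lt_ceil, lt_div_iff₀ hη0]
      have h2 : ((i : ℝ) + 1) * η * n ≤ 1 / 2 * n := by linarith
      have h3 := le_of_mul_le_mul_right h2 hn0
      linarith
    obtain ⟨j, hj1, hj2, hj3⟩ := (hfam i hiN).mono (min_le_left a1 a2) le_rfl n hnn1 l f H hr hf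
      hl hmass
    rw [hgy] at hj1 hj2
    have hjk : (j : ℝ) ≤ k := by linarith
    have hy0 : 0 < y i := lt_of_lt_of_le hxl0 (hy i).1
    have hy1 : y i < 1 := lt_of_le_of_lt (hy i).2 hxt1
    have hlogy : -Real.log (y i) ≤ Lam := by
      have := Real.log_le_log hxl0 (hy i).1
      rw [hLam]
      linarith
    have hlogy0 : 0 ≤ -Real.log (y i) := by
      have := Real.log_nonpos hy0.le hy1.le
      linarith
    obtain ⟨x, hx1, hx2, hx3⟩ := hm_fin (m := n.choose j * H j) (ε := ε) h1 hy0 hy1 hk1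
      (by rw [hgy]; linarith) (by
        have h2 : (k : ℝ) - j ≤ 3 * η * n := by linarith
        calc ((k : ℝ) - j) * (-Real.log (y i)) ≤ (3 * η * n) * Lam :=
              mul_le_mul h2 hlogy hlogy0 (by positivity)
          _ = 3 * η * Lam * n := by ring
          _ ≤ ε / 2 * n := mul_le_mul_of_nonneg_right hη2 hn0.le
          _ ≤ 3 / 4 * ε * n := by
              have : 0 < ε * n := by positivity
              linarith) hj3
    exact ⟨x, hx1, hx2, j, hkj j hjk, hx3⟩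
  · push Not at c
    obtain ⟨j, hj1, hj2, hj3⟩ := HmAt.mono htop (min_le_right a1 a2) le_rfl n hnn2 l f H hr hf
      hl hmass
    have h2 : gr xt * n < i * η * n := mul_lt_mul_of_pos_right c hn0
    have hjk : (j : ℝ) ≤ k := by linarith
    have hlogy0 : 0 ≤ -Real.log xt := by
      have := Real.log_nonpos hxt0.le hxt1.le
      linarith
    obtain ⟨x, hx1, hx2, hx3⟩ := hm_fin (m := n.choose j * H j) (ε := ε) h1 hxt0 hxt1 hk1
      (by linarith) (by
        have h2 : (k : ℝ) - j ≤ n / 2 := by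
          have : (0 : ℝ) ≤ j := Nat.cast_nonneg j
          linarith
        calc ((k : ℝ) - j) * (-Real.log xt) ≤ (n / 2) * ε :=
              mul_le_mul h2 hxtlog hlogy0 (by positivity)
          _ ≤ 3 / 4 * ε * n := by
              have : 0 < ε * n := by positivity
              linarith) hj3
    exact ⟨x, hx1, hx2, j, hkj j hjk, hx3⟩

end Pool.Agent.Lib.MP_0430e4_lc.BY
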