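import Pool.Agent.Lib.MP_0430e4_lc.BY.H.Defs

/-!
# Block H: facts on the mass polynomial and the majorant in the half disc

PROOFS.
* `Pf_imag`: `2^n Pf f z = ∑_x hatW f x (1-z)^{wt x} (1+z)^{n - wt x}` (as in `gen_e`), at `z = i y` both factors
  have modulus `√(1+y²)`, and `∑_x hatW f x = 2^n f 0 = 2^n`.
* `norm_Pf_le`: nonnegative coefficients. `Pfr_mono`: same. `Pfr_lower`: the words `0` and `sing i`.
* `ub`: Fix `0 < r < 1`, `Q(z) = Pf f z / (Es z)^n * exp(-(n a (2 z - z²)))` is analytic near the closed half disc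
  `{|z| ≤ r, Re z ≥ 0}`. On the diameter `|Q| ≤ (1+y²)^{n/2}/‖Es(iy)‖^n · exp(-n a y²) ≤ 1` (norm_Es_I). On the arc
  `|z| = r`: `|Pf| ≤ ∑ f ≤ √2^n e^{n a}`, `‖Es z‖² ≥ 1 + r²` (sq_ge), `Re (2z - z²) ≥ r²`
  (with `x = Re z ∈ [0,r]`: `2x - 2x² + r² ≥ r²`), so `|Q| ≤ (2/(1+r²))^{n/2} e^{n a (1 - r²)}`. Maximum modulus on
  `{|z| < r, Re z > 0}` (`Complex.norm_le_of_forall_mem_frontier_norm_le`), then `r → 1`.
-/

set_option autoImplicit false

open Finset

namespace Pool.Agent.Lib.MP_0430e4_lc.BY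

variable {n : ℕ}

private theorem ub_sum_e (y : Wd n) : ∑ x, e x y = if y = 0 then (2 : ℝ) ^ n else 0 := by
  rw [← orth y 0]
  apply Finset.sum_congr rfl
  intro u _
  rw [e_zero_right, mul_one]

theorem sum_hatW (f : Wd n → ℝ) : ∑ x, hatW f x = 2 ^ n * f 0 := by
  unfold hatW
  rw [Finset.sum_comm]
  have h1 : ∀ y : Wd n, ∑ x, f y * e x y = if y = 0 then f y * (2 : ℝ) ^ n else 0 := by
    intro y
    rw [← Finset.mul_sum, ub_sum_e]
    split_ifs <;> simp
  rw [Finset.sum_congr rfl fun y _ => h1 y, Finset.sum_ite_eq' Finset.univ (0 : Wd n)]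
  simp [mul_comm]

theorem differentiable_Pf (f : Wd n → ℝ) : Differentiable ℂ (Pf f) := by
  unfold Pf
  fun_prop

theorem Pf_ofReal (f : Wd n → ℝ) (r : ℝ) : Pf f (r : ℂ) = (Pfr f r : ℂ) := by
  unfold Pf Pfr
  push_cast
  rfl

theorem norm_Pf_le {f : Wd n → ℝ} (hf : ∀ x, 0 ≤ f x) (z : ℂ) : ‖Pf f z‖ ≤ Pfr f ‖z‖ := by
  unfold Pf Pfr
  refine (norm_sum_le _ _).trans (Finset.sum_le_sum fun x _ => ?_)
  rw [norm_mul, norm_pow, Complex.norm_real, Real.norm_of_nonneg (hf x)]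

theorem Pfr_mono {f : Wd n → ℝ} (hf : ∀ x, 0 ≤ f x) {r s : ℝ} (hr : 0 ≤ r) (hrs : r ≤ s) :
    Pfr f r ≤ Pfr f s := by
  unfold Pfr
  exact Finset.sum_le_sum fun x _ => mul_le_mul_of_nonneg_left (pow_le_pow_left₀ hr hrs _) (hf x)

theorem Pfr_one (f : Wd n → ℝ) : Pfr f 1 = ∑ x, f x := by
  unfold Pfr
  simp

private theorem ub_wt_sing (i : Fin n) : wt (sing i) = 1 := by
  unfold wt hammingNorm sing
  have : (univ.filter (fun j : Fin n => (Pi.single i (1 : ZMod 2) : Fin n → ZMod 2) j ≠ 0)) = {i} := by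
    ext j
    simp only [Finset.mem_filter, Finset.mem_univ, true_and, Finset.mem_singleton, Pi.single_apply]
    constructor
    · intro h
      by_contra hj
      exact h (if_neg hj)
    · rintro rfl
      simp
  rw [this, Finset.card_singleton]

private theorem ub_wt_zero : wt (0 : Wd n) = 0 := by
  unfold wt
  exact hammingNorm_zero

theorem Pfr_lower {l : ℝ} {f : Wd n → ℝ} (hf : WCert l f) {r : ℝ} (hr : 0 ≤ r) :
    1 + l * r ≤ Pfr f r := by
  classical
  have hinj : Function.Injective (sing : Fin n → Wd n) := by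
    intro i j hij
    by_contra h
    have h1 : (sing i : Wd n) i = (sing j : Wd n) i := by rw [hij]
    unfold sing at h1
    rw [Pi.single_eq_same, Pi.single_eq_of_ne h] at h1
    exact one_ne_zero h1
  have h0 : (0 : Wd n) ∉ (univ : Finset (Fin n)).image sing := by
    intro h
    obtain ⟨i, _, hi⟩ := Finset.mem_image.mp h
    have := ub_wt_sing i
    rw [hi, ub_wt_zero] at this
    exact absurd this (by norm_num)
  have h1 : ∑ x ∈ insert (0 : Wd n) ((univ : Finset (Fin n)).image sing), f x * r ^ wt x ≤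
      Pfr f r := by
    unfold Pfr
    exact Finset.sum_le_sum_of_subset_of_nonneg (Finset.subset_univ _)
      fun x _ _ => mul_nonneg (hf.nonneg x) (pow_nonneg hr _)
  rw [Finset.sum_insert h0, Finset.sum_image fun i _ j _ h => hinj h, ub_wt_zero, pow_zero, mul_one,
    hf.one] at h1
  have h2 : ∑ i : Fin n, f (sing i) * r ^ wt (sing i : Wd n) = (∑ i : Fin n, f (sing i)) * r := by
    rw [Finset.sum_mul]
    exact Finset.sum_congr rfl fun i _ => by rw [ub_wt_sing, pow_one]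
  rw [h2] at h1
  have h3 := hf.adj 0
  simp only [zero_add, hf.one, mul_one] at h3
  have h4 := mul_le_mul_of_nonneg_right h3 hr
  linarith

private theorem ub_dual (f : Wd n → ℝ) (z : ℂ) :
    (2 : ℂ) ^ n * Pf f z = ∑ x, (hatW f x : ℂ) * ((1 - z) ^ wt x * (1 + z) ^ (n - wt x)) := by
  have h1 : ∀ x : Wd n, (hatW f x : ℂ) * ((1 - z) ^ wt x * (1 + z) ^ (n - wt x)) =
      ∑ y : Wd n, ∑ y' : Wd n, (f y' : ℂ) * z ^ wt y * ((e x y * e x y' : ℝ) : ℂ) := by
    intro x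
    rw [← gen_e (R := ℂ) x z, Finset.mul_sum]
    apply Finset.sum_congr rfl
    intro y _
    unfold hatW
    rw [Complex.ofReal_sum, Finset.sum_mul]
    apply Finset.sum_congr rfl
    intro y' _
    rw [Complex.coe_algebraMap]
    push_cast
    ring
  rw [Finset.sum_congr rfl fun x _ => h1 x, Finset.sum_comm]
  unfold Pf
  rw [Finset.mul_sum]
  apply Finset.sum_congr rfl
  intro y _
  rw [Finset.sum_comm]
  have h2 : ∀ y' : Wd n, ∑ x : Wd n, (f y' : ℂ) * z ^ wt y * ((e x y * e x y' : ℝ) : ℂ) =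
      if y = y' then (f y' : ℂ) * z ^ wt y * (2 : ℂ) ^ n else 0 := by
    intro y'
    rw [← Finset.mul_sum, ← Complex.ofReal_sum, orth]
    split_ifs
    · push_cast; ring
    · simp
  rw [Finset.sum_congr rfl fun y' _ => h2 y', Finset.sum_ite_eq Finset.univ y]
  simp only [Finset.mem_univ, if_true]
  ring

theorem Pf_imag {l : ℝ} {f : Wd n → ℝ} (hf : WCert l f) (y : ℝ) :
    ‖Pf f ((y : ℂ) * Complex.I)‖ ≤ Real.sqrt (1 + y ^ 2) ^ n := by
  have hp : ‖(1 : ℂ) + (y : ℂ) * Complex.I‖ = Real.sqrt (1 + y ^ 2) := by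
    rw [Complex.norm_def, Complex.normSq_apply]
    congr 1
    simp
    ring
  have hm : ‖(1 : ℂ) - (y : ℂ) * Complex.I‖ = Real.sqrt (1 + y ^ 2) := by
    rw [Complex.norm_def, Complex.normSq_apply]
    congr 1
    simp
    ring
  have h1 : (2 : ℝ) ^ n * ‖Pf f ((y : ℂ) * Complex.I)‖ ≤ 2 ^ n * Real.sqrt (1 + y ^ 2) ^ n := by
    calc (2 : ℝ) ^ n * ‖Pf f ((y : ℂ) * Complex.I)‖
        = ‖(2 : ℂ) ^ n * Pf f ((y : ℂ) * Complex.I)‖ := by
          rw [norm_mul, norm_pow, Complex.norm_ofNat]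
      _ ≤ ∑ x, ‖(hatW f x : ℂ) * ((1 - (y : ℂ) * Complex.I) ^ wt x *
            (1 + (y : ℂ) * Complex.I) ^ (n - wt x))‖ := by
          rw [ub_dual]; exact norm_sum_le _ _
      _ = ∑ x, hatW f x * Real.sqrt (1 + y ^ 2) ^ n := by
          apply Finset.sum_congr rfl
          intro x _
          rw [norm_mul, norm_mul, norm_pow, norm_pow, hp, hm, ← pow_add,
            Nat.add_sub_cancel' (wt_le x), Complex.norm_real, Real.norm_of_nonneg (hf.hat x)]
      _ = 2 ^ n * Real.sqrt (1 + y ^ 2) ^ n := by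
          rw [← Finset.sum_mul, sum_hatW, hf.one, mul_one]
  exact le_of_mul_le_mul_left h1 (by positivity)

private theorem ub_re (z : ℂ) : (2 * z - z ^ 2).re = 2 * z.re - 2 * z.re ^ 2 + ‖z‖ ^ 2 := by
  rw [← Complex.normSq_eq_norm_sq, Complex.normSq_apply]
  simp [pow_two]
  ring

private noncomputable def ubQ (f : Wd n → ℝ) (a : ℝ) (z : ℂ) : ℂ :=
  Pf f z * Complex.exp (-((n : ℂ) * (Psi z + (a : ℂ) * (2 * z - z ^ 2))))

private theorem ub_normQ (f : Wd n → ℝ) (a : ℝ) (z : ℂ) :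
    ‖ubQ f a z‖ = ‖Pf f z‖ * Real.exp (-(n * ((Psi z).re + a * (2 * z - z ^ 2).re))) := by
  unfold ubQ
  rw [norm_mul, Complex.norm_exp]
  congr 2
  rw [Complex.neg_re, ← Complex.ofReal_natCast, Complex.re_ofReal_mul, Complex.add_re,
    Complex.re_ofReal_mul]

private theorem ub_diff (f : Wd n → ℝ) (a : ℝ) : DifferentiableOn ℂ (ubQ f a) (Metric.ball 0 1) := by
  unfold ubQ
  have h1 := differentiableOn_Psi
  have h2 : DifferentiableOn ℂ (Pf f) (Metric.ball 0 1) := (differentiable_Pf f).differentiableOn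
  fun_prop

/-- on the imaginary axis -/
private theorem ub_axis {l : ℝ} {f : Wd n → ℝ} (hf : WCert l f) {a : ℝ} (ha : 0 ≤ a) {z : ℂ}
    (hz : ‖z‖ < 1) (h0 : z.re = 0) : ‖ubQ f a z‖ ≤ 1 := by
  have hzz : z = (z.im : ℂ) * Complex.I := by
    apply Complex.ext <;> simp [h0]
  have hn : ‖z‖ = |z.im| := by
    conv_lhs => rw [hzz]
    rw [norm_mul, Complex.norm_I, mul_one, Complex.norm_real, Real.norm_eq_abs]
  have hy : |z.im| < 1 := hn ▸ hz
  have h1 : ‖Pf f z‖ ≤ Real.sqrt (1 + z.im ^ 2) ^ n := by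
    have := Pf_imag hf z.im
    rwa [← hzz] at this
  have h2 : Real.sqrt (1 + z.im ^ 2) = Real.exp (Psi z).re := by
    rw [← norm_Es, Real.sqrt_eq_iff_mul_self_eq (by positivity) (norm_nonneg _)]
    have := norm_Es_I hy
    rw [← hzz] at this
    rw [← this]; ring
  rw [ub_normQ]
  rw [h2, ← Real.exp_nat_mul] at h1
  calc ‖Pf f z‖ * Real.exp (-(n * ((Psi z).re + a * (2 * z - z ^ 2).re)))
      ≤ Real.exp (n * (Psi z).re) * Real.exp (-(n * ((Psi z).re + a * (2 * z - z ^ 2).re))) :=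
        mul_le_mul_of_nonneg_right h1 (Real.exp_nonneg _)
    _ = Real.exp (-(n * (a * (2 * z - z ^ 2).re))) := by
        rw [← Real.exp_add]; congr 1; ring
    _ ≤ 1 := by
        rw [Real.exp_le_one_iff, neg_nonpos, ub_re, h0]
        have : (0 : ℝ) ≤ ‖z‖ ^ 2 := by positivity
        have h5 : (0 : ℝ) ≤ 2 * 0 - 2 * 0 ^ 2 + ‖z‖ ^ 2 := by linarith
        exact mul_nonneg (Nat.cast_nonneg n) (mul_nonneg ha h5)

/-- the bound on the arc -/
private noncomputable def ubC (n : ℕ) (a r : ℝ) : ℝ :=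
  (Real.sqrt 2 / Real.sqrt (1 + r ^ 2)) ^ n * Real.exp (n * (a * (1 - r ^ 2)))

private theorem ub_C_ge {a r : ℝ} (ha : 0 ≤ a) (h0 : 0 ≤ r) (h1 : r < 1) : 1 ≤ ubC n a r := by
  unfold ubC
  have hr : r ^ 2 ≤ 1 := by nlinarith
  have h2 : 1 ≤ Real.sqrt 2 / Real.sqrt (1 + r ^ 2) := by
    rw [one_le_div (by positivity)]
    exact Real.sqrt_le_sqrt (by linarith)
  have h3 : 1 ≤ Real.exp (n * (a * (1 - r ^ 2))) := by
    apply Real.one_le_exp
    exact mul_nonneg (Nat.cast_nonneg n) (mul_nonneg ha (by linarith))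
  calc (1 : ℝ) = 1 * 1 := by ring
    _ ≤ _ := mul_le_mul (one_le_pow₀ h2) h3 zero_le_one (by positivity)

private theorem ub_arc {l : ℝ} {f : Wd n → ℝ} (hf : WCert l f) {a : ℝ} (ha : 0 ≤ a)
    (hm : ∑ x, f x ≤ Real.sqrt 2 ^ n * Real.exp (n * a)) {z : ℂ} (hz : ‖z‖ < 1) (h0 : 0 ≤ z.re) :
    ‖ubQ f a z‖ ≤ ubC n a ‖z‖ := by
  have h1 : ‖Pf f z‖ ≤ Real.sqrt 2 ^ n * Real.exp (n * a) := by
    refine (norm_Pf_le hf.nonneg z).trans ((Pfr_mono hf.nonneg (norm_nonneg _) hz.le).trans ?_)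
    rw [Pfr_one]
    exact hm
  have h2 : Real.sqrt (1 + ‖z‖ ^ 2) ≤ Real.exp (Psi z).re := by
    rw [← norm_Es]
    exact Real.sqrt_le_iff.mpr ⟨norm_nonneg _, sq_ge hz h0⟩
  have hx : z.re ≤ 1 := (Complex.re_le_norm z).trans hz.le
  have h3 : ‖z‖ ^ 2 ≤ (2 * z - z ^ 2).re := by
    rw [ub_re]; nlinarith
  have hs : 0 < Real.sqrt (1 + ‖z‖ ^ 2) := by positivity
  rw [ub_normQ]
  unfold ubC
  calc ‖Pf f z‖ * Real.exp (-(n * ((Psi z).re + a * (2 * z - z ^ 2).re)))
      ≤ (Real.sqrt 2 ^ n * Real.exp (n * a)) *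
          Real.exp (-(n * ((Psi z).re + a * (2 * z - z ^ 2).re))) :=
        mul_le_mul_of_nonneg_right h1 (Real.exp_nonneg _)
    _ = Real.sqrt 2 ^ n * (Real.exp (-(n * (Psi z).re)) *
          Real.exp (n * (a * (1 - (2 * z - z ^ 2).re)))) := by
        rw [mul_assoc, ← Real.exp_add, ← Real.exp_add]
        congr 2; ring
    _ ≤ Real.sqrt 2 ^ n * ((1 / Real.sqrt (1 + ‖z‖ ^ 2) ^ n) *
          Real.exp (n * (a * (1 - ‖z‖ ^ 2)))) := by
        apply mul_le_mul_of_nonneg_left _ (by positivity)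
        apply mul_le_mul _ _ (Real.exp_nonneg _) (by positivity)
        · rw [Real.exp_neg, Real.exp_nat_mul, ← one_div]
          exact one_div_le_one_div_of_le (by positivity) (pow_le_pow_left₀ hs.le h2 n)
        · rw [Real.exp_le_exp]
          exact mul_le_mul_of_nonneg_left (mul_le_mul_of_nonneg_left (by linarith) ha)
            (Nat.cast_nonneg n)
    _ = (Real.sqrt 2 / Real.sqrt (1 + ‖z‖ ^ 2)) ^ n * Real.exp (n * (a * (1 - ‖z‖ ^ 2))) := by
        rw [div_pow]; ring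

private theorem ub_inner {l : ℝ} {f : Wd n → ℝ} (hf : WCert l f) {a : ℝ} (ha : 0 ≤ a)
    (hm : ∑ x, f x ≤ Real.sqrt 2 ^ n * Real.exp (n * a)) {z : ℂ} {r : ℝ} (hr : r < 1)
    (hz : ‖z‖ < r) (h0 : 0 < z.re) : ‖ubQ f a z‖ ≤ ubC n a r := by
  have hr0 : 0 ≤ r := (norm_nonneg z).trans hz.le
  set U : Set ℂ := {w : ℂ | ‖w‖ < r} ∩ {w : ℂ | 0 < w.re} with hU
  have hUo : IsOpen U := (isOpen_lt continuous_norm continuous_const).inter
    (isOpen_lt continuous_const Complex.continuous_re)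
  have hcl : closure U ⊆ {w : ℂ | ‖w‖ ≤ r} ∩ {w : ℂ | 0 ≤ w.re} := by
    apply closure_minimal
    · rintro w ⟨h1, h2⟩
      have h1' : ‖w‖ < r := h1
      have h2' : 0 < w.re := h2
      exact ⟨h1'.le, h2'.le⟩
    · exact (isClosed_le continuous_norm continuous_const).inter
        (isClosed_le continuous_const Complex.continuous_re)
  have hbd : Bornology.IsBounded U := by
    apply (Metric.isBounded_ball (x := (0 : ℂ)) (r := r)).subset
    rintro w ⟨h1, _⟩
    exact mem_ball_zero_iff.mpr h1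
  have hd : DiffContOnCl ℂ (ubQ f a) U := by
    apply DifferentiableOn.diffContOnCl
    apply (ub_diff f a).mono
    intro w hw
    exact mem_ball_zero_iff.mpr ((hcl hw).1.trans_lt hr)
  refine Complex.norm_le_of_forall_mem_frontier_norm_le hbd hd ?_ (subset_closure ⟨hz, h0⟩)
  intro w hw
  rw [frontier, hUo.interior_eq] at hw
  obtain ⟨h1, h2⟩ := hcl hw.1
  have h1' : ‖w‖ ≤ r := h1
  have h2' : 0 ≤ w.re := h2
  rcases h2'.eq_or_lt with h3 | h3
  · exact (ub_axis hf ha (h1'.trans_lt hr) h3.symm).trans (ub_C_ge ha hr0 hr)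
  · rcases h1'.eq_or_lt with h4 | h4
    · rw [← h4]
      exact ub_arc hf ha hm (h4 ▸ hr) h2'
    · exact absurd (show w ∈ U from ⟨h4, h3⟩) hw.2

theorem ub {l : ℝ} {f : Wd n → ℝ} (hf : WCert l f) {a : ℝ} (ha : 0 ≤ a)
    (hm : ∑ x, f x ≤ Real.sqrt 2 ^ n * Real.exp (n * a)) {z : ℂ} (hz : ‖z‖ < 1) (h0 : 0 ≤ z.re) :
    ‖Pf f z‖ ≤ ‖Es z‖ ^ n * Real.exp (n * a * (2 * z - z ^ 2).re) := by
  have key : ‖ubQ f a z‖ ≤ 1 := by
    rcases h0.eq_or_lt with h1 | h1
    · exact ub_axis hf ha hz h1.symm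
    · have hlim : Filter.Tendsto (fun r : ℝ => ubC n a r) (nhdsWithin 1 (Set.Iio 1))
          (nhds (ubC n a 1)) := by
        have hc : Continuous (fun r : ℝ => ubC n a r) := by
          unfold ubC
          have : ∀ r : ℝ, Real.sqrt (1 + r ^ 2) ≠ 0 := fun r => by positivity
          fun_prop (disch := assumption)
        exact (hc.tendsto 1).mono_left nhdsWithin_le_nhds
      have h1C : ubC n a 1 = 1 := by
        unfold ubC
        norm_num
      rw [h1C] at hlim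
      refine ge_of_tendsto hlim ?_
      filter_upwards [Ioo_mem_nhdsLT hz] with r hr
      exact ub_inner hf ha hm hr.2 hr.1 h1
  rw [ub_normQ] at key
  have h2 := mul_le_mul_of_nonneg_right key
    (Real.exp_nonneg (n * ((Psi z).re + a * (2 * z - z ^ 2).re)))
  rw [mul_assoc, ← Real.exp_add, neg_add_cancel, Real.exp_zero, mul_one, one_mul] at h2
  refine h2.trans (le_of_eq ?_)
  rw [norm_Es, ← Real.exp_nat_mul, ← Real.exp_add]
  congr 1
  ring

end Pool.Agent.Lib.MP_0430e4_lc.BY
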