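import Pool.Agent.Lib.MP_0430e4_lc.BY.P.Good

/-!
# Block H: high weights (helper41)

`sum_w N_w s^(n-w) <= sum_w N_w s^w` for `0 < s <= 1` (positivity of the dual distribution),
hence `N_(n-v) s^v <= sum_w N_w s^w`, and with `s = sqrt 2 - 1` and `(HA)` the right side is
`<= |C| 2^(eps n)`.
-/

set_option autoImplicit false

open Finset

namespace Pool.Agent.Lib.MP_0430e4_lc.BY

variable {n : ℕ}

/-- `(1+z)^n sum_w N_w s^w` through the dual distribution, `s = (1-z)/(1+z)`. -/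
theorem dual_sum (C : Finset (Wd n)) (z : ℝ) :
    ∑ w ∈ range (n + 1), (Nw C w : ℝ) * ((1 - z) ^ w * (1 + z) ^ (n - w))
      = ∑ y : Wd n, z ^ wt y * (∑ x ∈ C, e x y) ^ 2 := by
  rw [← sum_pairs C (fun w => (1 - z) ^ w * (1 + z) ^ (n - w))]
  have h1 : ∀ x ∈ C, ∀ x' ∈ C, (1 - z) ^ wt (x - x') * (1 + z) ^ (n - wt (x - x'))
      = ∑ y : Wd n, e (x - x') y * z ^ wt y := by
    intro x _ x' _
    have := gen_e (R := ℝ) (x - x') z
    simpa using this.symm
  rw [Finset.sum_congr rfl fun x hx => Finset.sum_congr rfl fun x' hx' => h1 x hx x' hx']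
  have h2 : ∀ y : Wd n, z ^ wt y * (∑ x ∈ C, e x y) ^ 2
      = ∑ x ∈ C, ∑ x' ∈ C, e (x - x') y * z ^ wt y := by
    intro y
    rw [sq, Finset.sum_mul_sum, Finset.mul_sum]
    apply Finset.sum_congr rfl; intro x _
    rw [Finset.mul_sum]
    apply Finset.sum_congr rfl; intro x' _
    rw [sub_eq_add', e_add_left]
    ring
  rw [Finset.sum_congr rfl fun y _ => h2 y, Finset.sum_comm]
  rw [Finset.sum_congr rfl fun x' _ => Finset.sum_comm]
  rw [Finset.sum_comm]
  rw [Finset.sum_congr rfl fun y _ => Finset.sum_comm]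

theorem flip_le (C : Finset (Wd n)) {s : ℝ} (h0 : 0 < s) (h1 : s ≤ 1) :
    ∑ w ∈ range (n + 1), (Nw C w : ℝ) * s ^ (n - w) ≤ ∑ w ∈ range (n + 1), (Nw C w : ℝ) * s ^ w := by
  set z : ℝ := (1 - s) / (1 + s) with hz
  have hz0 : 0 ≤ z := div_nonneg (by linarith) (by linarith)
  have e1 : 1 - z = s * (2 / (1 + s)) := by rw [hz]; field_simp; ring
  have e2 : 1 + z = 2 / (1 + s) := by rw [hz]; field_simp; ring
  have hq : 0 < 2 / (1 + s) := by positivity
  have hA := dual_sum C z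
  have hB := dual_sum C (-z)
  have hAB : ∑ y : Wd n, (-z) ^ wt y * (∑ x ∈ C, e x y) ^ 2
      ≤ ∑ y : Wd n, z ^ wt y * (∑ x ∈ C, e x y) ^ 2 := by
    apply Finset.sum_le_sum
    intro y _
    apply mul_le_mul_of_nonneg_right _ (sq_nonneg _)
    calc (-z) ^ wt y ≤ |(-z) ^ wt y| := le_abs_self _
      _ = z ^ wt y := by rw [abs_pow, abs_neg, abs_of_nonneg hz0]
  rw [← hA, ← hB] at hAB
  have f1 : ∀ w ∈ range (n + 1), (Nw C w : ℝ) * ((1 - z) ^ w * (1 + z) ^ (n - w))
      = (2 / (1 + s)) ^ n * ((Nw C w : ℝ) * s ^ w) := by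
    intro w hw
    have hwn : w ≤ n := Nat.lt_succ_iff.mp (Finset.mem_range.mp hw)
    rw [e1, e2, mul_pow]
    have : (2 / (1 + s)) ^ n = (2 / (1 + s)) ^ w * (2 / (1 + s)) ^ (n - w) := by
      rw [← pow_add, Nat.add_sub_cancel' hwn]
    rw [this]
    ring
  have f2 : ∀ w ∈ range (n + 1), (Nw C w : ℝ) * ((1 - -z) ^ w * (1 + -z) ^ (n - w))
      = (2 / (1 + s)) ^ n * ((Nw C w : ℝ) * s ^ (n - w)) := by
    intro w hw
    have hwn : w ≤ n := Nat.lt_succ_iff.mp (Finset.mem_range.mp hw)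
    rw [sub_neg_eq_add, ← sub_eq_add_neg, e1, e2, mul_pow]
    have : (2 / (1 + s)) ^ n = (2 / (1 + s)) ^ w * (2 / (1 + s)) ^ (n - w) := by
      rw [← pow_add, Nat.add_sub_cancel' hwn]
    rw [this]
    ring
  rw [Finset.sum_congr rfl f1, Finset.sum_congr rfl f2, ← Finset.mul_sum, ← Finset.mul_sum] at hAB
  exact le_of_mul_le_mul_left hAB (by positivity)

/-- the single high weight -/
theorem single_le (C : Finset (Wd n)) {s : ℝ} (h0 : 0 < s) (h1 : s ≤ 1) {v : ℕ} (hv : v ≤ n) :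
    (Nw C (n - v) : ℝ) * s ^ v ≤ ∑ w ∈ range (n + 1), (Nw C w : ℝ) * s ^ w := by
  refine le_trans ?_ (flip_le C h0 h1)
  have hm : n - v ∈ range (n + 1) := Finset.mem_range.mpr (by omega)
  have h2 := Finset.single_le_sum (f := fun w => (Nw C w : ℝ) * s ^ (n - w))
    (fun w _ => by positivity) hm
  rw [Nat.sub_sub_self hv] at h2
  exact h2

theorem two_Dst (n : ℕ) (hn : 10 ≤ n) : 5 * Dst n ≤ 2 * n := by
  have hpi := Real.pi_lt_d2
  have hp := Real.pi_pos
  have h1 : (Dst n : ℝ) < (1 / 2 - 1 / Real.pi) * n + 1 := by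
    unfold Dst
    apply Nat.ceil_lt_add_one
    have : 1 / Real.pi ≤ 1 / 2 := one_div_le_one_div_of_le (by norm_num) Real.two_le_pi
    have hn0 : (0 : ℝ) ≤ n := by positivity
    nlinarith
  have h2 : 1 / 2 - 1 / Real.pi ≤ 19 / 100 := by
    have : 1 / 3.15 ≤ 1 / Real.pi := one_div_le_one_div_of_le hp (by linarith)
    norm_num at this ⊢
    linarith
  have hn' : (10 : ℝ) ≤ n := by exact_mod_cast hn
  have h3 : (5 : ℝ) * Dst n ≤ 2 * n := by
    have h4 : (1 / 2 - 1 / Real.pi) * n ≤ 19 / 100 * n := mul_le_mul_of_nonneg_right h2 (by linarith)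
    linarith
  exact_mod_cast h3

theorem geo_small : ∀ m : ℕ, 6 ≤ m → 2 * (5 * (m : ℝ) + 1) ≤ 2 ^ m := by
  intro m hm
  induction m, hm using Nat.le_induction with
  | base => norm_num
  | succ k hk ih =>
      have hk' : (6 : ℝ) ≤ k := by exact_mod_cast hk
      rw [pow_succ]
      push_cast
      linarith

theorem half_le {m n : ℕ} (hm : n ≤ 5 * m) (hn : 30 ≤ n) {s : ℝ} (h0 : 0 ≤ s) (h1 : s ≤ 1 / 2) :
    ((n : ℝ) + 1) * s ^ m ≤ 1 / 2 := by
  have h6 : 6 ≤ m := by omega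
  have h2 := geo_small m h6
  have h3 : s ^ m ≤ (1 / 2) ^ m := pow_le_pow_left₀ h0 h1 m
  have hn' : (n : ℝ) ≤ 5 * m := by exact_mod_cast hm
  calc ((n : ℝ) + 1) * s ^ m ≤ (5 * m + 1) * (1 / 2) ^ m := by gcongr
    _ ≤ 1 / 2 := by
        rw [one_div, inv_pow, ← div_eq_mul_inv, div_le_iff₀ (by positivity)]
        linarith

theorem sqrt_pow_eq (n : ℕ) : Real.sqrt 2 ^ n = pw n (1 / 2) := by
  unfold pw
  rw [Real.sqrt_eq_rpow, ← Real.rpow_natCast, ← Real.rpow_mul (by norm_num)]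

/-- the total mass `sum_w N_w s^w` at `s = sqrt 2 - 1` -/
theorem total_le {C : Finset (Wd n)} (hn : 30 ≤ n) (hC : IsCode (Dst n) C) {K : ℝ} (hK : 0 ≤ K)
    (hA : ∀ w : ℕ, Dst n ≤ w → w + Dst n ≤ n → (Nw C w : ℝ) ≤ C.card * K * n.choose w) :
    ∑ w ∈ range (n + 1), (Nw C w : ℝ) * (Real.sqrt 2 - 1) ^ w
      ≤ 2 * (C.card * (1 + K * Real.sqrt 2 ^ n)) := by
  have h2 : Real.sqrt 2 * Real.sqrt 2 = 2 := Real.mul_self_sqrt (by norm_num)
  have h2a : 1 < Real.sqrt 2 := by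
    rw [Real.lt_sqrt (by norm_num)]
    norm_num
  have h2b : Real.sqrt 2 ≤ 3 / 2 := by
    rw [Real.sqrt_le_left (by norm_num)]
    norm_num
  set s : ℝ := Real.sqrt 2 - 1 with hs
  have h0 : 0 < s := by linarith
  have h1 : s ≤ 1 / 2 := by linarith
  set W : ℝ := ∑ w ∈ range (n + 1), (Nw C w : ℝ) * s ^ w with hW
  have hW0 : 0 ≤ W := Finset.sum_nonneg fun w _ => by positivity
  have hD := two_Dst n (by omega)
  have hb : ∀ w ∈ range (n + 1), (Nw C w : ℝ) * s ^ w
      ≤ (if w = 0 then (C.card : ℝ) else 0) + C.card * K * (s ^ w * 1 ^ (n - w) * n.choose w)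
        + W * s ^ (n - 2 * Dst n) := by
    intro w hw
    have hwn : w ≤ n := Nat.lt_succ_iff.mp (Finset.mem_range.mp hw)
    have hp1 : 0 ≤ (C.card : ℝ) * K * (s ^ w * 1 ^ (n - w) * n.choose w) := by positivity
    have hp2 : 0 ≤ W * s ^ (n - 2 * Dst n) := by positivity
    by_cases hw0 : w = 0
    · subst hw0
      rw [if_pos rfl, Nw_zero, pow_zero, mul_one]
      linarith
    · rw [if_neg hw0, zero_add]
      by_cases hwD : w < Dst n
      · rw [Nw_of_lt hC hw0 hwD, Nat.cast_zero, zero_mul]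
        linarith
      · push Not at hwD
        by_cases hwn2 : w + Dst n ≤ n
        · have := hA w hwD hwn2
          calc (Nw C w : ℝ) * s ^ w ≤ (C.card * K * n.choose w) * s ^ w :=
                mul_le_mul_of_nonneg_right this (by positivity)
            _ = C.card * K * (s ^ w * 1 ^ (n - w) * n.choose w) := by rw [one_pow]; ring
            _ ≤ _ := by linarith
        · push Not at hwn2
          have hv : n - w ≤ n := Nat.sub_le _ _
          have h3 := single_le C h0 (by linarith : s ≤ 1) hv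
          rw [Nat.sub_sub_self hwn, ← hW] at h3
          have h4 : s ^ w ≤ s ^ (n - w) * s ^ (n - 2 * Dst n) := by
            rw [← pow_add]
            apply pow_le_pow_of_le_one h0.le (by linarith)
            omega
          calc (Nw C w : ℝ) * s ^ w ≤ (Nw C w : ℝ) * (s ^ (n - w) * s ^ (n - 2 * Dst n)) :=
                mul_le_mul_of_nonneg_left h4 (by positivity)
            _ = ((Nw C w : ℝ) * s ^ (n - w)) * s ^ (n - 2 * Dst n) := by ring
            _ ≤ W * s ^ (n - 2 * Dst n) := mul_le_mul_of_nonneg_right h3 (by positivity)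
            _ ≤ _ := by linarith
  have hsum := Finset.sum_le_sum hb
  rw [← hW, Finset.sum_add_distrib, Finset.sum_add_distrib, ← Finset.mul_sum,
    ← add_pow s 1 n, Finset.sum_const, Finset.card_range, nsmul_eq_mul,
    Finset.sum_ite_eq' (range (n + 1)) 0 (fun _ => (C.card : ℝ)),
    if_pos (Finset.mem_range.mpr (Nat.succ_pos n))] at hsum
  have hs1 : s + 1 = Real.sqrt 2 := by rw [hs]; ring
  rw [hs1] at hsum
  have hh := half_le (m := n - 2 * Dst n) (n := n) (by omega) hn h0.le h1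
  push_cast at hsum
  have h5 : ((n : ℝ) + 1) * (W * s ^ (n - 2 * Dst n)) ≤ W * (1 / 2) := by
    calc ((n : ℝ) + 1) * (W * s ^ (n - 2 * Dst n)) = W * (((n : ℝ) + 1) * s ^ (n - 2 * Dst n)) := by
          ring
      _ ≤ W * (1 / 2) := mul_le_mul_of_nonneg_left hh hW0
  linarith

/-- (HHigh) from (HA). -/
theorem HHigh_of_HA (hA : HA) : HHigh := by
  intro ε hε
  obtain ⟨n1, h1⟩ := hA (ε / 2) (by linarith)
  obtain ⟨n2, h2⟩ := pw_large 4 (show 0 < ε / 2 by linarith)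
  refine ⟨max 30 (max n1 n2), fun n hn C hC v hv => ?_⟩
  have hn30 : 30 ≤ n := (le_max_left _ _).trans hn
  have hn1 : n1 ≤ n := (le_max_left _ _).trans ((le_max_right _ _).trans hn)
  have hn2 : n2 ≤ n := (le_max_right _ _).trans ((le_max_right _ _).trans hn)
  have hD := two_Dst n (by omega)
  have hT := total_le hn30 hC (K := pw n (-(1 / 2) + ε / 2)) (pw_pos _ _).le
    (fun w hw1 hw2 => h1 n hn1 C hC w hw1 hw2)
  have hP : pw n (-(1 / 2) + ε / 2) * Real.sqrt 2 ^ n = pw n (ε / 2) := by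
    rw [sqrt_pow_eq, ← pw_add]
    congr 1
    ring
  rw [hP] at hT
  have h4 := h2 n hn2
  have hc : (0 : ℝ) ≤ C.card := by positivity
  have hP2 : pw n (ε / 2) * pw n (ε / 2) = pw n ε := by
    rw [← pw_add]
    congr 1
    ring
  have hT2 : ∑ w ∈ range (n + 1), (Nw C w : ℝ) * (Real.sqrt 2 - 1) ^ w ≤ C.card * pw n ε := by
    refine hT.trans ?_
    have h5 : 2 * (1 + pw n (ε / 2)) ≤ pw n ε := by
      rw [← hP2]
      nlinarith
    calc 2 * ((C.card : ℝ) * (1 + pw n (ε / 2))) = C.card * (2 * (1 + pw n (ε / 2))) := by ring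
      _ ≤ C.card * pw n ε := mul_le_mul_of_nonneg_left h5 hc
  have hs2 : Real.sqrt 2 * Real.sqrt 2 = 2 := Real.mul_self_sqrt (by norm_num)
  have h2a : 1 < Real.sqrt 2 := by
    rw [Real.lt_sqrt (by norm_num)]
    norm_num
  have h2b : Real.sqrt 2 ≤ 3 / 2 := by
    rw [Real.sqrt_le_left (by norm_num)]
    norm_num
  have hsg := single_le C (s := Real.sqrt 2 - 1) (by linarith) (by linarith) (v := v) (by omega)
  have hinv : (Real.sqrt 2 - 1) ^ v * (1 + Real.sqrt 2) ^ v = 1 := by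
    rw [← mul_pow]
    have : (Real.sqrt 2 - 1) * (1 + Real.sqrt 2) = 1 := by nlinarith
    rw [this, one_pow]
  calc (Nw C (n - v) : ℝ) = (Nw C (n - v) : ℝ) * ((Real.sqrt 2 - 1) ^ v * (1 + Real.sqrt 2) ^ v) := by
        rw [hinv, mul_one]
    _ = ((Nw C (n - v) : ℝ) * (Real.sqrt 2 - 1) ^ v) * (1 + Real.sqrt 2) ^ v := by ring
    _ ≤ (C.card * pw n ε) * (1 + Real.sqrt 2) ^ v :=
        mul_le_mul_of_nonneg_right (hsg.trans hT2) (by positivity)
    _ = C.card * pw n ε * (1 + Real.sqrt 2) ^ v := rfl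

end Pool.Agent.Lib.MP_0430e4_lc.BY
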