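import Pool.Agent.Lib.MP_0430e4_lc.BY.H.Mul
import Pool.Agent.Lib.MP_0430e4_lc.BY.H.Near
import Pool.Agent.Lib.MP_0430e4_lc.BY.H.Mass

/-!
# Block H: theorem HB

PROOF. `mass (ε/4)` gives `a`; `exists_near` with `ε' ≤ min (ε/4) (a/log 2)`: `pw n (1/2+ε') ≤ √2^n e^{n a}`. For `k` as
given take `x`, `j` from `mass` (`j ≤ k`, `j + k ≤ 2k ≤ n`). `f' = addC f 1`: level `l = (2/π+c) n`, `ker` for `G = f`:
`f' y ≥ C(n,j) H j / ((n+1) C(n,k))` for `wt y = k`. `slackB` with `μ = (2/π) n ≥ n - 2D` (`D ≥ (1/2-1/π) n`), `l - μ = c n`: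
`c n C(n,j) H j / ((n+1) C(n,k)) Sk C k ≤ |C| n 2 2^((1/2+ε/4) n)`. Insert `C(n,j) H j ≥ E(x)^n x^{-k} e^{-ε n/4}`;
polynomial factors are absorbed.
-/

set_option autoImplicit false

open Finset

namespace Pool.Agent.Lib.MP_0430e4_lc.BY

namespace HBaux

theorem pw_lin (A : ℝ) {t : ℝ} (ht : 0 < t) :
    ∃ n0 : ℕ, ∀ n ≥ n0, A * ((n : ℝ) + 1) ≤ pw n t := by
  obtain ⟨b, hb⟩ : ∃ b : ℝ, b = (2 : ℝ) ^ (t / 2) - 1 := ⟨_, rfl⟩
  have hb0 : 0 < b := by
    have h1 : 1 < (2 : ℝ) ^ (t / 2) := Real.one_lt_rpow (by norm_num) (by positivity)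
    linarith
  obtain ⟨m, hm⟩ : ∃ m : ℝ, m = min b 1 := ⟨_, rfl⟩
  have hm0 : 0 < m := by rw [hm]; exact lt_min hb0 one_pos
  have hmb : m ≤ b := by rw [hm]; exact min_le_left _ _
  have hm1 : m ≤ 1 := by rw [hm]; exact min_le_right _ _
  obtain ⟨n0, hn0⟩ := pw_large (|A| / m) (show (0 : ℝ) < t / 2 by positivity)
  refine ⟨n0, fun n hn => ?_⟩
  have h1 := hn0 n hn
  have h2 : 1 + (n : ℝ) * b ≤ pw n (t / 2) := by
    have h3 : pw n (t / 2) = (1 + b) ^ n := by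
      unfold pw
      rw [Real.rpow_mul (by norm_num), Real.rpow_natCast, hb]
      congr 1; ring
    rw [h3]
    exact one_add_mul_le_pow (by linarith) n
  have h3 : m * ((n : ℝ) + 1) ≤ pw n (t / 2) := by
    have h4 : m * (n : ℝ) ≤ b * n := mul_le_mul_of_nonneg_right hmb (Nat.cast_nonneg n)
    nlinarith
  have h5 : pw n t = pw n (t / 2) * pw n (t / 2) := by
    rw [← pw_add]; congr 1; ring
  have hn1 : (0 : ℝ) ≤ (n : ℝ) + 1 := by positivity
  calc A * ((n : ℝ) + 1) ≤ |A| * ((n : ℝ) + 1) := mul_le_mul_of_nonneg_right (le_abs_self A) hn1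
    _ = (|A| / m) * (m * ((n : ℝ) + 1)) := by field_simp
    _ ≤ pw n (t / 2) * pw n (t / 2) := by
        apply mul_le_mul h1 h3 (by positivity) (pw_pos n _).le
    _ = pw n t := h5.symm

theorem pw_exp (n : ℕ) (x : ℝ) : pw n x = Real.exp (x * Real.log 2 * n) := by
  unfold pw
  rw [Real.rpow_def_of_pos (by norm_num)]
  congr 1; ring

theorem pw_half (n : ℕ) : pw n (1 / 2) = Real.sqrt 2 ^ n := by
  unfold pw
  rw [Real.rpow_mul (by norm_num), Real.rpow_natCast, Real.sqrt_eq_rpow]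

theorem Dst_ge (n : ℕ) : (n : ℝ) - 2 * Dst n ≤ 2 / Real.pi * n := by
  have h : (1 / 2 - 1 / Real.pi) * (n : ℝ) ≤ (Dst n : ℝ) := Nat.le_ceil _
  have e1 : (1 / 2 - 1 / Real.pi) * (n : ℝ) = n / 2 - (2 / Real.pi * n) / 2 := by ring
  linarith

theorem shell_le {n : ℕ} {f : Wd n → ℝ} {H : ℕ → ℝ} (hR : RadF f H) (h0 : ∀ x, 0 ≤ f x) {j k : ℕ}
    (hjk : j ≤ k) (hk : j + k ≤ n) (y : Wd n) (hy : wt y = k) :
    n.choose j * H j / ((n + 1) * n.choose k) ≤ addC f 1 y := by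
  have h1 := ker hR h0 (j := j) (x := y) (by rw [hy]; exact hjk) (by rw [hy]; exact hk)
  rw [hy] at h1
  unfold addC
  have := h0 y
  linarith

theorem main_ineq {n : ℕ} {l c m S M B : ℝ} (hn : 0 < (n : ℝ)) (hc : 0 < c)
    (hl : l - 2 / Real.pi * n = c * n) (ch : ℝ) (hch : 0 < ch)
    (hM : 0 ≤ M) (hB : 0 ≤ B)
    (h : (l - 2 / Real.pi * n) * (m / ((n + 1) * ch) * S) ≤ M * (n - 2 / Real.pi * n) * ((1 + 1) * B)) :
    m * S ≤ 2 / c * (n + 1) * (M * B * ch) := by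
  have hpi : 0 < 2 / Real.pi * (n : ℝ) := by positivity
  have hn1 : (0 : ℝ) < (n : ℝ) + 1 := by linarith
  have h2 : M * ((n : ℝ) - 2 / Real.pi * n) * ((1 + 1) * B) ≤ M * n * (2 * B) := by
    have h3 : M * ((n : ℝ) - 2 / Real.pi * n) ≤ M * n := mul_le_mul_of_nonneg_left (by linarith) hM
    have h4 : 0 ≤ (1 + 1) * B := by positivity
    calc _ ≤ M * n * ((1 + 1) * B) := mul_le_mul_of_nonneg_right h3 h4
      _ = _ := by ring
  rw [hl] at h
  have h5 : c * n * (m / ((n + 1) * ch) * S) ≤ M * n * (2 * B) := h.trans h2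
  have h6 : c * n * (m / ((n + 1) * ch) * S) = (m * S) * (c * n / ((n + 1) * ch)) := by
    field_simp
  rw [h6] at h5
  have h7 : m * S ≤ (M * n * (2 * B)) / (c * n / ((n + 1) * ch)) := by
    rw [le_div_iff₀ (by positivity)]
    exact h5
  calc m * S ≤ (M * n * (2 * B)) / (c * n / ((n + 1) * ch)) := h7
    _ = _ := by field_simp

end HBaux

open HBaux in
theorem HB_holds : HB := by
  intro ε hε x2 hx0 hx1
  have hlog : 0 < Real.log 2 := Real.log_pos (by norm_num)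
  obtain ⟨a, ha, n1, hmass⟩ := mass (ε / 4 * Real.log 2) x2 (by positivity) hx0 hx1
  obtain ⟨ε', hε'⟩ : ∃ ε' : ℝ, ε' = min (ε / 4) (a / Real.log 2) := ⟨_, rfl⟩
  have he0 : 0 < ε' := by rw [hε']; exact lt_min (by positivity) (by positivity)
  have he1 : ε' ≤ ε / 4 := by rw [hε']; exact min_le_left _ _
  have he2 : ε' ≤ a / Real.log 2 := by rw [hε']; exact min_le_right _ _
  obtain ⟨c, hc0, hc1, n2, hnear⟩ := exists_near ε' he0
  obtain ⟨n3, hn3⟩ := pw_lin (2 / c) (show (0 : ℝ) < ε / 2 by positivity)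
  refine ⟨n1 + n2 + n3 + 1, fun n hn C hC k hk1 hk2 => ?_⟩
  obtain ⟨f, H, hR, hW, hsum⟩ := hnear n (by omega)
  have hnpos : (0 : ℝ) < (n : ℝ) := by
    have : 0 < n := by omega
    exact_mod_cast this
  have hcn : 0 < c * (n : ℝ) := by positivity
  have hlev : 2 / Real.pi * (n : ℝ) ≤ (2 / Real.pi + c) * n := by
    rw [add_mul]; linarith
  have hsum2 : ∑ x, f x ≤ Real.sqrt 2 ^ n * Real.exp (n * a) := by
    refine hsum.trans ?_
    rw [pw_add, pw_half]
    apply mul_le_mul_of_nonneg_left _ (by positivity)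
    rw [pw_exp]
    apply Real.exp_le_exp.mpr
    have h1 : ε' * Real.log 2 ≤ a := by
      rw [← le_div_iff₀ hlog]; exact he2
    have h2 : ε' * Real.log 2 * (n : ℝ) ≤ a * n := mul_le_mul_of_nonneg_right h1 hnpos.le
    linarith
  obtain ⟨x, hx2, hxlt, j, hjk, hE⟩ := hmass n (by omega) _ f H hR hW hlev hsum2 k hk1 hk2
  refine ⟨x, hx2, hxlt, ?_⟩
  have hxpos : 0 < x := lt_of_lt_of_le hx0 hx2
  have hkn : k ≤ n := by omega
  have hch : (0 : ℝ) < (n.choose k : ℝ) := by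
    exact_mod_cast Nat.choose_pos hkn
  have hB := slackB (l := (2 / Real.pi + c) * n) (μ := 2 / Real.pi * n)
    (c := n.choose j * H j / ((n + 1) * n.choose k)) (d := Dst n) (k := k) (f := addC f 1)
    (addC_nonneg hW.nonneg zero_le_one)
    (fun y => by
      rw [hatW_addC, one_mul]
      apply mul_nonneg (hW.hat y)
      have := abs_le.mp (abs_psib y)
      linarith [this.1])
    (addC_adj zero_le_one hW.adj) (Dst_ge n) hlev hC
    (fun y hy => shell_le hR hW.nonneg hjk (by omega) y hy)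
  rw [sum_addC] at hB
  have hf0 : 0 ≤ ∑ x, f x := Finset.sum_nonneg fun x _ => hW.nonneg x
  have hM : (0 : ℝ) ≤ C.card := Nat.cast_nonneg _
  have h3 := main_ineq (m := n.choose j * H j) (S := Sk C k) (M := C.card) (B := ∑ x, f x)
    hnpos hc0 (by ring) (n.choose k : ℝ) hch hM hf0 hB
  have h4 : ∑ x, f x ≤ pw n (1 / 2 + ε / 4) := hsum.trans (pw_mono n (by linarith))
  have hS := Sk_nonneg C k
  have hexp : Real.exp (ε / 4 * Real.log 2 * n) = pw n (ε / 4) := (pw_exp n _).symm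
  rw [hexp] at hE
  have hxk : 0 < x ^ k := pow_pos hxpos k
  have hp1 := pw_pos n (ε / 4)
  have hp2 := pw_pos n (1 / 2 + ε / 4)
  have h5 : 2 / c * ((n : ℝ) + 1) ≤ pw n (ε / 2) := hn3 n (by omega)
  calc Sk C k * ‖Es (x : ℂ)‖ ^ n
      ≤ Sk C k * (x ^ k * pw n (ε / 4) * (n.choose j * H j)) := mul_le_mul_of_nonneg_left hE hS
    _ = x ^ k * pw n (ε / 4) * ((n.choose j * H j) * Sk C k) := by ring
    _ ≤ x ^ k * pw n (ε / 4) * (2 / c * (n + 1) * (C.card * (∑ x, f x) * n.choose k)) :=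
        mul_le_mul_of_nonneg_left h3 (by positivity)
    _ ≤ x ^ k * pw n (ε / 4) * (pw n (ε / 2) * (C.card * pw n (1 / 2 + ε / 4) * n.choose k)) := by
        apply mul_le_mul_of_nonneg_left _ (by positivity)
        apply mul_le_mul h5 _ (by positivity) (pw_pos n _).le
        apply mul_le_mul_of_nonneg_right _ hch.le
        exact mul_le_mul_of_nonneg_left h4 hM
    _ = C.card * (pw n (ε / 4) * pw n (ε / 2) * pw n (1 / 2 + ε / 4)) * x ^ k * n.choose k := by ring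
    _ = C.card * pw n (1 / 2 + ε) * x ^ k * n.choose k := by
        rw [← pw_add, ← pw_add]
        congr 4
        ring

end Pool.Agent.Lib.MP_0430e4_lc.BY
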