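import Mathlib

/-!
# BLOCK H of BEYOND: two general facts on holomorphic functions (helper84)

* `half_max`: the maximum principle in the half disc with the majorant `2 z / (1 + z ^ 2)`;
* `rot_bound`: the rotation trick (two constants theorem on an arc);
* `touch`: a function bounded by `1` on the half disc which is small near `x0` is small near `0`
  with an exponent linear in the distance.
-/

set_option autoImplicit false

namespace Pool.Agent.Lib.MP_0430e4_lc.BY

open Complex Metric Set Filter Topology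

/-- the majorant -/
noncomputable def mj (z : ℂ) : ℂ := 2 * z / (1 + z ^ 2)

theorem mj_re (z : ℂ) : (mj z).re = 2 * z.re * (1 + ‖z‖ ^ 2) / Complex.normSq (1 + z ^ 2) := by
  unfold mj
  rw [Complex.div_re, ← Complex.normSq_eq_norm_sq, Complex.normSq_apply z]
  simp only [Complex.mul_re, Complex.re_ofNat, Complex.im_ofNat, zero_mul, sub_zero, Complex.mul_im,
    add_zero, Complex.add_re, Complex.one_re, Complex.add_im, Complex.one_im, zero_add, pow_two]
  ring

theorem mj_re_nonneg {z : ℂ} (hz : 0 ≤ z.re) : 0 ≤ (mj z).re := by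
  rw [mj_re]
  apply div_nonneg _ (Complex.normSq_nonneg _)
  positivity

theorem mj_re_zero {z : ℂ} (hz : z.re = 0) : (mj z).re = 0 := by
  rw [mj_re, hz]; simp

theorem one_le_mj_re {z : ℂ} (hz : ‖z‖ = 1) (hre : 0 < z.re) : 1 ≤ (mj z).re := by
  rw [mj_re, hz]
  have h1 : Complex.normSq (1 + z ^ 2) = (2 * z.re) ^ 2 := by
    have h2 : z.re ^ 2 + z.im ^ 2 = 1 := by
      have h3 := Complex.normSq_eq_norm_sq z
      rw [hz, Complex.normSq_apply] at h3
      nlinarith
    rw [Complex.normSq_apply]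
    simp only [Complex.add_re, Complex.one_re, Complex.add_im, Complex.one_im, zero_add, pow_two,
      Complex.mul_re, Complex.mul_im]
    nlinarith
  rw [h1]
  have h4 : z.re ≤ 1 := by
    have := Complex.re_le_norm z
    rwa [hz] at this
  rw [le_div_iff₀ (by positivity)]
  nlinarith

theorem one_add_sq_ne {z : ℂ} (hz : ‖z‖ < 1) : 1 + z ^ 2 ≠ 0 := by
  intro h
  have h1 : z ^ 2 = -1 := by linear_combination h
  have h2 : ‖z‖ ^ 2 = 1 := by
    rw [← norm_pow, h1]; simp
  nlinarith [norm_nonneg z]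

theorem norm_one_add_sq_le {z : ℂ} (hz : ‖z‖ ≤ 1) : ‖1 + z ^ 2‖ ≤ 2 := by
  calc ‖1 + z ^ 2‖ ≤ ‖(1 : ℂ)‖ + ‖z ^ 2‖ := norm_add_le _ _
    _ ≤ 1 + 1 := by
      rw [norm_one, norm_pow]
      exact add_le_add le_rfl (pow_le_one₀ (norm_nonneg _) hz)
    _ = 2 := by norm_num

/-- the open half disc -/
def HD : Set ℂ := {z | ‖z‖ < 1 ∧ 0 < z.re}

theorem isOpen_HD : IsOpen HD :=
  (isOpen_lt continuous_norm continuous_const).inter (isOpen_lt continuous_const Complex.continuous_re)

theorem closure_HD : closure HD ⊆ {z | ‖z‖ ≤ 1 ∧ 0 ≤ z.re} := by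
  apply closure_minimal
  · intro z hz
    exact ⟨hz.1.le, hz.2.le⟩
  · exact (isClosed_le continuous_norm continuous_const).inter
      (isClosed_le continuous_const Complex.continuous_re)

theorem frontier_HD {z : ℂ} (hz : z ∈ frontier HD) :
    (z.re = 0 ∧ ‖z‖ ≤ 1) ∨ (‖z‖ = 1 ∧ 0 < z.re) := by
  rw [isOpen_HD.frontier_eq] at hz
  obtain ⟨h1, h2⟩ := hz
  obtain ⟨h3, h4⟩ := closure_HD h1
  rcases h4.eq_or_lt with h5 | h5
  · left; exact ⟨h5.symm, h3⟩
  · right
    refine ⟨le_antisymm h3 ?_, h5⟩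
    by_contra h6
    exact h2 ⟨not_le.mp h6, h5⟩

/-- **Maximum principle in the half disc.** -/
theorem half_max {g : ℂ → ℂ} {a : ℝ} (ha : 0 ≤ a) (hd : DiffContOnCl ℂ g (ball 0 1))
    (h0 : ∀ z : ℂ, ‖z‖ ≤ 1 → z.re = 0 → ‖g z‖ ≤ 1)
    (h1 : ∀ z : ℂ, ‖z‖ = 1 → 0 ≤ z.re → ‖g z‖ ≤ Real.exp a)
    {z : ℂ} (hz : ‖z‖ < 1) (hre : 0 ≤ z.re) :
    ‖g z‖ ≤ Real.exp (a * (mj z).re) := by
  rcases hre.eq_or_lt with h | hre
  · rw [mj_re_zero h.symm, mul_zero, Real.exp_zero]
    exact h0 z hz.le h.symm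
  have hcb : closure (ball (0 : ℂ) 1) = closedBall 0 1 := closure_ball 0 one_ne_zero
  have hcont : ContinuousOn g (closedBall 0 1) := by
    have := hd.continuousOn
    rwa [hcb] at this
  obtain ⟨M, hM⟩ := (isCompact_closedBall (0 : ℂ) 1).exists_bound_of_continuousOn hcont
  have key : ∀ N : ℕ, ‖g z‖ ^ N * Real.exp (-(N * (a * (mj z).re))) * ‖1 + z ^ 2‖ ≤ 2 := by
    intro N
    set f : ℂ → ℂ := fun z => g z ^ N * Complex.exp (-(((N * a : ℝ) : ℂ) * mj z)) * (1 + z ^ 2) with hf
    have hnf : ∀ w : ℂ, ‖f w‖ = ‖g w‖ ^ N * Real.exp (-(N * (a * (mj w).re))) * ‖1 + w ^ 2‖ := by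
      intro w
      rw [hf]
      simp only [norm_mul, norm_pow, Complex.norm_exp, Complex.neg_re, Complex.re_ofReal_mul]
      congr 4
      ring
    have hexp : ∀ w : ℂ, 0 ≤ w.re → Real.exp (-(N * (a * (mj w).re))) ≤ 1 := by
      intro w hw
      rw [Real.exp_le_one_iff]
      have := mj_re_nonneg hw
      have : 0 ≤ (N : ℝ) * (a * (mj w).re) := by positivity
      linarith
    have hU : Bornology.IsBounded HD := by
      refine (Metric.isBounded_ball (x := (0 : ℂ)) (r := 1)).subset ?_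
      intro w hw
      rw [mem_ball_zero_iff]; exact hw.1
    have hdf : DiffContOnCl ℂ f HD := by
      constructor
      · intro w hw
        have hw1 : w ∈ ball (0 : ℂ) 1 := by rw [mem_ball_zero_iff]; exact hw.1
        have hgd : DifferentiableAt ℂ g w :=
          (hd.differentiableOn w hw1).differentiableAt (isOpen_ball.mem_nhds hw1)
        have hne := one_add_sq_ne hw.1
        apply DifferentiableAt.differentiableWithinAt
        have hmj : DifferentiableAt ℂ mj w := by
          unfold mj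
          exact ((differentiableAt_id.const_mul 2)).div ((differentiableAt_const _).add
            (differentiableAt_id.pow 2)) hne
        exact ((hgd.pow N).mul ((hmj.const_mul _).neg.cexp)).mul
          ((differentiableAt_const _).add (differentiableAt_id.pow 2))
      · intro w hw
        obtain ⟨hw1, hw2⟩ := closure_HD hw
        have hwb : w ∈ closedBall (0 : ℂ) 1 := by rw [mem_closedBall_zero_iff]; exact hw1
        have hsub : closure HD ⊆ closedBall (0 : ℂ) 1 := by
          intro v hv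
          rw [mem_closedBall_zero_iff]; exact (closure_HD hv).1
        have hgc : ContinuousWithinAt g (closure HD) w := (hcont w hwb).mono hsub
        by_cases hne : 1 + w ^ 2 = 0
        · have hfw : f w = 0 := by rw [hf]; simp only [hne, mul_zero]
          rw [ContinuousWithinAt, hfw]
          apply squeeze_zero_norm' (a := fun v => (max M 1) ^ N * ‖1 + v ^ 2‖)
          · filter_upwards [self_mem_nhdsWithin] with v hv
            rw [hnf]
            have h2 := closure_HD hv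
            apply mul_le_mul_of_nonneg_right _ (norm_nonneg _)
            have h3 : ‖g v‖ ≤ max M 1 := (hM v (hsub hv)).trans (le_max_left _ _)
            calc ‖g v‖ ^ N * Real.exp (-(N * (a * (mj v).re))) ≤ ‖g v‖ ^ N * 1 :=
                  mul_le_mul_of_nonneg_left (hexp v h2.2) (by positivity)
              _ = ‖g v‖ ^ N := mul_one _
              _ ≤ (max M 1) ^ N := pow_le_pow_left₀ (norm_nonneg _) h3 N
          · have h4 : Tendsto (fun v : ℂ => (max M 1) ^ N * ‖1 + v ^ 2‖) (𝓝 w)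
                (𝓝 ((max M 1) ^ N * ‖1 + w ^ 2‖)) := by
              apply Continuous.tendsto
              fun_prop
            rw [hne, norm_zero, mul_zero] at h4
            exact h4.mono_left nhdsWithin_le_nhds
        · have hmj : ContinuousWithinAt mj (closure HD) w := by
            unfold mj
            apply ContinuousAt.continuousWithinAt
            exact (continuousAt_const.mul continuousAt_id).div
              (continuousAt_const.add (continuousAt_id.pow 2)) hne
          exact ((hgc.pow N).mul ((continuousWithinAt_const.mul hmj).neg.cexp)).mul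
            (continuousWithinAt_const.add (continuousWithinAt_id.pow 2))
    have hfr : ∀ w ∈ frontier HD, ‖f w‖ ≤ 2 := by
      intro w hw
      rw [hnf]
      rcases frontier_HD hw with ⟨h2, h3⟩ | ⟨h2, h3⟩
      · rw [mj_re_zero h2, mul_zero, mul_zero, neg_zero, Real.exp_zero, mul_one]
        have h4 := h0 w h3 h2
        calc ‖g w‖ ^ N * ‖1 + w ^ 2‖ ≤ 1 * 2 :=
              mul_le_mul (pow_le_one₀ (norm_nonneg _) h4) (norm_one_add_sq_le h3) (norm_nonneg _)
                zero_le_one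
          _ = 2 := by norm_num
      · have h4 := h1 w h2 h3.le
        have h5 := one_le_mj_re h2 h3
        have h6 : ‖g w‖ ^ N * Real.exp (-(N * (a * (mj w).re))) ≤ 1 := by
          calc ‖g w‖ ^ N * Real.exp (-(N * (a * (mj w).re)))
              ≤ Real.exp a ^ N * Real.exp (-(N * (a * (mj w).re))) :=
                mul_le_mul_of_nonneg_right (pow_le_pow_left₀ (norm_nonneg _) h4 N) (Real.exp_pos _).le
            _ = Real.exp (N * a + -(N * (a * (mj w).re))) := by
                rw [← Real.exp_nat_mul, ← Real.exp_add]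
            _ ≤ 1 := by
                rw [Real.exp_le_one_iff]
                have h7 : 0 ≤ (N : ℝ) * a := by positivity
                nlinarith
        calc ‖g w‖ ^ N * Real.exp (-(N * (a * (mj w).re))) * ‖1 + w ^ 2‖ ≤ 1 * 2 :=
              mul_le_mul h6 (norm_one_add_sq_le h2.le) (norm_nonneg _) zero_le_one
          _ = 2 := by norm_num
    have h8 := Complex.norm_le_of_forall_mem_frontier_norm_le hU hdf hfr
      (subset_closure (show z ∈ HD from ⟨hz, hre⟩))
    rwa [hnf] at h8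
  by_contra hcon
  push Not at hcon
  have hx : 1 < ‖g z‖ * Real.exp (-(a * (mj z).re)) := by
    rw [Real.exp_neg, ← div_eq_mul_inv, one_lt_div (Real.exp_pos _)]
    exact hcon
  have hpos : 0 < ‖1 + z ^ 2‖ := norm_pos_iff.mpr (one_add_sq_ne hz)
  obtain ⟨N, hN⟩ := pow_unbounded_of_one_lt (2 / ‖1 + z ^ 2‖) hx
  have h9 := key N
  rw [div_lt_iff₀ hpos] at hN
  have h10 : (‖g z‖ * Real.exp (-(a * (mj z).re))) ^ N =
      ‖g z‖ ^ N * Real.exp (-(N * (a * (mj z).re))) := by
    rw [mul_pow, ← Real.exp_nat_mul]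
    congr 2
    ring
  rw [h10] at hN
  linarith

theorem exists_rot {z : ℂ} (hz : ‖z‖ = 1) {m : ℕ} (hm : 1 ≤ m) :
    ∃ j ∈ Finset.range m, ‖Complex.exp (2 * Real.pi * I / m) ^ j * z - 1‖ ≤ Real.pi / m := by
  have hm0 : (0 : ℝ) < m := by exact_mod_cast hm
  set θ : ℝ := Complex.arg z with hθ
  set r : ℤ := round (-(θ * m / (2 * Real.pi))) with hr
  have h1 := abs_sub_round (-(θ * m / (2 * Real.pi)))
  rw [← hr] at h1
  have hmod0 : 0 ≤ r % (m : ℤ) := Int.emod_nonneg _ (by omega)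
  have hmod1 : r % (m : ℤ) < m := Int.emod_lt_of_pos _ (by omega)
  refine ⟨(r % (m : ℤ)).toNat, ?_, ?_⟩
  · rw [Finset.mem_range]; omega
  · have h2 : Complex.exp (2 * Real.pi * I / m) ^ (r % (m : ℤ)).toNat =
        Complex.exp (((2 * Real.pi * r / m : ℝ) : ℂ) * I) := by
      rw [← Complex.exp_nat_mul, Complex.exp_eq_exp_iff_exists_int]
      refine ⟨-(r / (m : ℤ)), ?_⟩
      have h3 : (((r % (m : ℤ)).toNat : ℕ) : ℂ) = (r : ℂ) - m * ((r / (m : ℤ) : ℤ) : ℂ) := by
        have h4 : (((r % (m : ℤ)).toNat : ℕ) : ℤ) = r - m * (r / (m : ℤ)) := by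
          rw [Int.toNat_of_nonneg hmod0, Int.emod_def]
        have h5 : ((((r % (m : ℤ)).toNat : ℕ) : ℤ) : ℂ) = ((r - m * (r / (m : ℤ)) : ℤ) : ℂ) := by
          rw [h4]
        push_cast at h5 ⊢
        exact h5
      rw [h3]
      have hm' : (m : ℂ) ≠ 0 := by exact_mod_cast hm0.ne'
      push_cast
      field_simp
      ring
    have h6 : z = Complex.exp ((θ : ℂ) * I) := by
      have := Complex.norm_mul_exp_arg_mul_I z
      rw [hz, Complex.ofReal_one, one_mul] at this
      exact this.symm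
    rw [h2]
    nth_rewrite 1 [h6]
    rw [← Complex.exp_add]
    have h7 : ((2 * Real.pi * r / m : ℝ) : ℂ) * I + (θ : ℂ) * I =
        I * ((2 * Real.pi * r / m + θ : ℝ) : ℂ) := by
      push_cast; ring
    rw [h7]
    refine (Real.norm_exp_I_mul_ofReal_sub_one_le).trans ?_
    rw [Real.norm_eq_abs]
    have h8 : 2 * Real.pi * r / m + θ = -(2 * Real.pi / m) * (-(θ * m / (2 * Real.pi)) - r) := by
      have := Real.pi_pos
      field_simp
      ring
    rw [h8, abs_mul, abs_neg, abs_of_pos (by positivity)]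
    calc 2 * Real.pi / m * |-(θ * m / (2 * Real.pi)) - r| ≤ 2 * Real.pi / m * (1 / 2) :=
          mul_le_mul_of_nonneg_left h1 (by positivity)
      _ = Real.pi / m := by ring

/-- **The rotation trick.** -/
theorem rot_bound {g : ℂ → ℂ} (hd : DiffContOnCl ℂ g (ball 0 1))
    (h1 : ∀ z : ℂ, ‖z‖ = 1 → ‖g z‖ ≤ 1) {α q : ℝ}
    (hq : ∀ z : ℂ, ‖z‖ = 1 → ‖z - 1‖ ≤ α → ‖g z‖ ≤ q) {m : ℕ} (hm : 1 ≤ m)
    (hmα : Real.pi / m ≤ α) : ‖g 0‖ ^ m ≤ q := by
  set ω : ℂ := Complex.exp (2 * Real.pi * I / m) with hω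
  have hωn : ‖ω‖ = 1 := by
    rw [hω, Complex.norm_exp]
    have h2 : (2 * Real.pi * I / m : ℂ) = ((2 * Real.pi / m : ℝ) : ℂ) * I := by push_cast; ring
    rw [h2, Complex.re_ofReal_mul, Complex.I_re, mul_zero, Real.exp_zero]
  have hrot : ∀ j : ℕ, ∀ z : ℂ, ‖ω ^ j * z‖ = ‖z‖ := by
    intro j z
    rw [norm_mul, norm_pow, hωn, one_pow, one_mul]
  have hcb : closure (ball (0 : ℂ) 1) = closedBall 0 1 := closure_ball 0 one_ne_zero
  have hcont : ContinuousOn g (closedBall 0 1) := by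
    have := hd.continuousOn
    rwa [hcb] at this
  set F : ℂ → ℂ := fun z => ∏ j ∈ Finset.range m, g (ω ^ j * z) with hF
  have hdF : DiffContOnCl ℂ F (ball 0 1) := by
    constructor
    · rw [hF]
      apply DifferentiableOn.fun_finsetProd
      intro j _
      apply hd.differentiableOn.comp (differentiableOn_id.const_mul _)
      intro z hz
      rw [mem_ball_zero_iff] at hz ⊢
      exact (hrot j z).trans_lt hz
    · rw [hcb, hF]
      apply continuousOn_finsetProd
      intro j _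
      apply hcont.comp (continuousOn_const.mul continuousOn_id)
      intro z hz
      rw [mem_closedBall_zero_iff] at hz ⊢
      exact (hrot j z).trans_le hz
  have hfr : ∀ z ∈ frontier (ball (0 : ℂ) 1), ‖F z‖ ≤ q := by
    intro z hz
    rw [frontier_ball 0 one_ne_zero, mem_sphere_zero_iff_norm] at hz
    obtain ⟨j, hj, hj2⟩ := exists_rot hz hm
    rw [hF]
    simp only [norm_prod]
    rw [← Finset.mul_prod_erase _ _ hj]
    have h3 : ‖g (ω ^ j * z)‖ ≤ q := hq _ (by rw [hrot, hz]) (hj2.trans hmα)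
    have h4 : ∏ i ∈ (Finset.range m).erase j, ‖g (ω ^ i * z)‖ ≤ 1 := by
      apply Finset.prod_le_one
      · intro i _; exact norm_nonneg _
      · intro i _; exact h1 _ (by rw [hrot, hz])
    calc ‖g (ω ^ j * z)‖ * ∏ i ∈ (Finset.range m).erase j, ‖g (ω ^ i * z)‖
        ≤ ‖g (ω ^ j * z)‖ * 1 := mul_le_mul_of_nonneg_left h4 (norm_nonneg _)
      _ ≤ q := by rw [mul_one]; exact h3
  have h5 := Complex.norm_le_of_forall_mem_frontier_norm_le isBounded_ball hdF hfr
    (subset_closure (mem_ball_self one_pos))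
  have h6 : F 0 = g 0 ^ m := by
    rw [hF]
    simp only [mul_zero, Finset.prod_const, Finset.card_range]
  rwa [h6, norm_pow] at h5

/-- A function bounded by one in the half disc and by `q` near `x0` (inside `‖z‖ ≤ x0`). -/
theorem touch {G : ℂ → ℂ} (hd : DifferentiableOn ℂ G (ball 0 1))
    (h1 : ∀ z : ℂ, ‖z‖ < 1 → 0 ≤ z.re → ‖G z‖ ≤ 1) {x0 ρ q : ℝ} (hx0 : 0 < x0) (hx1 : x0 < 1)
    (hq : ∀ z : ℂ, ‖z‖ ≤ x0 → 0 ≤ z.re → ‖z - x0‖ ≤ ρ → ‖G z‖ ≤ q) {r : ℝ} (hr : 0 < r)
    (hr2 : 2 * r ≤ x0) {m : ℕ} (hm : 1 ≤ m) (hmr : Real.pi / m ≤ r * ρ) : ‖G (r : ℂ)‖ ^ m ≤ q := by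
  set s : ℝ := 1 - 2 * r / x0 with hs
  have hs0 : 0 ≤ s := by
    rw [hs, sub_nonneg, div_le_one hx0]; exact hr2
  have hs1 : 0 < 1 - s := by
    rw [hs]
    have : 0 < 2 * r / x0 := by positivity
    linarith
  have hρ : 0 ≤ ρ := by
    have h2 : 0 < Real.pi / m := by
      have := Real.pi_pos
      have hm0 : (0 : ℝ) < m := by exact_mod_cast hm
      positivity
    have h3 : 0 < r * ρ := lt_of_lt_of_le h2 hmr
    by_contra h4
    push Not at h4
    nlinarith
  have hlow : ∀ t : ℂ, ‖t‖ ≤ 1 → 1 - s ≤ ‖1 - s * t‖ := by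
    intro t ht
    have h2 : ‖(s : ℂ) * t‖ ≤ s := by
      rw [norm_mul, Complex.norm_real, Real.norm_eq_abs, abs_of_nonneg hs0]
      nlinarith [norm_nonneg t]
    have h3 := norm_sub_norm_le (1 : ℂ) (s * t)
    rw [norm_one] at h3
    linarith
  have hne : ∀ t : ℂ, ‖t‖ ≤ 1 → 1 - s * t ≠ 0 := by
    intro t ht h
    have := hlow t ht
    rw [h, norm_zero] at this
    linarith
  set φ : ℂ → ℂ := fun t => r * (1 + t) / (1 - s * t) with hφ
  have hsx : (x0 / 2) * s = x0 / 2 - r := by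
    rw [hs]; field_simp
  have hsxC : ((x0 : ℂ) / 2) * s = x0 / 2 - r := by
    have : ((x0 / 2 * s : ℝ) : ℂ) = ((x0 / 2 - r : ℝ) : ℂ) := by rw [hsx]
    push_cast at this
    exact this
  have hc : ∀ t : ℂ, ‖t‖ ≤ 1 → φ t - x0 / 2 = x0 / 2 * ((t - s) / (1 - s * t)) := by
    intro t ht
    have h2 := hne t ht
    have h3 : φ t * (1 - s * t) = r * (1 + t) := div_mul_cancel₀ _ h2
    have h4 : (t - s) / (1 - s * t) * (1 - s * t) = t - s := div_mul_cancel₀ _ h2
    apply mul_right_cancel₀ h2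
    linear_combination h3 - (x0 : ℂ) / 2 * h4 + (1 + t) * hsxC
  have hx : ∀ t : ℂ, ‖t‖ ≤ 1 → φ t - x0 = (x0 - r) * ((t - 1) / (1 - s * t)) := by
    intro t ht
    have h2 := hne t ht
    have h3 : φ t * (1 - s * t) = r * (1 + t) := div_mul_cancel₀ _ h2
    have h4 : (t - 1) / (1 - s * t) * (1 - s * t) = t - 1 := div_mul_cancel₀ _ h2
    apply mul_right_cancel₀ h2
    linear_combination h3 - ((x0 : ℂ) - r) * h4 + (2 * t) * hsxC
  have hmob : ∀ t : ℂ, ‖t‖ ≤ 1 → ‖(t - s) / (1 - s * t)‖ ≤ 1 := by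
    intro t ht
    rw [norm_div, div_le_one (norm_pos_iff.mpr (hne t ht))]
    rw [← sq_le_sq₀ (norm_nonneg _) (norm_nonneg _), ← Complex.normSq_eq_norm_sq,
      ← Complex.normSq_eq_norm_sq, Complex.normSq_apply, Complex.normSq_apply]
    have h2 : t.re ^ 2 + t.im ^ 2 ≤ 1 := by
      have h3 := Complex.normSq_eq_norm_sq t
      rw [Complex.normSq_apply] at h3
      nlinarith [norm_nonneg t]
    simp only [Complex.sub_re, Complex.ofReal_re, Complex.sub_im, Complex.ofReal_im, sub_zero,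
      Complex.one_re, Complex.mul_re, zero_mul, Complex.one_im, Complex.mul_im, add_zero, zero_sub]
    have h4 : 0 ≤ (1 - s ^ 2) * (1 - (t.re ^ 2 + t.im ^ 2)) := by
      apply mul_nonneg _ (by linarith)
      nlinarith
    nlinarith
  have hcen : ∀ t : ℂ, ‖t‖ ≤ 1 → ‖φ t - x0 / 2‖ ≤ x0 / 2 := by
    intro t ht
    rw [hc t ht, norm_mul]
    have h2 : ‖(x0 : ℂ) / 2‖ = x0 / 2 := by
      rw [norm_div, Complex.norm_real, Real.norm_eq_abs, abs_of_pos hx0]
      norm_num
    rw [h2]
    calc x0 / 2 * ‖(t - s) / (1 - s * t)‖ ≤ x0 / 2 * 1 :=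
          mul_le_mul_of_nonneg_left (hmob t ht) (by positivity)
      _ = x0 / 2 := mul_one _
  have hnorm : ∀ t : ℂ, ‖t‖ ≤ 1 → ‖φ t‖ ≤ x0 := by
    intro t ht
    have h2 := hcen t ht
    have h3 : ‖(x0 : ℂ) / 2‖ = x0 / 2 := by
      rw [norm_div, Complex.norm_real, Real.norm_eq_abs, abs_of_pos hx0]
      norm_num
    calc ‖φ t‖ = ‖(φ t - x0 / 2) + x0 / 2‖ := by rw [sub_add_cancel]
      _ ≤ ‖φ t - x0 / 2‖ + ‖(x0 : ℂ) / 2‖ := norm_add_le _ _
      _ ≤ x0 := by rw [h3]; linarith
  have hre : ∀ t : ℂ, ‖t‖ ≤ 1 → 0 ≤ (φ t).re := by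
    intro t ht
    have h2 := hcen t ht
    have h3 := (abs_le.mp (Complex.abs_re_le_norm (φ t - x0 / 2))).1
    have h4 : (φ t - x0 / 2).re = (φ t).re - x0 / 2 := by
      rw [Complex.sub_re]
      congr 1
      have : (x0 : ℂ) / 2 = ((x0 / 2 : ℝ) : ℂ) := by push_cast; ring
      rw [this, Complex.ofReal_re]
    rw [h4] at h3
    linarith
  have hφ0 : φ 0 = r := by rw [hφ]; simp
  have hdφ : ∀ t : ℂ, ‖t‖ ≤ 1 → DifferentiableAt ℂ φ t := by
    intro t ht
    rw [hφ]
    exact (((differentiableAt_const _).add differentiableAt_id).const_mul _).div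
      ((differentiableAt_const _).sub (differentiableAt_id.const_mul _)) (hne t ht)
  have hdG : ∀ t : ℂ, ‖t‖ ≤ 1 → DifferentiableAt ℂ (G ∘ φ) t := by
    intro t ht
    have h2 : φ t ∈ ball (0 : ℂ) 1 := by
      rw [mem_ball_zero_iff]
      exact lt_of_le_of_lt (hnorm t ht) hx1
    exact ((hd _ h2).differentiableAt (isOpen_ball.mem_nhds h2)).comp t (hdφ t ht)
  have hdc : DiffContOnCl ℂ (G ∘ φ) (ball 0 1) := by
    constructor
    · intro t ht
      rw [mem_ball_zero_iff] at ht
      exact (hdG t ht.le).differentiableWithinAt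
    · intro t ht
      rw [closure_ball 0 one_ne_zero, mem_closedBall_zero_iff] at ht
      exact (hdG t ht).continuousAt.continuousWithinAt
  have h5 := rot_bound hdc (α := r * ρ) (q := q) (fun t ht => ?_) (fun t ht ht2 => ?_) hm hmr
  · rwa [Function.comp, hφ0] at h5
  · exact h1 _ (lt_of_le_of_lt (hnorm t ht.le) hx1) (hre t ht.le)
  · refine hq _ (hnorm t ht.le) (hre t ht.le) ?_
    rw [hx t ht.le, norm_mul, norm_div]
    have h6 : ‖(x0 : ℂ) - r‖ = x0 - r := by
      rw [← Complex.ofReal_sub, Complex.norm_real, Real.norm_eq_abs, abs_of_nonneg (by linarith)]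
    rw [h6]
    have h7 := hlow t ht.le
    have h8 : 1 - s = 2 * r / x0 := by rw [hs]; ring
    have h9 : ‖t - 1‖ / ‖1 - s * t‖ ≤ r * ρ / (2 * r / x0) := by
      rw [← h8]
      exact div_le_div₀ (by positivity) ht2 hs1 h7
    calc (x0 - r) * (‖t - 1‖ / ‖1 - s * t‖) ≤ (x0 - r) * (r * ρ / (2 * r / x0)) :=
          mul_le_mul_of_nonneg_left h9 (by linarith)
      _ = (x0 - r) * x0 / 2 * ρ := by field_simp
      _ ≤ 1 * ρ := by
          apply mul_le_mul_of_nonneg_right _ hρ
          nlinarith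
      _ = ρ := one_mul _

end Pool.Agent.Lib.MP_0430e4_lc.BY
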