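import Pool.Agent.Lib.MP_0430e4_lc.BY.H.HAm
import Pool.Agent.Lib.MP_0430e4_lc.BY.H.High

/-!
# Block H: theorem HHigh
-/

set_option autoImplicit false

namespace Pool.Agent.Lib.MP_0430e4_lc.BY

theorem HHigh_holds : HHigh := HHigh_of_HA HA_holds

end Pool.Agent.Lib.MP_0430e4_lc.BY
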