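import Pool.Agent.Lib.MP_0430e4_lc.BY.H.HAm
import Pool.Agent.Lib.MP_0430e4_lc.BY.H.HHi
import Pool.Agent.Lib.MP_0430e4_lc.BY.H.HBm

/-!
# Block H of project BEYOND: `HA_holds`, `HB_holds`, `HHigh_holds` (import this file)
-/
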