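import Mathlib

/-!
# Block H: the Blaschke factor of the half disc

`bla b z = ((z-b)(1+bz))/((1-bz)(z+b))`, `0 < b < 1` real. PROOFS.
* on `z = i y`: `|z-b| = |z+b|`, `|1+bz| = |1-bz|`. On `|z| = r ≤ 1`, `Re z ≥ 0`: `|z-b| ≤ …`; it is enough to have
  the continuity bound `bla_arc`: `|bla b z| ≥ 1 - C (1-r)` on `|z| = r`, i.e. with
  `|z-b|²  = r² - 2bx + b²`, `|1-bz|² = 1 - 2bx + b² r²`, `|z+b|² = r² + 2bx + b²`, `|1+bz|² = 1 + 2bx + b² r²`: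
  `|z-b|²/|1-bz|² = 1 - (1-b²)(1-r²)/|1-bz|² ≥ 1 - (1-r²)(1+b)/(1-b)` and `|1+bz|²/|z+b|² = 1 + (1-b²)(1-r²)/|z+b|² ≥ 1`.
* real axis, `0 ≤ r ≤ b`: `|bla b r| = ((b-r)(1+br))/((1-br)(b+r))`, value 1 and derivative `-2(1-b²)/b` at `r = 0`.
* `bla_low`: on `|z-b| = ρ`: `|z - b| = ρ`, `|1+bz| ≥ 1`, `|1-bz| ≤ 2`, `|z+b| ≤ 2`, so `|bla| ≥ ρ/4`.
-/

set_option autoImplicit false

namespace Pool.Agent.Lib.MP_0430e4_lc.BY

noncomputable def bla (b : ℝ) (z : ℂ) : ℂ := ((z - b) * (1 + b * z)) / ((1 - b * z) * (z + b))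

private lemma bla_n1 (b : ℝ) (z : ℂ) : ‖z - b‖ ^ 2 = ‖z‖ ^ 2 - 2 * b * z.re + b ^ 2 := by
  rw [Complex.sq_norm, Complex.sq_norm, Complex.normSq_apply, Complex.normSq_apply]
  simp
  ring

private lemma bla_n2 (b : ℝ) (z : ℂ) : ‖1 + b * z‖ ^ 2 = 1 + 2 * b * z.re + b ^ 2 * ‖z‖ ^ 2 := by
  rw [Complex.sq_norm, Complex.sq_norm, Complex.normSq_apply, Complex.normSq_apply]
  simp
  ring

private lemma bla_n3 (b : ℝ) (z : ℂ) : ‖1 - b * z‖ ^ 2 = 1 - 2 * b * z.re + b ^ 2 * ‖z‖ ^ 2 := by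
  rw [Complex.sq_norm, Complex.sq_norm, Complex.normSq_apply, Complex.normSq_apply]
  simp
  ring

private lemma bla_n4 (b : ℝ) (z : ℂ) : ‖z + b‖ ^ 2 = ‖z‖ ^ 2 + 2 * b * z.re + b ^ 2 := by
  rw [Complex.sq_norm, Complex.sq_norm, Complex.normSq_apply, Complex.normSq_apply]
  simp
  ring

private lemma bla_sq (b : ℝ) (z : ℂ) : ‖bla b z‖ ^ 2 =
    ((‖z‖ ^ 2 - 2 * b * z.re + b ^ 2) * (1 + 2 * b * z.re + b ^ 2 * ‖z‖ ^ 2)) /
      ((1 - 2 * b * z.re + b ^ 2 * ‖z‖ ^ 2) * (‖z‖ ^ 2 + 2 * b * z.re + b ^ 2)) := by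
  unfold bla
  rw [norm_div, norm_mul, norm_mul, div_pow, mul_pow, mul_pow, bla_n1, bla_n2, bla_n3, bla_n4]

private lemma bla_re (z : ℂ) (hz : ‖z‖ ≤ 1) : z.re ≤ 1 :=
  le_trans (le_trans (le_abs_self _) (Complex.abs_re_le_norm z)) hz

private lemma bla_C {b : ℝ} (hb : 0 < b) (hb1 : b < 1) {z : ℂ} (hz : ‖z‖ ≤ 1) :
    1 - b ≤ ‖1 - b * z‖ := by
  have h1 : ‖(b : ℂ) * z‖ ≤ b := by
    rw [norm_mul, Complex.norm_real, Real.norm_eq_abs, abs_of_pos hb]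
    nlinarith [norm_nonneg z]
  have h2 : ‖(1 : ℂ)‖ - ‖(b : ℂ) * z‖ ≤ ‖1 - b * z‖ := norm_sub_norm_le _ _
  rw [norm_one] at h2
  linarith

theorem bla_imag {b : ℝ} (hb : 0 < b) (hb1 : b < 1) (y : ℝ) : ‖bla b ((y : ℂ) * Complex.I)‖ = 1 := by
  have h2 : ‖bla b ((y : ℂ) * Complex.I)‖ ^ 2 = 1 := by
    rw [bla_sq]
    have hre : ((y : ℂ) * Complex.I).re = 0 := by simp
    rw [hre]
    have hN : 0 ≤ ‖(y : ℂ) * Complex.I‖ ^ 2 := by positivity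
    set N := ‖(y : ℂ) * Complex.I‖ ^ 2 with hNdef
    have e1 : N - 2 * b * 0 + b ^ 2 = N + b ^ 2 := by ring
    have e2 : 1 + 2 * b * 0 + b ^ 2 * N = 1 + b ^ 2 * N := by ring
    have e3 : 1 - 2 * b * 0 + b ^ 2 * N = 1 + b ^ 2 * N := by ring
    have e4 : N + 2 * b * 0 + b ^ 2 = N + b ^ 2 := by ring
    rw [e1, e2, e3, e4]
    have f1 : 0 < N + b ^ 2 := by positivity
    have f2 : 0 < 1 + b ^ 2 * N := by positivity
    rw [mul_comm (1 + b ^ 2 * N) (N + b ^ 2)]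
    exact div_self (mul_pos f1 f2).ne'
  have h3 : (0 : ℝ) ≤ ‖bla b ((y : ℂ) * Complex.I)‖ := norm_nonneg _
  nlinarith [h2, h3]

theorem bla_arc {b : ℝ} (hb : 0 < b) (hb1 : b < 1) {z : ℂ} (hz : ‖z‖ ≤ 1) (h0 : 0 ≤ z.re)
    (hz0 : z ≠ 0) :
    1 - (1 - ‖z‖ ^ 2) * ((1 + b) / (1 - b)) ≤ ‖bla b z‖ ^ 2 := by
  rw [bla_sq]
  have hC := bla_C hb hb1 hz
  have hC2 : (1 - b) ^ 2 ≤ ‖1 - b * z‖ ^ 2 := by
    apply pow_le_pow_left₀ (by linarith) hC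
  rw [bla_n3] at hC2
  have hN0 : 0 < ‖z‖ ^ 2 := by
    have := norm_pos_iff.mpr hz0
    positivity
  have hN1 : ‖z‖ ^ 2 ≤ 1 := by
    have := norm_nonneg z
    nlinarith
  have hA0 : 0 ≤ ‖z‖ ^ 2 - 2 * b * z.re + b ^ 2 := by
    rw [← bla_n1]; positivity
  set N := ‖z‖ ^ 2 with hN
  set x := z.re with hx
  have hC0 : 0 < 1 - 2 * b * x + b ^ 2 * N := lt_of_lt_of_le (by nlinarith [sub_pos.mpr hb1]) hC2
  have hD0 : 0 < N + 2 * b * x + b ^ 2 := by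
    have : 0 ≤ 2 * b * x := by positivity
    nlinarith [pow_pos hb 2]
  have hb2 : 0 < 1 - b ^ 2 := by nlinarith
  have key1 : 1 - (1 - N) * ((1 + b) / (1 - b)) ≤
      (N - 2 * b * x + b ^ 2) / (1 - 2 * b * x + b ^ 2 * N) := by
    have e : (N - 2 * b * x + b ^ 2) / (1 - 2 * b * x + b ^ 2 * N) =
        1 - (1 - b ^ 2) * (1 - N) / (1 - 2 * b * x + b ^ 2 * N) := by
      rw [eq_sub_iff_add_eq, ← add_div, div_eq_one_iff_eq hC0.ne']
      ring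
    rw [e]
    have h1 : (1 - b ^ 2) * (1 - N) / (1 - 2 * b * x + b ^ 2 * N) ≤
        (1 - b ^ 2) * (1 - N) / (1 - b) ^ 2 := by
      apply div_le_div_of_nonneg_left _ (by nlinarith [sub_pos.mpr hb1]) hC2
      exact mul_nonneg hb2.le (by linarith)
    have h2 : (1 - b ^ 2) * (1 - N) / (1 - b) ^ 2 = (1 - N) * ((1 + b) / (1 - b)) := by
      have : (1 - b) ≠ 0 := by linarith
      field_simp
      ring
    linarith
  have key2 : 1 ≤ (1 + 2 * b * x + b ^ 2 * N) / (N + 2 * b * x + b ^ 2) := by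
    rw [le_div_iff₀ hD0]
    nlinarith [mul_nonneg hb2.le (by linarith : (0 : ℝ) ≤ 1 - N)]
  have hQ : 0 ≤ (N - 2 * b * x + b ^ 2) / (1 - 2 * b * x + b ^ 2 * N) := div_nonneg hA0 hC0.le
  rw [mul_div_mul_comm]
  calc 1 - (1 - N) * ((1 + b) / (1 - b))
      ≤ (N - 2 * b * x + b ^ 2) / (1 - 2 * b * x + b ^ 2 * N) := key1
    _ = (N - 2 * b * x + b ^ 2) / (1 - 2 * b * x + b ^ 2 * N) * 1 := (mul_one _).symm
    _ ≤ _ := mul_le_mul_of_nonneg_left key2 hQ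

theorem bla_low {b ρ : ℝ} (hb : 0 < b) (hb1 : b < 1) {z : ℂ} (hz : ‖z‖ ≤ 1) (h0 : 0 ≤ z.re)
    (hρ : ‖z - b‖ = ρ) : ρ / 4 ≤ ‖bla b z‖ := by
  have hC := bla_C hb hb1 hz
  have hC' : ‖1 - b * z‖ ≤ 2 := by
    have h1 : ‖(b : ℂ) * z‖ ≤ 1 := by
      rw [norm_mul, Complex.norm_real, Real.norm_eq_abs, abs_of_pos hb]
      nlinarith [norm_nonneg z]
    have h2 := norm_sub_le (1 : ℂ) (b * z)
    rw [norm_one] at h2
    linarith
  have hD' : ‖z + b‖ ≤ 2 := by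
    have h2 := norm_add_le z (b : ℂ)
    rw [Complex.norm_real, Real.norm_eq_abs, abs_of_pos hb] at h2
    linarith
  have hD0 : 0 < ‖z + b‖ := by
    have h1 : (z + b).re ≤ ‖z + b‖ := le_trans (le_abs_self _) (Complex.abs_re_le_norm _)
    have h2 : (z + b).re = z.re + b := by simp
    linarith
  have hB : 1 ≤ ‖1 + b * z‖ := by
    have h1 : (1 + b * z).re ≤ ‖1 + b * z‖ := le_trans (le_abs_self _) (Complex.abs_re_le_norm _)
    have h2 : (1 + b * z).re = 1 + b * z.re := by simp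
    have h3 : 0 ≤ b * z.re := by positivity
    linarith
  have hρ0 : 0 ≤ ρ := by rw [← hρ]; positivity
  unfold bla
  rw [norm_div, norm_mul, norm_mul, hρ]
  have hC0 : 0 < ‖1 - b * z‖ := lt_of_lt_of_le (by linarith) hC
  rw [le_div_iff₀ (mul_pos hC0 hD0)]
  have h4 : ‖1 - b * z‖ * ‖z + b‖ ≤ 4 := by nlinarith
  calc ρ / 4 * (‖1 - b * z‖ * ‖z + b‖) ≤ ρ / 4 * 4 :=
        mul_le_mul_of_nonneg_left h4 (by positivity)
    _ = ρ * 1 := by ring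
    _ ≤ ρ * ‖1 + b * z‖ := mul_le_mul_of_nonneg_left hB hρ0

theorem bla_real {b r : ℝ} (hb : 0 < b) (hb1 : b < 1) (h0 : 0 ≤ r) (h1 : r ≤ b) :
    ‖bla b (r : ℂ)‖ = ((b - r) * (1 + b * r)) / ((1 - b * r) * (b + r)) := by
  unfold bla
  have h3 : 0 < 1 - b * r := by nlinarith
  have h4 : 0 < b + r := by linarith
  have h2 : 0 < 1 + b * r := by positivity
  have e1 : (((r : ℂ) - b) * (1 + b * r)) / ((1 - b * r) * (r + b)) =
      (((-((b - r) * (1 + b * r)) / ((1 - b * r) * (b + r)) : ℝ)) : ℂ) := by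
    push_cast
    ring
  rw [e1, Complex.norm_real, Real.norm_eq_abs, abs_div, abs_neg, abs_of_nonneg, abs_of_pos]
  · positivity
  · exact mul_nonneg (by linarith) h2.le

theorem bla_diff {b : ℝ} (hb : 0 < b) (hb1 : b < 1) {z : ℂ} (hz : ‖z‖ < 1) (h0 : 0 ≤ z.re) :
    DifferentiableAt ℂ (bla b) z ∧ (z ≠ b → bla b z ≠ 0) := by
  have hz' : ‖z‖ ≤ 1 := hz.le
  have hC := bla_C hb hb1 hz'
  have hC0 : (1 : ℂ) - b * z ≠ 0 := by
    intro h
    rw [h, norm_zero] at hC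
    linarith
  have hD0 : z + b ≠ 0 := by
    intro h
    have h2 : (z + b).re = z.re + b := by simp
    rw [h] at h2
    simp at h2
    linarith
  have hB0 : (1 : ℂ) + b * z ≠ 0 := by
    intro h
    have h2 : (1 + b * z).re = 1 + b * z.re := by simp
    rw [h] at h2
    simp at h2
    have h3 : 0 ≤ b * z.re := by positivity
    linarith
  constructor
  · unfold bla
    apply DifferentiableAt.div
    · fun_prop
    · fun_prop
    · exact mul_ne_zero hC0 hD0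
  · intro hzb
    unfold bla
    exact div_ne_zero (mul_ne_zero (sub_ne_zero.mpr hzb) hB0) (mul_ne_zero hC0 hD0)

/-- derivative of the real function at `0` -/
theorem bla_hasDerivAt {b : ℝ} (hb : 0 < b) (hb1 : b < 1) :
    HasDerivAt (fun r : ℝ => ((b - r) * (1 + b * r)) / ((1 - b * r) * (b + r)))
      (-(2 * (1 - b ^ 2) / b)) 0 := by
  have h1 : HasDerivAt (fun r : ℝ => (b - r) * (1 + b * r)) (b ^ 2 - 1) 0 := by
    have ha : HasDerivAt (fun r : ℝ => b - r) (-1) 0 := by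
      simpa using (hasDerivAt_id (0 : ℝ)).const_sub b
    have hc : HasDerivAt (fun r : ℝ => 1 + b * r) b 0 := by
      simpa using ((hasDerivAt_id (0 : ℝ)).const_mul b).const_add 1
    have h := ha.mul hc
    have e : b ^ 2 - 1 = -1 * (1 + b * 0) + (b - 0) * b := by ring
    rw [e]
    exact h
  have h2 : HasDerivAt (fun r : ℝ => (1 - b * r) * (b + r)) (1 - b ^ 2) 0 := by
    have ha : HasDerivAt (fun r : ℝ => 1 - b * r) (-b) 0 := by
      simpa using ((hasDerivAt_id (0 : ℝ)).const_mul b).const_sub 1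
    have hc : HasDerivAt (fun r : ℝ => b + r) 1 0 := by
      simpa using (hasDerivAt_id (0 : ℝ)).const_add b
    have h := ha.mul hc
    have e : 1 - b ^ 2 = -b * (b + 0) + (1 - b * 0) * 1 := by ring
    rw [e]
    exact h
  have h3 := h1.div h2 (by simpa using hb.ne')
  have e : -(2 * (1 - b ^ 2) / b) = ((b ^ 2 - 1) * ((1 - b * 0) * (b + 0)) -
      (b - 0) * (1 + b * 0) * (1 - b ^ 2)) / ((1 - b * 0) * (b + 0)) ^ 2 := by
    have : b ≠ 0 := hb.ne'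
    field_simp
    ring
  rw [e]
  exact h3

end Pool.Agent.Lib.MP_0430e4_lc.BY
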