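import Pool.Agent.Lib.MP_0430e4_lc.BY.P.Good
import Pool.Agent.Lib.MP_0430e4_lc.BY.E

/-!
# Block H of project BEYOND: definitions (helper26)

Certificates on words over `F_2`. A certificate of level `l` is `f ≥ 0` with nonnegative transform,
`f 0 = 1` and `l f(x) ≤ ∑ i, f(x + e_i)`. `mub` is the average over `v = 0..n` of the uniform
measures on the words of weight `v`.
-/

set_option autoImplicit false

open Finset

namespace Pool.Agent.Lib.MP_0430e4_lc.BY

variable {n : ℕ}

/-- Fourier transform -/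
noncomputable def hatW (f : Wd n → ℝ) (x : Wd n) : ℝ := ∑ y, f y * e x y

/-- the word with a single one in position `i` -/
def sing (i : Fin n) : Wd n := Pi.single i 1

/-- certificates of level `l` -/
structure WCert (l : ℝ) (f : Wd n → ℝ) : Prop where
  nonneg : ∀ x, 0 ≤ f x
  hat : ∀ x, 0 ≤ hatW f x
  adj : ∀ x, l * f x ≤ ∑ i, f (x + sing i)
  one : f 0 = 1

/-- radial functions -/
def RadF (f : Wd n → ℝ) (H : ℕ → ℝ) : Prop := ∀ x, f x = H (wt x)

/-- average of the uniform measures on the spheres -/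
noncomputable def mub (z : Wd n) : ℝ := 1 / (((n : ℝ) + 1) * (n.choose (wt z) : ℝ))

/-- mass polynomial -/
noncomputable def Pf (f : Wd n → ℝ) (z : ℂ) : ℂ := ∑ x, (f x : ℂ) * z ^ wt x

/-- mass polynomial on the real axis -/
noncomputable def Pfr (f : Wd n → ℝ) (r : ℝ) : ℝ := ∑ x, f x * r ^ wt x

end Pool.Agent.Lib.MP_0430e4_lc.BY
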