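import Pool.Agent.Lib.MP_0430e4_lc.BY.H.Defs

/-!
# Block H: the kernel `mub` moves weight `j` to every weight in `[j, n - j]`

PROOF of `path_count`. Let `wt x = j`, `j ≤ k ≤ n - j`. For a permutation `σ` of `Fin n` let
`z_v` be the word with ones at the positions `σ 0, …, σ (v-1)`. The weight of `x + z_v` is `j` for
`v = 0`, `n - j` for `v = n`, and changes by exactly `1` from `v` to `v + 1`; so it takes the value `k`
for some `v` (discrete intermediate value theorem). Hence for every `σ`
`1 ≤ ∑_{v ≤ n} [wt (x + z_v(σ)) = k]`. Sum over the `n!` permutations: every word of weight `v` is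
`z_v(σ)` for exactly `v! (n-v)! = n!/C(n,v)` permutations, so
`n! ≤ ∑_v (n!/C(n,v)) #{z : wt z = v, wt (x+z) = k}`.
(Alternative without permutations: induct on `n`, or use real times: the coordinate `i` flips at time
`u_i ∈ [0,1]`, `1/C(n,v) = (n+1) ∫ t^v (1-t)^(n-v)`.)
PROOF of `ker`. `K(x,k) := ∑_z mub z [wt (x+z) = k] ≥ 1/(n+1)` for `wt x = j` (path_count). Symmetry:
`∑_{wt y = k} ∑_z mub z [wt (y+z) = j] = ∑_{wt x = j} K(x,k) ≥ C(n,j)/(n+1)` and the inner sum on the left
depends only on `wt y` (permute coordinates: if `wt y = wt y'` there is `σ` with `y' = y ∘ σ`), so for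
every `y` of weight `k` it is `≥ C(n,j) / ((n+1) C(n,k))`. Multiply by `H j`.
-/

set_option autoImplicit false

open Finset

namespace Pool.Agent.Lib.MP_0430e4_lc.BY

variable {n : ℕ}

theorem mub_pos (z : Wd n) : 0 < mub z := by
  unfold mub
  have h1 : wt z ≤ n := by
    have := hammingNorm_le_card_fintype (x := z)
    simpa [wt] using this
  have h2 : (0 : ℝ) < (n.choose (wt z) : ℝ) := by exact_mod_cast Nat.choose_pos h1
  positivity

private theorem ker_wt_le (z : Wd n) : wt z ≤ n := by
  have := hammingNorm_le_card_fintype (x := z)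
  simpa [wt] using this

/-- the support -/
private def ker_supp (z : Wd n) : Finset (Fin n) := univ.filter (fun i => z i ≠ 0)

private theorem ker_card_supp (z : Wd n) : (ker_supp z).card = wt z := rfl

/-- the word of a finite set -/
private def ker_word (S : Finset (Fin n)) : Wd n := fun i => if i ∈ S then 1 else 0

private theorem ker_supp_word (S : Finset (Fin n)) : ker_supp (ker_word S) = S := by
  ext i
  simp only [ker_supp, ker_word, mem_filter, mem_univ, true_and]
  by_cases h : i ∈ S <;> simp [h]

private theorem ker_word_supp (z : Wd n) : ker_word (ker_supp z) = z := by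
  ext i
  simp only [ker_supp, ker_word, mem_filter, mem_univ, true_and]
  rcases z01 (z i) with h | h <;> simp [h]

private theorem ker_card_wt (v : ℕ) : (univ.filter (fun z : Wd n => wt z = v)).card = n.choose v := by
  have h1 : (univ.filter (fun z : Wd n => wt z = v)).card = ((univ : Finset (Fin n)).powersetCard v).card := by
    refine Finset.card_bij' (fun z _ => ker_supp z) (fun S _ => ker_word S) ?_ ?_ ?_ ?_
    · intro z hz
      rw [mem_filter] at hz
      rw [mem_powersetCard]
      exact ⟨subset_univ _, (ker_card_supp z).trans hz.2⟩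
    · intro S hS
      rw [mem_powersetCard] at hS
      rw [mem_filter]
      refine ⟨mem_univ _, ?_⟩
      rw [← ker_card_supp, ker_supp_word]
      exact hS.2
    · intro z _
      exact ker_word_supp z
    · intro S _
      exact ker_supp_word S
  rw [h1, card_powersetCard, card_univ, Fintype.card_fin]

theorem sum_mub : ∑ z : Wd n, mub z = 1 := by
  have h1 : ∑ z : Wd n, mub z = ∑ v ∈ range (n + 1), ∑ z ∈ univ.filter (fun z : Wd n => wt z = v), mub z := by
    rw [Finset.sum_fiberwise_of_maps_to]
    intro z _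
    rw [mem_range]
    exact Nat.lt_succ_of_le (ker_wt_le z)
  rw [h1]
  have h2 : ∀ v ∈ range (n + 1), ∑ z ∈ univ.filter (fun z : Wd n => wt z = v), mub z = 1 / ((n : ℝ) + 1) := by
    intro v hv
    rw [mem_range] at hv
    have hc : (0 : ℝ) < (n.choose v : ℝ) := by exact_mod_cast Nat.choose_pos (by omega)
    have h3 : ∀ z ∈ univ.filter (fun z : Wd n => wt z = v), mub z = 1 / (((n : ℝ) + 1) * (n.choose v : ℝ)) := by
      intro z hz
      rw [mem_filter] at hz
      unfold mub
      rw [hz.2]
    rw [sum_congr rfl h3, sum_const, nsmul_eq_mul, ker_card_wt]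
    field_simp
  rw [sum_congr rfl h2, sum_const, nsmul_eq_mul, card_range]
  push_cast
  field_simp

/-- the initial segments of a numbering -/
private def ker_z (f : Numbering (Fin n)) (v : ℕ) : Wd n := fun i => if (f i : ℕ) < v then 1 else 0

private theorem ker_z_step (f : Numbering (Fin n)) (x : Wd n) (v : ℕ) :
    wt (x + ker_z f (v + 1)) ≤ wt (x + ker_z f v) + 1 := by
  rw [← ker_card_supp, ← ker_card_supp]
  have h1 : ker_supp (x + ker_z f (v + 1)) ⊆ ker_supp (x + ker_z f v) ∪ univ.filter (fun i => (f i : ℕ) = v) := by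
    intro i hi
    simp only [ker_supp, mem_union, mem_filter, mem_univ, true_and, Pi.add_apply] at hi ⊢
    by_cases h : (f i : ℕ) = v
    · exact Or.inr h
    · left
      have h2 : ker_z f (v + 1) i = ker_z f v i := by
        unfold ker_z
        have h3 : (f i : ℕ) < v + 1 ↔ (f i : ℕ) < v := by omega
        simp only [h3]
      rwa [h2] at hi
  have h2 : (univ.filter (fun i : Fin n => (f i : ℕ) = v)).card ≤ 1 := by
    rw [card_le_one]
    intro a ha b hb
    rw [mem_filter] at ha hb
    exact f.injective (Fin.ext (ha.2.trans hb.2.symm))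
  exact (card_le_card h1).trans ((card_union_le _ _).trans (by omega))

private theorem ker_z_zero (f : Numbering (Fin n)) : ker_z f 0 = 0 := by
  ext i
  simp [ker_z]

private theorem ker_wt_compl (x : Wd n) (f : Numbering (Fin n)) : wt (x + ker_z f n) + wt x = n := by
  rw [← ker_card_supp, ← ker_card_supp]
  have h1 : ker_supp (x + ker_z f n) = univ.filter (fun i => ¬ (x i ≠ 0)) := by
    ext i
    simp only [ker_supp, mem_filter, mem_univ, true_and, Pi.add_apply, ker_z]
    have h2 : (f i : ℕ) < n := by
      have := (f i).2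
      simpa using this
    rw [if_pos h2]
    rcases z01 (x i) with h | h
    · simp [h]
    · rw [h, one_add_one']
      simp
  rw [h1]
  have h3 := card_filter_add_card_filter_not (s := (univ : Finset (Fin n))) (fun i => x i ≠ 0)
  rw [card_univ, Fintype.card_fin] at h3
  have h4 : (ker_supp x).card = (univ.filter (fun i => x i ≠ 0)).card := rfl
  omega

private theorem ker_ivt {j k : ℕ} {x : Wd n} (hx : wt x = j) (h1 : j ≤ k) (h2 : j + k ≤ n)
    (f : Numbering (Fin n)) : ∃ v ∈ range (n + 1), wt (x + ker_z f v) = k := by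
  classical
  have hex : ∃ v, v ≤ n ∧ k ≤ wt (x + ker_z f v) := by
    refine ⟨n, le_rfl, ?_⟩
    have := ker_wt_compl x f
    omega
  obtain ⟨v, ⟨hv1, hv2⟩, hmin⟩ := WellFounded.has_min wellFounded_lt {v | v ≤ n ∧ k ≤ wt (x + ker_z f v)} hex
  refine ⟨v, mem_range.mpr (by omega), ?_⟩
  rcases Nat.eq_zero_or_pos v with h0 | h0
  · subst h0
    rw [ker_z_zero, add_zero] at hv2 ⊢
    omega
  · obtain ⟨u, rfl⟩ := Nat.exists_eq_succ_of_ne_zero h0.ne'
    have h3 : ¬ (k ≤ wt (x + ker_z f u)) := by
      intro h4
      exact hmin u ⟨by omega, h4⟩ (Nat.lt_succ_self u)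
    have h4 := ker_z_step f x u
    have h5 : u.succ = u + 1 := rfl
    rw [h5] at hv2 ⊢
    omega

private theorem ker_prefix (f : Numbering (Fin n)) (z : Wd n) :
    f ∈ Numbering.prefixed (ker_supp z) ↔ ker_z f (wt z) = z := by
  rw [Numbering.mem_prefixed]
  unfold Numbering.IsPrefix
  rw [ker_card_supp]
  constructor
  · intro h
    ext i
    have h1 := h i
    simp only [ker_supp, mem_filter, mem_univ, true_and] at h1
    unfold ker_z
    rcases z01 (z i) with h2 | h2
    · have h3 : ¬ ((f i : ℕ) < wt z) := fun h4 => h1.mpr h4 h2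
      rw [if_neg h3, h2]
    · have h3 : (f i : ℕ) < wt z := h1.mp (by rw [h2]; exact one_ne_zero)
      rw [if_pos h3, h2]
  · intro h i
    simp only [ker_supp, mem_filter, mem_univ, true_and]
    have h1 := congrFun h i
    unfold ker_z at h1
    by_cases h2 : (f i : ℕ) < wt z
    · rw [if_pos h2] at h1
      rw [← h1]
      simp [h2]
    · rw [if_neg h2] at h1
      rw [← h1]
      simp [h2]

theorem path_count {j k : ℕ} {x : Wd n} (hx : wt x = j) (h1 : j ≤ k) (h2 : j + k ≤ n) :
    1 ≤ ∑ v ∈ range (n + 1),
      (((univ.filter (fun z : Wd n => wt z = v ∧ wt (x + z) = k)).card : ℝ) / n.choose v) := by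
  classical
  have hn : (0 : ℝ) < (n.factorial : ℝ) := by exact_mod_cast Nat.factorial_pos n
  have h3 : ∀ v ∈ range (n + 1), (((univ.filter (fun z : Wd n => wt z = v ∧ wt (x + z) = k)).card : ℝ) / n.choose v) =
      (∑ f : Numbering (Fin n), if wt (x + ker_z f v) = k then (1 : ℝ) else 0) / n.factorial := by
    intro v hv
    rw [mem_range] at hv
    have hv' : v ≤ n := by omega
    have hc : (0 : ℝ) < (n.choose v : ℝ) := by exact_mod_cast Nat.choose_pos hv'
    have h4 : (n.choose v : ℝ) * (v.factorial * (n - v).factorial : ℕ) = n.factorial := by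
      have := Nat.choose_mul_factorial_mul_factorial hv'
      rw [mul_assoc] at this
      exact_mod_cast this
    have h5 : (∑ f : Numbering (Fin n), if wt (x + ker_z f v) = k then (1 : ℝ) else 0) =
        ∑ z ∈ univ.filter (fun z : Wd n => wt z = v ∧ wt (x + z) = k),
          ((Numbering.prefixed (ker_supp z)).card : ℝ) := by
      have h6 : ∀ z ∈ univ.filter (fun z : Wd n => wt z = v ∧ wt (x + z) = k),
          ((Numbering.prefixed (ker_supp z)).card : ℝ) =
          ∑ f : Numbering (Fin n), if ker_z f v = z then (1 : ℝ) else 0 := by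
        intro z hz
        rw [mem_filter] at hz
        rw [card_eq_sum_ones]
        push_cast
        rw [← Finset.sum_filter]
        refine sum_congr ?_ fun _ _ => rfl
        ext f
        rw [mem_filter, ker_prefix, hz.2.1]
        simp
      rw [sum_congr rfl h6, sum_comm]
      refine sum_congr rfl fun f _ => ?_
      rw [Finset.sum_ite_eq]
      have h7 : wt (ker_z f v) = v := by
        rw [← ker_card_supp]
        have h8 : ker_supp (ker_z f v) = univ.filter (fun i => (f i : ℕ) < v) := by
          ext i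
          simp only [ker_supp, mem_filter, mem_univ, true_and, ker_z]
          by_cases h : (f i : ℕ) < v <;> simp [h]
        rw [h8]
        have h9 : (univ.filter (fun i : Fin n => (f i : ℕ) < v)).card =
            (univ.filter (fun i : Fin (Fintype.card (Fin n)) => (i : ℕ) < v)).card := by
          refine Finset.card_bij (fun i _ => f i) ?_ ?_ ?_
          · intro i hi
            rw [mem_filter] at hi ⊢
            exact ⟨mem_univ _, hi.2⟩
          · intro a _ b _ hab
            exact f.injective hab
          · intro b hb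
            rw [mem_filter] at hb
            refine ⟨f.symm b, ?_, by simp⟩
            rw [mem_filter]
            exact ⟨mem_univ _, by simpa using hb.2⟩
        rw [h9]
        have h10 : v ≤ Fintype.card (Fin n) := by simpa using hv'
        rw [Fin.card_filter_val_lt]
        omega
      simp only [mem_filter, mem_univ, true_and, h7]
    rw [h5]
    have h6 : ∀ z ∈ univ.filter (fun z : Wd n => wt z = v ∧ wt (x + z) = k),
        ((Numbering.prefixed (ker_supp z)).card : ℝ) = ((v.factorial * (n - v).factorial : ℕ) : ℝ) := by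
      intro z hz
      rw [mem_filter] at hz
      rw [Numbering.card_prefixed, ker_card_supp, hz.2.1, Fintype.card_fin]
    rw [sum_congr rfl h6, sum_const, nsmul_eq_mul, ← h4]
    have h7 : (((v.factorial * (n - v).factorial : ℕ)) : ℝ) ≠ 0 := by
      have : 0 < v.factorial * (n - v).factorial := Nat.mul_pos (Nat.factorial_pos _) (Nat.factorial_pos _)
      positivity
    field_simp
  rw [sum_congr rfl h3, ← Finset.sum_div, le_div_iff₀ hn, one_mul, sum_comm]
  have h4 : ∀ f ∈ (univ : Finset (Numbering (Fin n))), (1 : ℝ) ≤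
      ∑ v ∈ range (n + 1), if wt (x + ker_z f v) = k then (1 : ℝ) else 0 := by
    intro f _
    obtain ⟨v, hv, hk⟩ := ker_ivt hx h1 h2 f
    have h5 := single_le_sum (f := fun v => if wt (x + ker_z f v) = k then (1 : ℝ) else 0)
      (fun i _ => by positivity) hv
    simp only [if_pos hk] at h5
    exact h5
  have h5 := sum_le_sum h4
  have h6 : ∑ _f : Numbering (Fin n), (1 : ℝ) = n.factorial := by
    rw [sum_const, nsmul_eq_mul, mul_one, card_univ, Fintype.card_numbering]
    have h7 : Fintype.card (Fin n) = n := Fintype.card_fin n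
    exact_mod_cast congrArg Nat.factorial h7
  rw [h6] at h5
  exact h5

private theorem ker_wt_comp (z : Wd n) (s : Equiv.Perm (Fin n)) : wt (fun i => z (s i)) = wt z := by
  rw [← ker_card_supp, ← ker_card_supp]
  refine Finset.card_bij (fun i _ => s i) ?_ ?_ ?_
  · intro i hi
    simp only [ker_supp, mem_filter, mem_univ, true_and] at hi ⊢
    exact hi
  · intro a _ b _ hab
    exact s.injective hab
  · intro b hb
    simp only [ker_supp, mem_filter, mem_univ, true_and] at hb
    refine ⟨s.symm b, ?_, by simp⟩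
    simp only [ker_supp, mem_filter, mem_univ, true_and]
    simpa using hb

private theorem ker_perm (y y' : Wd n) (h : wt y = wt y') : ∃ s : Equiv.Perm (Fin n), ∀ i, y' i = y (s i) := by
  classical
  have h1 : Fintype.card {i // y' i ≠ 0} = Fintype.card {i // y i ≠ 0} := by
    rw [Fintype.card_subtype, Fintype.card_subtype]
    exact h.symm
  obtain ⟨e⟩ := Fintype.card_eq.mp h1
  refine ⟨e.extendSubtype, fun i => ?_⟩
  by_cases hi : y' i ≠ 0
  · have h2 := e.extendSubtype_mem i hi
    rcases z01 (y' i) with h3 | h3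
    · exact absurd h3 hi
    · rcases z01 (y (e.extendSubtype i)) with h4 | h4
      · exact absurd h4 h2
      · rw [h3, h4]
  · have h2 := e.extendSubtype_not_mem i hi
    push Not at hi h2
    rw [hi, h2]

private noncomputable def ker_R (j : ℕ) (y : Wd n) : ℝ := ∑ z, mub z * (if wt (y + z) = j then 1 else 0)

private theorem ker_R_eq (j : ℕ) {y y' : Wd n} (h : wt y = wt y') : ker_R j y = ker_R j y' := by
  obtain ⟨s, hs⟩ := ker_perm y y' h
  unfold ker_R
  refine Fintype.sum_equiv (Equiv.arrowCongr s.symm (Equiv.refl _)) _ _ fun z => ?_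
  have h1 : (Equiv.arrowCongr s.symm (Equiv.refl (ZMod 2))) z = fun i => z (s i) := by
    ext i
    simp
  rw [h1]
  have h2 : mub (fun i => z (s i)) = mub z := by
    unfold mub
    rw [ker_wt_comp z s]
  have h3 : wt (y' + fun i => z (s i)) = wt (y + z) := by
    rw [← ker_wt_comp (y + z) s]
    congr 1
    ext i
    simp only [Pi.add_apply]
    rw [hs i]
  rw [h2, h3]

private theorem ker_K {j k : ℕ} {x : Wd n} (hx : wt x = j) (h1 : j ≤ k) (h2 : j + k ≤ n) :
    1 / ((n : ℝ) + 1) ≤ ker_R k x := by
  classical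
  have h3 : ker_R k x = ∑ v ∈ range (n + 1), ∑ z ∈ univ.filter (fun z : Wd n => wt z = v),
      mub z * (if wt (x + z) = k then 1 else 0) := by
    rw [Finset.sum_fiberwise_of_maps_to]
    · rfl
    intro z _
    rw [mem_range]
    exact Nat.lt_succ_of_le (ker_wt_le z)
  rw [h3]
  have h4 : ∀ v ∈ range (n + 1), ∑ z ∈ univ.filter (fun z : Wd n => wt z = v),
      mub z * (if wt (x + z) = k then 1 else 0) = 1 / ((n : ℝ) + 1) *
      (((univ.filter (fun z : Wd n => wt z = v ∧ wt (x + z) = k)).card : ℝ) / n.choose v) := by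
    intro v hv
    have h5 : ∀ z ∈ univ.filter (fun z : Wd n => wt z = v), mub z * (if wt (x + z) = k then (1 : ℝ) else 0) =
        if wt (x + z) = k then 1 / (((n : ℝ) + 1) * (n.choose v : ℝ)) else 0 := by
      intro z hz
      rw [mem_filter] at hz
      unfold mub
      rw [hz.2]
      split_ifs <;> simp
    rw [sum_congr rfl h5, ← Finset.sum_filter, filter_filter, sum_const, nsmul_eq_mul]
    rw [← div_div]
    ring
  rw [sum_congr rfl h4, ← mul_sum]
  have h5 := path_count hx h1 h2
  have h6 : (0 : ℝ) < 1 / ((n : ℝ) + 1) := by positivity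
  nlinarith

theorem ker {G : Wd n → ℝ} {H : ℕ → ℝ} (hG : RadF G H) (h0 : ∀ x, 0 ≤ G x) {j : ℕ} {x : Wd n}
    (h1 : j ≤ wt x) (h2 : j + wt x ≤ n) :
    n.choose j * H j / ((n + 1) * n.choose (wt x)) ≤ ∑ z, mub z * G (x + z) := by
  classical
  obtain ⟨k, hk⟩ : ∃ k, wt x = k := ⟨_, rfl⟩
  rw [hk] at h1 h2 ⊢
  have hkn : k ≤ n := by omega
  have hjn : j ≤ n := by omega
  have hck : (0 : ℝ) < (n.choose k : ℝ) := by exact_mod_cast Nat.choose_pos hkn
  have hcj : (0 : ℝ) < (n.choose j : ℝ) := by exact_mod_cast Nat.choose_pos hjn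
  have hn1 : (0 : ℝ) < (n : ℝ) + 1 := by positivity
  -- `H j` is nonnegative
  have hHj : 0 ≤ H j := by
    have h3 : 0 < (univ.filter (fun z : Wd n => wt z = j)).card := by
      rw [ker_card_wt]
      exact Nat.choose_pos hjn
    obtain ⟨y, hy⟩ := card_pos.mp h3
    rw [mem_filter] at hy
    have := h0 y
    rwa [hG y, hy.2] at this
  have h3 : H j * ker_R j x ≤ ∑ z, mub z * G (x + z) := by
    unfold ker_R
    rw [mul_sum]
    refine sum_le_sum fun z _ => ?_
    have hm := (mub_pos z).le
    split_ifs with h
    · rw [hG (x + z), h]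
      linarith
    · rw [mul_zero, mul_zero]
      exact mul_nonneg hm (h0 _)
  -- double counting
  have h4 : (n.choose k : ℝ) * ker_R j x = ∑ y ∈ univ.filter (fun y : Wd n => wt y = k), ker_R j y := by
    have h5 : ∀ y ∈ univ.filter (fun y : Wd n => wt y = k), ker_R j y = ker_R j x := by
      intro y hy
      rw [mem_filter] at hy
      exact ker_R_eq j (hy.2.trans hk.symm)
    rw [sum_congr rfl h5, sum_const, nsmul_eq_mul, ker_card_wt]
  have h5 : ∀ (a b : ℕ), ∑ y ∈ univ.filter (fun y : Wd n => wt y = a), ker_R b y =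
      ∑ y ∈ univ.filter (fun y : Wd n => wt y = a), ∑ w ∈ univ.filter (fun w : Wd n => wt w = b), mub (y + w) := by
    intro a b
    refine sum_congr rfl fun y _ => ?_
    unfold ker_R
    rw [Finset.sum_filter]
    refine Fintype.sum_equiv (Equiv.addLeft y) _ _ fun z => ?_
    have h6 : y + (y + z) = z := by rw [← add_assoc, add_self, zero_add]
    simp only [Equiv.coe_addLeft]
    rw [h6]
    split_ifs <;> simp
  have h6 : ∑ y ∈ univ.filter (fun y : Wd n => wt y = k), ker_R j y =
      ∑ y ∈ univ.filter (fun y : Wd n => wt y = j), ker_R k y := by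
    rw [h5 k j, h5 j k, sum_comm]
    refine sum_congr rfl fun y _ => sum_congr rfl fun w _ => ?_
    rw [add_comm]
  have h7 : (n.choose j : ℝ) * (1 / ((n : ℝ) + 1)) ≤ ∑ y ∈ univ.filter (fun y : Wd n => wt y = j), ker_R k y := by
    have h8 : ∀ y ∈ univ.filter (fun y : Wd n => wt y = j), 1 / ((n : ℝ) + 1) ≤ ker_R k y := by
      intro y hy
      rw [mem_filter] at hy
      exact ker_K hy.2 h1 h2
    have h9 := card_nsmul_le_sum _ _ _ h8
    rwa [nsmul_eq_mul, ker_card_wt] at h9
  rw [← h6, ← h4] at h7
  refine le_trans ?_ h3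
  rw [div_le_iff₀ (by positivity)]
  have h8 : (n.choose j : ℝ) ≤ (n.choose k : ℝ) * ker_R j x * ((n : ℝ) + 1) := by
    rw [mul_one_div, div_le_iff₀ hn1] at h7
    exact h7
  calc (n.choose j : ℝ) * H j ≤ ((n.choose k : ℝ) * ker_R j x * ((n : ℝ) + 1)) * H j :=
        mul_le_mul_of_nonneg_right h8 hHj
    _ = H j * ker_R j x * ((n + 1) * n.choose k) := by ring

end Pool.Agent.Lib.MP_0430e4_lc.BY
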