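import Pool.Agent.Lib.MP_0430e4_lc.BY.E
import Pool.Agent.Lib.MP_0430e4_lc.BY.H.Mp

/-!
# BLOCK H of BEYOND: the generating function of a near-optimal certificate is close to `Es ^ n`

helper84.  `P` is any entire function with `‖P z‖ ≤ exp (n (log 2 / 2 + ε))` on the unit disc,
`‖P (iy)‖² ≤ (1 + y²)^n`, `‖P z‖ ≤ ‖P x‖` for `‖z‖ ≤ x`, and `P r ≥ 1 + 2 n r / π` for `r ≥ 0`.

* `up_bound`: `‖P z‖ ≤ ‖Es z‖^n exp (n ε Re (2 z / (1 + z²)))` in the half disc;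
* `lo_bound`: `exp (n (Psi x - β)) ≤ ‖P x‖` for `xa ≤ x ≤ xb` if `ε ≤ ε0 (xa, xb, β)`.
-/

set_option autoImplicit false

namespace Pool.Agent.Lib.MP_0430e4_lc.BY

open Complex Metric Set Filter Topology

theorem up_bound_aux {P : ℂ → ℂ} (hP : Differentiable ℂ P) {n : ℕ} {ε : ℝ} (hε : 0 ≤ ε)
    (h1 : ∀ z : ℂ, ‖z‖ ≤ 1 → ‖P z‖ ≤ Real.exp (n * (Real.log 2 / 2 + ε)))
    (h0 : ∀ y : ℝ, |y| ≤ 1 → ‖P ((y : ℂ) * I)‖ ^ 2 ≤ (1 + y ^ 2) ^ n)
    {z : ℂ} (hre : 0 ≤ z.re) {ρ : ℝ} (hρ0 : 0 < ρ) (hρz : ‖z‖ < ρ) (hρ1 : ρ < 1) :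
    ‖P z‖ ≤ ‖Es z‖ ^ n *
      Real.exp (n * (Real.log 2 / 2 + ε - Real.log (1 + ρ ^ 2) / 2) * (mj (z / ρ)).re) := by
  have hsc : ∀ w : ℂ, ‖w‖ ≤ 1 → ‖(ρ : ℂ) * w‖ < 1 := by
    intro w hw
    rw [norm_mul, Complex.norm_real, Real.norm_eq_abs, abs_of_pos hρ0]
    nlinarith [norm_nonneg w]
  set g : ℂ → ℂ := fun w => P (ρ * w) / Es (ρ * w) ^ n with hg
  have hdg : ∀ w : ℂ, ‖w‖ ≤ 1 → DifferentiableAt ℂ g w := by
    intro w hw
    have h2 : DifferentiableAt ℂ (fun w : ℂ => (ρ : ℂ) * w) w := differentiableAt_id.const_mul _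
    have h3 : DifferentiableAt ℂ (fun w : ℂ => Es (ρ * w)) w :=
      (hasDerivAt_Es (hsc w hw)).differentiableAt.comp w h2
    exact ((hP _).comp w h2).div (h3.pow n) (pow_ne_zero n (Es_ne_zero _))
  have hdc : DiffContOnCl ℂ g (ball 0 1) := by
    constructor
    · intro t ht
      rw [mem_ball_zero_iff] at ht
      exact (hdg t ht.le).differentiableWithinAt
    · intro t ht
      rw [closure_ball 0 one_ne_zero, mem_closedBall_zero_iff] at ht
      exact (hdg t ht).continuousAt.continuousWithinAt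
  have hlog : Real.log (1 + ρ ^ 2) ≤ Real.log 2 := by
    apply Real.log_le_log (by positivity)
    nlinarith
  have ha : 0 ≤ n * (Real.log 2 / 2 + ε - Real.log (1 + ρ ^ 2) / 2) := by
    apply mul_nonneg (Nat.cast_nonneg _)
    linarith
  have hEpos : ∀ w : ℂ, 0 < ‖Es w‖ := fun w => norm_pos_iff.mpr (Es_ne_zero w)
  have hng : ∀ w : ℂ, ‖g w‖ = ‖P (ρ * w)‖ / ‖Es (ρ * w)‖ ^ n := by
    intro w
    rw [hg]
    simp only [norm_div, norm_pow]
  have hg0 : ∀ w : ℂ, ‖w‖ ≤ 1 → w.re = 0 → ‖g w‖ ≤ 1 := by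
    intro w hw hw0
    have hwI : w = (w.im : ℂ) * I := by
      apply Complex.ext <;> simp [hw0]
    have him : |w.im| ≤ 1 := (Complex.abs_im_le_norm w).trans hw
    have h2 : (ρ : ℂ) * w = ((ρ * w.im : ℝ) : ℂ) * I := by
      rw [hwI]; push_cast; simp; ring
    have h3 : |ρ * w.im| < 1 := by
      rw [abs_mul, abs_of_pos hρ0]
      nlinarith [abs_nonneg w.im]
    have h4 := h0 (ρ * w.im) h3.le
    have h5 := norm_Es_I h3
    rw [hng, div_le_one (pow_pos (hEpos _) n), h2]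
    rw [← sq_le_sq₀ (norm_nonneg _) (pow_nonneg (norm_nonneg _) n)]
    refine h4.trans (le_of_eq ?_)
    rw [← h5, ← pow_mul, ← pow_mul, mul_comm 2 n]
  have hg1 : ∀ w : ℂ, ‖w‖ = 1 → 0 ≤ w.re →
      ‖g w‖ ≤ Real.exp (n * (Real.log 2 / 2 + ε - Real.log (1 + ρ ^ 2) / 2)) := by
    intro w hw hw0
    have h2 := h1 (ρ * w) (hsc w hw.le).le
    have hre' : 0 ≤ ((ρ : ℂ) * w).re := by
      rw [Complex.re_ofReal_mul]; positivity
    have h3 := sq_ge (hsc w hw.le) hre'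
    have h4 : ‖(ρ : ℂ) * w‖ = ρ := by
      rw [norm_mul, Complex.norm_real, Real.norm_eq_abs, abs_of_pos hρ0, hw, mul_one]
    rw [h4] at h3
    have h5 : Real.exp (Real.log (1 + ρ ^ 2) / 2) ≤ ‖Es (ρ * w)‖ := by
      rw [← sq_le_sq₀ (Real.exp_pos _).le (norm_nonneg _), ← Real.exp_nat_mul]
      refine le_trans (le_of_eq ?_) h3
      push_cast
      rw [mul_div_cancel₀ _ (by norm_num : (2 : ℝ) ≠ 0), Real.exp_log (by positivity)]
    have h6 : Real.exp (n * (Real.log (1 + ρ ^ 2) / 2)) ≤ ‖Es (ρ * w)‖ ^ n := by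
      rw [Real.exp_nat_mul]
      exact pow_le_pow_left₀ (Real.exp_pos _).le h5 n
    rw [hng, div_le_iff₀ (pow_pos (hEpos _) n)]
    calc ‖P (ρ * w)‖ ≤ Real.exp (n * (Real.log 2 / 2 + ε)) := h2
      _ = Real.exp (n * (Real.log 2 / 2 + ε - Real.log (1 + ρ ^ 2) / 2)) *
          Real.exp (n * (Real.log (1 + ρ ^ 2) / 2)) := by
          rw [← Real.exp_add]; congr 1; ring
      _ ≤ _ := mul_le_mul_of_nonneg_left h6 (Real.exp_pos _).le
  have hzρ : ‖z / (ρ : ℂ)‖ < 1 := by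
    rw [norm_div, Complex.norm_real, Real.norm_eq_abs, abs_of_pos hρ0, div_lt_one hρ0]
    exact hρz
  have hreρ : 0 ≤ (z / (ρ : ℂ)).re := by
    rw [Complex.div_ofReal_re]; positivity
  have h7 := half_max ha hdc hg0 hg1 hzρ hreρ
  have hρC : (ρ : ℂ) ≠ 0 := by exact_mod_cast hρ0.ne'
  have h8 : (ρ : ℂ) * (z / ρ) = z := mul_div_cancel₀ z hρC
  rw [hng, h8, div_le_iff₀ (pow_pos (hEpos _) n)] at h7
  linarith [mul_comm (Real.exp (n * (Real.log 2 / 2 + ε - Real.log (1 + ρ ^ 2) / 2) *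
    (mj (z / ρ)).re)) (‖Es z‖ ^ n)]

/-- **Upper bound in the half disc.** -/
theorem up_bound {P : ℂ → ℂ} (hP : Differentiable ℂ P) {n : ℕ} {ε : ℝ} (hε : 0 ≤ ε)
    (h1 : ∀ z : ℂ, ‖z‖ ≤ 1 → ‖P z‖ ≤ Real.exp (n * (Real.log 2 / 2 + ε)))
    (h0 : ∀ y : ℝ, |y| ≤ 1 → ‖P ((y : ℂ) * I)‖ ^ 2 ≤ (1 + y ^ 2) ^ n)
    {z : ℂ} (hz : ‖z‖ < 1) (hre : 0 ≤ z.re) :
    ‖P z‖ ≤ ‖Es z‖ ^ n * Real.exp (n * ε * (mj z).re) := by
  set f : ℝ → ℝ := fun ρ => ‖Es z‖ ^ n *
      Real.exp (n * (Real.log 2 / 2 + ε - Real.log (1 + ρ ^ 2) / 2) * (mj (z / ρ)).re) with hf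
  have hmj : ContinuousAt mj z := by
    unfold mj
    exact (continuousAt_const.mul continuousAt_id).div
      (continuousAt_const.add (continuousAt_id.pow 2)) (one_add_sq_ne hz)
  have hdiv : ContinuousAt (fun ρ : ℝ => z / (ρ : ℂ)) 1 :=
    continuousAt_const.div Complex.continuous_ofReal.continuousAt (by simp)
  have hcomp : ContinuousAt (fun ρ : ℝ => mj (z / (ρ : ℂ))) 1 := by
    apply ContinuousAt.comp (g := mj) _ hdiv
    simpa using hmj
  have hre2 : ContinuousAt (fun ρ : ℝ => (mj (z / (ρ : ℂ))).re) 1 :=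
    Complex.continuous_re.continuousAt.comp hcomp
  have hlog : ContinuousAt (fun ρ : ℝ => Real.log (1 + ρ ^ 2)) 1 := by
    apply ContinuousAt.log _ (by norm_num)
    fun_prop
  have hcont : ContinuousAt f 1 := by
    rw [hf]
    apply continuousAt_const.mul
    apply ContinuousAt.rexp
    apply ContinuousAt.mul _ hre2
    apply continuousAt_const.mul
    exact continuousAt_const.sub (hlog.div_const 2)
  have h2 : f 1 = ‖Es z‖ ^ n * Real.exp (n * ε * (mj z).re) := by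
    rw [hf]
    simp only [one_pow, Complex.ofReal_one, div_one]
    rw [show (1 : ℝ) + 1 = 2 from by norm_num, show Real.log 2 / 2 + ε - Real.log 2 / 2 = ε from by ring]
  rw [← h2]
  have h3 : Tendsto f (𝓝[<] 1) (𝓝 (f 1)) := hcont.tendsto.mono_left nhdsWithin_le_nhds
  apply ge_of_tendsto h3
  have h4 : Ioo (max ‖z‖ 0) 1 ∈ 𝓝[<] (1 : ℝ) :=
    Ioo_mem_nhdsLT (max_lt hz zero_lt_one)
  filter_upwards [h4] with ρ hρ
  have h5 := max_lt_iff.mp hρ.1
  exact up_bound_aux hP hε h1 h0 hre h5.2 h5.1 hρ.2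

theorem mj_real_le {r : ℝ} (hr : 0 ≤ r) : (mj (r : ℂ)).re ≤ 2 * r := by
  have h1 : mj (r : ℂ) = ((2 * r / (1 + r ^ 2) : ℝ) : ℂ) := by
    unfold mj; push_cast; ring
  rw [h1, Complex.ofReal_re]
  apply div_le_self (by positivity)
  nlinarith [sq_nonneg r]

theorem mj_real_le_one {r : ℝ} : (mj (r : ℂ)).re ≤ 1 := by
  have h1 : mj (r : ℂ) = ((2 * r / (1 + r ^ 2) : ℝ) : ℂ) := by
    unfold mj; push_cast; ring
  rw [h1, Complex.ofReal_re, div_le_one (by positivity)]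
  nlinarith [sq_nonneg (r - 1)]

/-- the upper bound on the real axis -/
theorem up_real {P : ℂ → ℂ} (hP : Differentiable ℂ P) {n : ℕ} {ε : ℝ} (hε : 0 ≤ ε)
    (h1 : ∀ z : ℂ, ‖z‖ ≤ 1 → ‖P z‖ ≤ Real.exp (n * (Real.log 2 / 2 + ε)))
    (h0 : ∀ y : ℝ, |y| ≤ 1 → ‖P ((y : ℂ) * I)‖ ^ 2 ≤ (1 + y ^ 2) ^ n)
    {x : ℝ} (hx0 : 0 ≤ x) (hx1 : x < 1) :
    ‖P (x : ℂ)‖ ≤ Real.exp (n * ((Psi (x : ℂ)).re + ε)) := by
  have h2 := up_bound hP hε h1 h0 (z := (x : ℂ)) (norm_ofReal_lt hx0 hx1) (by simpa using hx0)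
  refine h2.trans ?_
  rw [norm_Es, ← Real.exp_nat_mul, ← Real.exp_add]
  apply Real.exp_le_exp.mpr
  have h3 : (n : ℝ) * ε * (mj (x : ℂ)).re ≤ n * ε * 1 :=
    mul_le_mul_of_nonneg_left mj_real_le_one (by positivity)
  linarith

/-- `Psi r ≤ (2/π + θ) r` near zero -/
theorem Psi_small (θ : ℝ) (hθ : 0 < θ) : ∃ δ : ℝ, 0 < δ ∧ ∀ r : ℝ, 0 < r → r < δ →
    (Psi (r : ℂ)).re ≤ (2 / Real.pi + θ) * r := by
  have h1 := hasDerivAt_Psi_real (r := 0) (by simp)
  rw [Complex.ofReal_zero, psi1_zero, Complex.ofReal_re] at h1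
  have h2 := h1.tendsto_slope_zero_right
  have h3 := (tendsto_order.1 h2).2 (2 / Real.pi + θ) (by linarith)
  rw [eventually_nhdsWithin_iff, Metric.eventually_nhds_iff] at h3
  obtain ⟨δ, hδ, h4⟩ := h3
  refine ⟨δ, hδ, fun r hr hrδ => ?_⟩
  have h5 := h4 (y := r) (by rw [Real.dist_eq, sub_zero, abs_of_pos hr]; exact hrδ) hr
  simp only [zero_add, Complex.ofReal_zero, Psi_zero, Complex.zero_re, sub_zero, smul_eq_mul] at h5
  rw [inv_mul_lt_iff₀ hr] at h5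
  linarith [mul_comm r (2 / Real.pi + θ)]

/-- **Lower bound.** -/
theorem lo_bound {xa xb β : ℝ} (ha : 0 < xa) (hb : xb < 1) (hβ : 0 < β) :
    ∃ ε0 : ℝ, 0 < ε0 ∧ ∀ ε : ℝ, 0 ≤ ε → ε ≤ ε0 → ∀ (n : ℕ) (P : ℂ → ℂ), 1 ≤ n →
      Differentiable ℂ P →
      (∀ z : ℂ, ‖z‖ ≤ 1 → ‖P z‖ ≤ Real.exp (n * (Real.log 2 / 2 + ε))) →
      (∀ y : ℝ, |y| ≤ 1 → ‖P ((y : ℂ) * I)‖ ^ 2 ≤ (1 + y ^ 2) ^ n) →
      (∀ (z : ℂ) (x : ℝ), ‖z‖ ≤ x → ‖P z‖ ≤ ‖P (x : ℂ)‖) →
      (∀ r : ℝ, 0 ≤ r → 1 + 2 / Real.pi * n * r ≤ ‖P (r : ℂ)‖) →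
      ∀ x : ℝ, xa ≤ x → x ≤ xb → Real.exp (n * ((Psi (x : ℂ)).re - β)) ≤ ‖P (x : ℂ)‖ := by
  have hpi := Real.pi_pos
  -- uniform continuity
  have hcont : ContinuousOn (fun z : ℂ => (Psi z).re) (closedBall 0 xb) := by
    apply Complex.continuous_re.comp_continuousOn
    intro z hz
    rw [mem_closedBall_zero_iff] at hz
    exact (hasDerivAt_Psi (lt_of_le_of_lt hz hb)).continuousAt.continuousWithinAt
  have huc := (isCompact_closedBall (0 : ℂ) xb).uniformContinuousOn_of_continuous hcont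
  rw [Metric.uniformContinuousOn_iff] at huc
  obtain ⟨ρ', hρ', huc⟩ := huc (β / 2) (by positivity)
  set ρ : ℝ := min (ρ' / 2) 1 with hρdef
  have hρ : 0 < ρ := lt_min (by positivity) one_pos
  have hρ1 : ρ ≤ 1 := min_le_right _ _
  have hρ2 : ρ < ρ' := lt_of_le_of_lt (min_le_left _ _) (by linarith)
  set θ : ℝ := β * ρ / (16 * Real.pi) with hθdef
  have hθ : 0 < θ := by positivity
  obtain ⟨δ, hδ, hPsi⟩ := Psi_small θ hθ
  refine ⟨θ / 2, by positivity, ?_⟩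
  intro ε hε hεθ n P hn hP h1 h0 hmono hlow x hxa hxb
  by_contra hcon
  push Not at hcon
  have hx0 : 0 < x := lt_of_lt_of_le ha hxa
  have hx1 : x < 1 := lt_of_le_of_lt hxb hb
  have hn0 : (0 : ℝ) < n := by exact_mod_cast hn
  set r : ℝ := min (min (xa / 2) (δ / 2)) (min (1 / n) (θ / n)) with hrdef
  have hr : 0 < r := by
    apply lt_min (lt_min (by positivity) (by positivity)) (lt_min (by positivity) (by positivity))
  have hr1 : r ≤ xa / 2 := (min_le_left _ _).trans (min_le_left _ _)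
  have hr2 : r ≤ δ / 2 := (min_le_left _ _).trans (min_le_right _ _)
  have hr3 : n * r ≤ 1 := by
    have h : r ≤ 1 / n := (min_le_right _ _).trans (min_le_left _ _)
    rw [le_div_iff₀ hn0] at h
    linarith
  have hr4 : n * r ≤ θ := by
    have h : r ≤ θ / n := (min_le_right _ _).trans (min_le_right _ _)
    rw [le_div_iff₀ hn0] at h
    linarith
  have hlow2 : Real.exp (n * (2 / Real.pi * r - θ * r)) ≤ ‖P (r : ℂ)‖ := by
    refine le_trans ?_ (hlow r hr.le)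
    set u : ℝ := 2 / Real.pi * n * r with hu
    have hp3 := Real.pi_gt_three
    have h2pi : 2 / Real.pi ≤ 1 := by
      rw [div_le_one hpi]; linarith
    have hu0 : 0 ≤ u := by positivity
    have hu1 : u ≤ 1 := by
      calc u = 2 / Real.pi * (n * r) := by rw [hu]; ring
        _ ≤ 1 * 1 := mul_le_mul h2pi hr3 (by positivity) zero_le_one
        _ = 1 := one_mul 1
    have hu2 : u ^ 2 ≤ n * (θ * r) := by
      have e1 : u ≤ n * r := by
        calc u = 2 / Real.pi * (n * r) := by rw [hu]; ring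
          _ ≤ 1 * (n * r) := mul_le_mul_of_nonneg_right h2pi (by positivity)
          _ = n * r := one_mul _
      have e2 : u ≤ θ := e1.trans hr4
      calc u ^ 2 = u * u := sq u
        _ ≤ θ * (n * r) := mul_le_mul e2 e1 hu0 hθ.le
        _ = n * (θ * r) := by ring
    have e3 : n * (2 / Real.pi * r - θ * r) ≤ u - u ^ 2 := by
      have : n * (2 / Real.pi * r - θ * r) = u - n * (θ * r) := by rw [hu]; ring
      rw [this]; linarith
    refine (Real.exp_le_exp.mpr e3).trans ?_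
    have e4 := Real.one_sub_le_exp_neg (u - u ^ 2)
    have e5 : 0 < 1 - (u - u ^ 2) := by nlinarith [sq_nonneg (u - 1 / 2)]
    have e6 : Real.exp (u - u ^ 2) * Real.exp (-(u - u ^ 2)) = 1 := by
      rw [← Real.exp_add, add_neg_cancel, Real.exp_zero]
    have e7 : Real.exp (u - u ^ 2) * (1 - (u - u ^ 2)) ≤ 1 :=
      (mul_le_mul_of_nonneg_left e4 (Real.exp_pos _).le).trans e6.le
    have e8 : 1 ≤ (1 + u) * (1 - (u - u ^ 2)) := by nlinarith [pow_nonneg hu0 3]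
    exact le_of_mul_le_mul_right (e7.trans e8) e5
  have hr1' : r < 1 := by linarith
  -- the function G
  set G : ℂ → ℂ := fun z => P z / Es z ^ n * Complex.exp (-(((n * ε : ℝ) : ℂ) * mj z)) with hG
  have hEpos : ∀ w : ℂ, 0 < ‖Es w‖ := fun w => norm_pos_iff.mpr (Es_ne_zero w)
  have hnG : ∀ z : ℂ, ‖G z‖ = ‖P z‖ / ‖Es z‖ ^ n * Real.exp (-(n * ε * (mj z).re)) := by
    intro z
    rw [hG]
    simp only [norm_mul, norm_div, norm_pow, Complex.norm_exp, Complex.neg_re, Complex.re_ofReal_mul]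
  have hdG : DifferentiableOn ℂ G (ball 0 1) := by
    intro z hz
    rw [mem_ball_zero_iff] at hz
    apply DifferentiableAt.differentiableWithinAt
    have hmj : DifferentiableAt ℂ mj z := by
      unfold mj
      exact ((differentiableAt_id.const_mul 2)).div ((differentiableAt_const _).add
        (differentiableAt_id.pow 2)) (one_add_sq_ne hz)
    exact ((hP z).div ((hasDerivAt_Es hz).differentiableAt.pow n) (pow_ne_zero n (Es_ne_zero _))).mul
      ((hmj.const_mul _).neg.cexp)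
  have hG1 : ∀ z : ℂ, ‖z‖ < 1 → 0 ≤ z.re → ‖G z‖ ≤ 1 := by
    intro z hz hre
    rw [hnG, Real.exp_neg, ← div_eq_mul_inv, div_div, div_le_one
      (mul_pos (pow_pos (hEpos _) n) (Real.exp_pos _))]
    exact up_bound hP hε h1 h0 hz hre
  have hGq : ∀ z : ℂ, ‖z‖ ≤ x → 0 ≤ z.re → ‖z - x‖ ≤ ρ → ‖G z‖ ≤ Real.exp (-(n * (β / 2))) := by
    intro z hz hre hzx
    have h2 : ‖P z‖ ≤ Real.exp (n * ((Psi (x : ℂ)).re - β)) := (hmono z x hz).trans hcon.le
    have h3 : (Psi (x : ℂ)).re - β / 2 ≤ (Psi z).re := by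
      have h4 := huc z (by rw [mem_closedBall_zero_iff]; exact hz.trans hxb) (x : ℂ)
        (by rw [mem_closedBall_zero_iff, Complex.norm_real, Real.norm_eq_abs, abs_of_pos hx0]
            exact hxb)
        (by rw [dist_eq_norm]; exact lt_of_le_of_lt hzx hρ2)
      rw [Real.dist_eq] at h4
      linarith [(abs_lt.mp h4).1]
    have h5 : Real.exp (n * ((Psi (x : ℂ)).re - β / 2)) ≤ ‖Es z‖ ^ n := by
      rw [norm_Es, ← Real.exp_nat_mul]
      apply Real.exp_le_exp.mpr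
      exact mul_le_mul_of_nonneg_left h3 hn0.le
    have h6 : Real.exp (-(n * ε * (mj z).re)) ≤ 1 := by
      rw [Real.exp_le_one_iff]
      have := mj_re_nonneg hre
      have : 0 ≤ (n : ℝ) * ε * (mj z).re := by positivity
      linarith
    rw [hnG]
    calc ‖P z‖ / ‖Es z‖ ^ n * Real.exp (-(n * ε * (mj z).re))
        ≤ ‖P z‖ / ‖Es z‖ ^ n * 1 := mul_le_mul_of_nonneg_left h6 (by positivity)
      _ = ‖P z‖ / ‖Es z‖ ^ n := mul_one _
      _ ≤ Real.exp (-(n * (β / 2))) := by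
          rw [div_le_iff₀ (pow_pos (hEpos _) n)]
          calc ‖P z‖ ≤ Real.exp (n * ((Psi (x : ℂ)).re - β)) := h2
            _ = Real.exp (-(n * (β / 2))) * Real.exp (n * ((Psi (x : ℂ)).re - β / 2)) := by
                rw [← Real.exp_add]; congr 1; ring
            _ ≤ _ := mul_le_mul_of_nonneg_left h5 (Real.exp_pos _).le
  -- the number of rotations
  set m : ℕ := ⌈Real.pi / (r * ρ)⌉₊ with hm
  have hrρ : 0 < r * ρ := mul_pos hr hρ
  have hm1 : 1 ≤ m := by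
    rw [hm, Nat.one_le_ceil_iff]; positivity
  have hm0 : (0 : ℝ) < m := by exact_mod_cast hm1
  have hm2 : Real.pi / (r * ρ) ≤ m := Nat.le_ceil _
  have hm3 : (m : ℝ) ≤ 2 * Real.pi / (r * ρ) := by
    have h2 : (m : ℝ) < Real.pi / (r * ρ) + 1 := Nat.ceil_lt_add_one (by positivity)
    have h3 : 1 ≤ Real.pi / (r * ρ) := by
      rw [le_div_iff₀ hrρ]
      have := Real.pi_gt_three
      nlinarith
    have h4 : 2 * Real.pi / (r * ρ) = Real.pi / (r * ρ) + Real.pi / (r * ρ) := by ring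
    linarith
  have hm4 : Real.pi / m ≤ r * ρ := by
    rw [div_le_iff₀ hrρ] at hm2
    rw [div_le_iff₀ hm0]
    linarith
  have hT := touch hdG hG1 hx0 hx1 hGq hr (by linarith) hm1 hm4
  -- lower bound at r
  have hlowG : Real.exp (-(n * (3 * θ * r))) ≤ ‖G (r : ℂ)‖ := by
    rw [hnG]
    have h2 := hlow2
    have h3 := hPsi r hr (by linarith)
    have h4 := mj_real_le hr.le
    have h5 : ‖P (r : ℂ)‖ / ‖Es (r : ℂ)‖ ^ n ≥
        Real.exp (n * (2 / Real.pi * r - θ * r)) / Real.exp (n * (Psi (r : ℂ)).re) := by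
      rw [norm_Es, ← Real.exp_nat_mul]
      exact div_le_div_of_nonneg_right h2 (Real.exp_pos _).le
    calc Real.exp (-(n * (3 * θ * r)))
        ≤ Real.exp (n * (2 / Real.pi * r - θ * r)) / Real.exp (n * (Psi (r : ℂ)).re) *
          Real.exp (-(n * ε * (mj (r : ℂ)).re)) := by
          rw [← Real.exp_sub, ← Real.exp_add]
          apply Real.exp_le_exp.mpr
          have h6 : ε * (mj (r : ℂ)).re ≤ θ / 2 * (2 * r) :=
            mul_le_mul hεθ h4 (mj_re_nonneg (by simpa using hr.le)) (by positivity)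
          have h8 : 0 ≤ (n : ℝ) * (3 * θ * r + 2 / Real.pi * r - θ * r - (Psi (r : ℂ)).re -
              ε * (mj (r : ℂ)).re) := by
            apply mul_nonneg hn0.le
            nlinarith
          linarith
      _ ≤ _ := mul_le_mul_of_nonneg_right h5 (Real.exp_pos _).le
  have h9 : Real.exp (-(n * (3 * θ * r))) ^ m ≤ Real.exp (-(n * (β / 2))) :=
    (pow_le_pow_left₀ (Real.exp_pos _).le hlowG m).trans hT
  rw [← Real.exp_nat_mul, Real.exp_le_exp] at h9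
  have h10 : (n : ℝ) * (β / 2) ≤ n * (3 * θ * (m * r)) := by linarith
  have h11 : β / 2 ≤ 3 * θ * (m * r) := le_of_mul_le_mul_left h10 hn0
  have h12 : (m : ℝ) * r ≤ 2 * Real.pi / ρ := by
    calc (m : ℝ) * r ≤ 2 * Real.pi / (r * ρ) * r := mul_le_mul_of_nonneg_right hm3 hr.le
      _ = 2 * Real.pi / ρ := by field_simp
  have h13 : 3 * θ * (m * r) ≤ 3 * θ * (2 * Real.pi / ρ) :=
    mul_le_mul_of_nonneg_left h12 (by positivity)
  have h14 : 3 * θ * (2 * Real.pi / ρ) = 3 / 8 * β := by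
    rw [hθdef]; field_simp; ring
  rw [h14] at h13
  linarith

end Pool.Agent.Lib.MP_0430e4_lc.BY
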