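import Pool.Agent.Lib.MP_0430e4_lc.BY.H.UB
import Pool.Agent.Lib.MP_0430e4_lc.BY.H.Lo

/-!
# Block H: near-optimal certificates are large at every real point (helper84)

From `lo_bound` (Lo.lean).
-/

set_option autoImplicit false

open Finset

namespace Pool.Agent.Lib.MP_0430e4_lc.BY

variable {n : ℕ}

theorem pfr_nonneg {f : Wd n → ℝ} (hf : ∀ x, 0 ≤ f x) {r : ℝ} (hr : 0 ≤ r) : 0 ≤ Pfr f r := by
  unfold Pfr
  apply Finset.sum_nonneg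
  intro x _
  exact mul_nonneg (hf x) (pow_nonneg hr _)

/-- uniform form -/
theorem lb_unif {xa xb β : ℝ} (h0 : 0 < xa) (h1 : xb < 1) (hβ : 0 < β) : ∃ a : ℝ, 0 < a ∧
    ∀ n ≥ 1, ∀ (l : ℝ) (f : Wd n → ℝ), WCert l f → 2 / Real.pi * n ≤ l →
    ∑ x, f x ≤ Real.sqrt 2 ^ n * Real.exp (n * a) → ∀ x0 : ℝ, xa ≤ x0 → x0 ≤ xb →
    ‖Es (x0 : ℂ)‖ ^ n * Real.exp (-(β * n)) ≤ Pfr f x0 := by
  obtain ⟨ε0, hε0, h⟩ := lo_bound h0 h1 hβ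
  refine ⟨ε0, hε0, fun n hn l f hf hl hm x0 hx0 hx1 => ?_⟩
  have hxn : 0 ≤ x0 := by linarith
  have hnorm : ∀ r : ℝ, 0 ≤ r → ‖Pf f (r : ℂ)‖ = Pfr f r := by
    intro r hr
    rw [Pf_ofReal, Complex.norm_real, Real.norm_eq_abs, abs_of_nonneg (pfr_nonneg hf.nonneg hr)]
  have hs2 : Real.sqrt 2 ^ n = Real.exp (n * (Real.log 2 / 2)) := by
    rw [Real.exp_nat_mul]
    congr 1
    rw [← Real.log_sqrt (by norm_num), Real.exp_log (Real.sqrt_pos.mpr (by norm_num))]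
  have h2 := h ε0 hε0.le le_rfl n (Pf f) hn (differentiable_Pf f) (fun z hz => ?_) (fun y hy => ?_)
    (fun z x hzx => ?_) (fun r hr => ?_) x0 hx0 hx1
  · rw [hnorm x0 hxn] at h2
    refine le_trans (le_of_eq ?_) h2
    rw [norm_Es, ← Real.exp_nat_mul, ← Real.exp_add]
    congr 1
    ring
  · calc ‖Pf f z‖ ≤ Pfr f ‖z‖ := norm_Pf_le hf.nonneg z
      _ ≤ Pfr f 1 := Pfr_mono hf.nonneg (norm_nonneg z) hz
      _ = ∑ x, f x := Pfr_one f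
      _ ≤ Real.sqrt 2 ^ n * Real.exp (n * ε0) := hm
      _ = Real.exp (n * (Real.log 2 / 2 + ε0)) := by
          rw [hs2, ← Real.exp_add]; congr 1; ring
  · have h3 := Pf_imag hf y
    calc ‖Pf f ((y : ℂ) * Complex.I)‖ ^ 2 ≤ (Real.sqrt (1 + y ^ 2) ^ n) ^ 2 :=
          pow_le_pow_left₀ (norm_nonneg _) h3 2
      _ = (1 + y ^ 2) ^ n := by
          rw [← pow_mul, mul_comm n 2, pow_mul, Real.sq_sqrt (by positivity)]
  · have hx : 0 ≤ x := (norm_nonneg z).trans hzx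
    rw [hnorm x hx]
    exact (norm_Pf_le hf.nonneg z).trans (Pfr_mono hf.nonneg (norm_nonneg z) hzx)
  · rw [hnorm r hr]
    refine le_trans ?_ (Pfr_lower hf hr)
    have := mul_le_mul_of_nonneg_right hl hr
    linarith

theorem lb (x0 β : ℝ) (h0 : 0 < x0) (h1 : x0 < 1) (hβ : 0 < β) : ∃ a : ℝ, 0 < a ∧ ∃ n0 : ℕ,
    ∀ n ≥ n0, ∀ (l : ℝ) (f : Wd n → ℝ), WCert l f → 2 / Real.pi * n ≤ l →
    ∑ x, f x ≤ Real.sqrt 2 ^ n * Real.exp (n * a) →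
    ‖Es (x0 : ℂ)‖ ^ n * Real.exp (-(β * n)) ≤ Pfr f x0 := by
  obtain ⟨a, ha, h⟩ := lb_unif h0 h1 hβ
  exact ⟨a, ha, 1, fun n hn l f hf hl hm => h n hn l f hf hl hm x0 le_rfl le_rfl⟩

end Pool.Agent.Lib.MP_0430e4_lc.BY
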