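import Pool.Agent.Lib.MP_0430e4_lc.BY.H.Defs

/-!
# Block H: complementary slackness for any certificate

Let `f` be nonnegative with nonnegative transform and `l f(x) ≤ ∑ i, f(x + e_i)`, `C` a code of distance
`d` (not necessarily nonempty), `n - 2 d ≤ μ < l` resp. `n - 2 d < μ ≤ l`.
`g(y) = ∑ i, f(y + e_i) - μ f(y) ≥ (l - μ) f(y) ≥ 0`, `hatW g x = (n - 2 wt x - μ) hatW f x`. Pairing on words:
`∑_y g(y) (∑_{x ∈ C} e x y)^2 = ∑_{x,x' ∈ C} hatW g (x - x')`; the terms `x ≠ x'` have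
`n - 2 wt - μ ≤ n - 2 d - μ ≤ 0`, the terms `x = x'` give `|C| (n - μ) hatW f 0`.
-/

set_option autoImplicit false

open Finset

namespace Pool.Agent.Lib.MP_0430e4_lc.BY

variable {n : ℕ}

private theorem slk_e_sing (x : Wd n) (i : Fin n) : e x (sing i) = sg (x i) := by
  unfold e sing
  rw [dotProduct_single, mul_one]

private theorem slk_sum_sg (x : Wd n) : ∑ i, sg (x i) = (n : ℝ) - 2 * wt x := by
  have h : ∀ i, sg (x i) = 1 - 2 * (if x i ≠ 0 then (1 : ℝ) else 0) := by
    intro i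
    rcases z01 (x i) with h | h
    · simp [h, sg_zero]
    · simp [h, sg_one]
      norm_num
  rw [Finset.sum_congr rfl fun i _ => h i, Finset.sum_sub_distrib, ← Finset.mul_sum,
    Finset.sum_boole]
  simp only [Finset.sum_const, Finset.card_univ, Fintype.card_fin, nsmul_eq_mul, mul_one]
  rfl

/-- transform of the neighbour sum (`e (x) (y + sing i) = e x y * sg (x i)`, `∑ i, sg (x i) = n - 2 wt x`) -/
theorem hatW_adj (f : Wd n → ℝ) (x : Wd n) :
    hatW (fun y => ∑ i, f (y + sing i)) x = ((n : ℝ) - 2 * wt x) * hatW f x := by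
  unfold hatW
  have h1 : ∀ i : Fin n, ∑ y, f (y + sing i) * e x y = sg (x i) * ∑ y, f y * e x y := by
    intro i
    rw [Finset.mul_sum, ← Equiv.sum_comp (Equiv.addRight (sing i))
      (fun y => sg (x i) * (f y * e x y))]
    apply Finset.sum_congr rfl
    intro y _
    rw [Equiv.coe_addRight, e_add_right, slk_e_sing]
    have := sg_mul_self (x i)
    calc f (y + sing i) * e x y = f (y + sing i) * e x y * (sg (x i) * sg (x i)) := by
          rw [this, mul_one]
      _ = _ := by ring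
  calc ∑ y, (∑ i, f (y + sing i)) * e x y = ∑ y, ∑ i, f (y + sing i) * e x y := by
        apply Finset.sum_congr rfl
        intro y _
        rw [Finset.sum_mul]
    _ = ∑ i, ∑ y, f (y + sing i) * e x y := Finset.sum_comm
    _ = ∑ i, sg (x i) * ∑ y, f y * e x y := Finset.sum_congr rfl fun i _ => h1 i
    _ = _ := by rw [← Finset.sum_mul, slk_sum_sg]

/-- pairing on words -/
theorem pair_words (C : Finset (Wd n)) (g : Wd n → ℝ) :
    ∑ y, g y * (∑ x ∈ C, e x y) ^ 2 = ∑ x ∈ C, ∑ x' ∈ C, hatW g (x - x') := by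
  have h1 : ∀ y : Wd n, (∑ x ∈ C, e x y) ^ 2 = ∑ x ∈ C, ∑ x' ∈ C, e (x - x') y := by
    intro y
    rw [sq, Finset.sum_mul_sum]
    apply Finset.sum_congr rfl; intro x _
    apply Finset.sum_congr rfl; intro x' _
    rw [sub_eq_add', e_add_left]
  unfold hatW
  calc ∑ y, g y * (∑ x ∈ C, e x y) ^ 2 = ∑ y, ∑ x ∈ C, ∑ x' ∈ C, g y * e (x - x') y := by
        apply Finset.sum_congr rfl; intro y _
        rw [h1, Finset.mul_sum]
        apply Finset.sum_congr rfl; intro x _
        rw [Finset.mul_sum]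
    _ = ∑ x ∈ C, ∑ y, ∑ x' ∈ C, g y * e (x - x') y := Finset.sum_comm
    _ = _ := by
        apply Finset.sum_congr rfl; intro x _
        exact Finset.sum_comm

theorem slack {l μ : ℝ} {d : ℕ} {f : Wd n → ℝ} (hf : ∀ x, 0 ≤ f x) (hh : ∀ x, 0 ≤ hatW f x)
    (ha : ∀ x, l * f x ≤ ∑ i, f (x + sing i)) (hμ : (n : ℝ) - 2 * d ≤ μ) (hl : μ ≤ l)
    {C : Finset (Wd n)} (hC : IsCode d C) :
    (l - μ) * ∑ y, f y * (∑ x ∈ C, e x y) ^ 2 +
      (μ - (n - 2 * d)) * ∑ x ∈ C, ∑ x' ∈ C, (if x = x' then 0 else hatW f (x - x')) ≤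
      C.card * (n - μ) * hatW f 0 := by
  have hg : ∀ x, hatW (fun y => ∑ i, f (y + sing i) - μ * f y) x =
      ((n : ℝ) - 2 * wt x - μ) * hatW f x := by
    intro x
    have h1 := hatW_adj f x
    have h2 : hatW (fun y => ∑ i, f (y + sing i) - μ * f y) x =
        hatW (fun y => ∑ i, f (y + sing i)) x - μ * hatW f x := by
      unfold hatW
      rw [Finset.mul_sum, ← Finset.sum_sub_distrib]
      apply Finset.sum_congr rfl
      intro y _
      ring
    rw [h2, h1]; ring
  have hp := pair_words C (fun y => ∑ i, f (y + sing i) - μ * f y)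
  have h1 : (l - μ) * ∑ y, f y * (∑ x ∈ C, e x y) ^ 2 ≤
      ∑ y, (∑ i, f (y + sing i) - μ * f y) * (∑ x ∈ C, e x y) ^ 2 := by
    rw [Finset.mul_sum]
    apply Finset.sum_le_sum
    intro y _
    have := ha y
    have h3 : (l - μ) * f y ≤ ∑ i, f (y + sing i) - μ * f y := by linarith
    calc (l - μ) * (f y * (∑ x ∈ C, e x y) ^ 2) = ((l - μ) * f y) * (∑ x ∈ C, e x y) ^ 2 := by ring
      _ ≤ _ := mul_le_mul_of_nonneg_right h3 (sq_nonneg _)
  have h2 : ∑ x ∈ C, ∑ x' ∈ C, hatW (fun y => ∑ i, f (y + sing i) - μ * f y) (x - x') ≤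
      ∑ x ∈ C, ∑ x' ∈ C, ((if x = x' then ((n : ℝ) - μ) * hatW f 0 else 0) -
        (μ - (n - 2 * d)) * (if x = x' then 0 else hatW f (x - x'))) := by
    apply Finset.sum_le_sum; intro x hx
    apply Finset.sum_le_sum; intro x' hx'
    rw [hg]
    by_cases h : x = x'
    · rw [if_pos h, if_pos h, h, sub_self]
      have : wt (0 : Wd n) = 0 := by unfold wt; rw [hammingNorm_zero]
      rw [this]; simp
    · rw [if_neg h, if_neg h]
      have h3 := hC x hx x' hx' h
      have h4 : (d : ℝ) ≤ wt (x - x') := by exact_mod_cast h3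
      have h5 := hh (x - x')
      nlinarith
  have h3 : ∑ x ∈ C, ∑ x' ∈ C, ((if x = x' then ((n : ℝ) - μ) * hatW f 0 else 0) -
        (μ - (n - 2 * d)) * (if x = x' then 0 else hatW f (x - x'))) =
      C.card * (n - μ) * hatW f 0 -
        (μ - (n - 2 * d)) * ∑ x ∈ C, ∑ x' ∈ C, (if x = x' then 0 else hatW f (x - x')) := by
    simp only [Finset.sum_sub_distrib, ← Finset.mul_sum]
    congr 1
    rw [Finset.sum_congr rfl (g := fun _ => ((n : ℝ) - μ) * hatW f 0)]
    · rw [Finset.sum_const, nsmul_eq_mul]; ring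
    · intro x hx
      rw [Finset.sum_ite_eq, if_pos hx]
  rw [← hp] at h2
  rw [h3] at h2
  linarith

private theorem slk_hatW_zero (f : Wd n → ℝ) : hatW f 0 = ∑ x, f x := by
  unfold hatW
  apply Finset.sum_congr rfl
  intro x _
  rw [e_zero_left, mul_one]

private theorem slk_offdiag_nonneg {f : Wd n → ℝ} (hh : ∀ x, 0 ≤ hatW f x) (x x' : Wd n) :
    0 ≤ (if x = x' then 0 else hatW f (x - x')) := by
  split_ifs
  · exact le_rfl
  · exact hh _

/-- lower bound for the transform on the shell `w` gives an upper bound for `Nw C w` -/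
theorem slackA {l μ c : ℝ} {d w : ℕ} {f : Wd n → ℝ} (hf : ∀ x, 0 ≤ f x) (hh : ∀ x, 0 ≤ hatW f x)
    (ha : ∀ x, l * f x ≤ ∑ i, f (x + sing i)) (hμ : (n : ℝ) - 2 * d ≤ μ) (hl : μ ≤ l)
    {C : Finset (Wd n)} (hC : IsCode d C) (hw : 0 < w) (hc : ∀ x : Wd n, wt x = w → c ≤ hatW f x) :
    (μ - (n - 2 * d)) * (c * Nw C w) ≤ C.card * (n - μ) * ∑ x, f x := by
  have h0 := slack hf hh ha hμ hl hC
  rw [slk_hatW_zero] at h0
  have h1 : 0 ≤ (l - μ) * ∑ y, f y * (∑ x ∈ C, e x y) ^ 2 :=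
    mul_nonneg (by linarith) (Finset.sum_nonneg fun y _ => mul_nonneg (hf y) (sq_nonneg _))
  have h2 : c * Nw C w ≤ ∑ x ∈ C, ∑ x' ∈ C, (if x = x' then 0 else hatW f (x - x')) := by
    rw [← Finset.sum_product']
    calc c * (Nw C w : ℝ) = ∑ p ∈ (C ×ˢ C).filter (fun p => wt (p.1 - p.2) = w), c := by
          rw [Finset.sum_const, nsmul_eq_mul, mul_comm]; rfl
      _ ≤ ∑ p ∈ (C ×ˢ C).filter (fun p => wt (p.1 - p.2) = w),
          (if p.1 = p.2 then 0 else hatW f (p.1 - p.2)) := by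
          apply Finset.sum_le_sum
          intro p hp
          have h3 := (Finset.mem_filter.mp hp).2
          have h4 : p.1 ≠ p.2 := by
            intro h
            rw [h, sub_self] at h3
            unfold wt at h3
            rw [hammingNorm_zero] at h3
            omega
          rw [if_neg h4]
          exact hc _ h3
      _ ≤ _ := by
          apply Finset.sum_le_sum_of_subset_of_nonneg (Finset.filter_subset _ _)
          intro p _ _
          exact slk_offdiag_nonneg hh _ _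
  have h3 := mul_le_mul_of_nonneg_left h2 (show 0 ≤ μ - ((n : ℝ) - 2 * d) by linarith)
  linarith

/-- lower bound for `f` on the shell `k` gives an upper bound for `Sk C k` -/
theorem slackB {l μ c : ℝ} {d k : ℕ} {f : Wd n → ℝ} (hf : ∀ x, 0 ≤ f x) (hh : ∀ x, 0 ≤ hatW f x)
    (ha : ∀ x, l * f x ≤ ∑ i, f (x + sing i)) (hμ : (n : ℝ) - 2 * d ≤ μ) (hl : μ ≤ l)
    {C : Finset (Wd n)} (hC : IsCode d C) (hc : ∀ x : Wd n, wt x = k → c ≤ f x) :
    (l - μ) * (c * Sk C k) ≤ C.card * (n - μ) * ∑ x, f x := by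
  have h0 := slack hf hh ha hμ hl hC
  rw [slk_hatW_zero] at h0
  have h1 : 0 ≤ (μ - (n - 2 * d)) *
      ∑ x ∈ C, ∑ x' ∈ C, (if x = x' then 0 else hatW f (x - x')) :=
    mul_nonneg (by linarith) (Finset.sum_nonneg fun x _ => Finset.sum_nonneg fun x' _ =>
      slk_offdiag_nonneg hh _ _)
  have h2 : c * Sk C k ≤ ∑ y, f y * (∑ x ∈ C, e x y) ^ 2 := by
    unfold Sk
    rw [Finset.mul_sum]
    calc ∑ y ∈ univ.filter (fun y : Wd n => wt y = k), c * (∑ x ∈ C, e x y) ^ 2
        ≤ ∑ y ∈ univ.filter (fun y : Wd n => wt y = k), f y * (∑ x ∈ C, e x y) ^ 2 := by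
          apply Finset.sum_le_sum
          intro y hy
          exact mul_le_mul_of_nonneg_right (hc y (Finset.mem_filter.mp hy).2) (sq_nonneg _)
      _ ≤ _ := by
          apply Finset.sum_le_sum_of_subset_of_nonneg (Finset.filter_subset _ _)
          intro y _ _
          exact mul_nonneg (hf y) (sq_nonneg _)
  have h3 := mul_le_mul_of_nonneg_left h2 (show 0 ≤ l - μ by linarith)
  linarith

end Pool.Agent.Lib.MP_0430e4_lc.BY
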