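import Pool.Agent.Lib.MP_0430e4_lc.BY.H.Ker
import Pool.Agent.Lib.MP_0430e4_lc.BY.H.Slk

/-!
# Block H: the two modified certificates

* `mulC f s = f (1 + s ψ)`, `ψ(y) = ∑_z mub z e z y`, `|ψ| ≤ 1`, `0 ≤ s ≤ 1`: nonnegative, `≤ 2 f`,
  `hatW (mulC f s) x = hatW f x + s ∑_z mub z hatW f (x + z)`, and the neighbour sum is
  `≥ (1-s) ∑ i, f(x+e_i) ≥ (1-s) l f(x) ≥ ((1-s)/(1+s)) l (mulC f s)(x)` for `l ≥ 0`.
* `addC f s = f + s ∑_z mub z f(· + z)`: nonnegative, `hatW = hatW f (1 + s ψ) ≥ 0`, the same level `l`,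
  mass `(1+s) ∑ f`.
-/

set_option autoImplicit false

open Finset

namespace Pool.Agent.Lib.MP_0430e4_lc.BY

variable {n : ℕ}

/-- transform of `mub` -/
noncomputable def psib (y : Wd n) : ℝ := ∑ z, mub z * e z y

noncomputable def mulC (f : Wd n → ℝ) (s : ℝ) (x : Wd n) : ℝ := f x * (1 + s * psib x)

noncomputable def addC (f : Wd n → ℝ) (s : ℝ) (x : Wd n) : ℝ := f x + s * ∑ z, mub z * f (x + z)

theorem abs_psib (y : Wd n) : |psib y| ≤ 1 := by
  unfold psib
  calc |∑ z, mub z * e z y| ≤ ∑ z : Wd n, |mub z * e z y| := Finset.abs_sum_le_sum_abs _ _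
    _ = ∑ z : Wd n, mub z := by
        apply Finset.sum_congr rfl
        intro z _
        rw [abs_mul, abs_e, mul_one, abs_of_pos (mub_pos z)]
    _ = 1 := sum_mub
    _ ≤ 1 := le_rfl

theorem mulC_nonneg {f : Wd n → ℝ} (hf : ∀ x, 0 ≤ f x) {s : ℝ} (h0 : 0 ≤ s) (h1 : s ≤ 1) (x : Wd n) :
    0 ≤ mulC f s x := by
  unfold mulC
  have h2 := abs_le.mp (abs_psib x)
  have h3 : 0 ≤ 1 + s * psib x := by nlinarith [h2.1, h2.2]
  exact mul_nonneg (hf x) h3

theorem mulC_le {f : Wd n → ℝ} (hf : ∀ x, 0 ≤ f x) {s : ℝ} (h0 : 0 ≤ s) (h1 : s ≤ 1) (x : Wd n) :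
    mulC f s x ≤ 2 * f x := by
  unfold mulC
  have h2 := abs_le.mp (abs_psib x)
  have h3 : 1 + s * psib x ≤ 2 := by nlinarith [h2.1, h2.2]
  have h4 := mul_le_mul_of_nonneg_left h3 (hf x)
  linarith

theorem hatW_mulC (f : Wd n → ℝ) (s : ℝ) (x : Wd n) :
    hatW (mulC f s) x = hatW f x + s * ∑ z, mub z * hatW f (x + z) := by
  unfold hatW mulC psib
  have h1 : ∀ y : Wd n, f y * (1 + s * ∑ z, mub z * e z y) * e x y =
      f y * e x y + ∑ z, s * (mub z * (f y * e (x + z) y)) := by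
    intro y
    have h2 : ∑ z : Wd n, s * (mub z * (f y * e (x + z) y)) =
        f y * e x y * s * ∑ z, mub z * e z y := by
      rw [Finset.mul_sum]
      apply Finset.sum_congr rfl
      intro z _
      rw [e_add_left]
      ring
    rw [h2]
    ring
  rw [Finset.sum_congr rfl fun y _ => h1 y, Finset.sum_add_distrib, Finset.sum_comm]
  congr 1
  rw [Finset.mul_sum]
  apply Finset.sum_congr rfl
  intro z _
  rw [Finset.mul_sum, Finset.mul_sum]

theorem mulC_adj {f : Wd n → ℝ} (hf : ∀ x, 0 ≤ f x) {l s : ℝ} (hl : 0 ≤ l) (h0 : 0 ≤ s) (h1 : s < 1)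
    (ha : ∀ x, l * f x ≤ ∑ i, f (x + sing i)) (x : Wd n) :
    (1 - s) / (1 + s) * l * mulC f s x ≤ ∑ i, mulC f s (x + sing i) := by
  have h2 := abs_le.mp (abs_psib x)
  have hs : 0 < 1 + s := by linarith
  have h3 : (1 - s) / (1 + s) * l * mulC f s x ≤ (1 - s) * (l * f x) := by
    unfold mulC
    have h4 : 1 + s * psib x ≤ 1 + s := by nlinarith [h2.1, h2.2]
    have h5 : 0 ≤ (1 - s) / (1 + s) * l * f x :=
      mul_nonneg (mul_nonneg (div_nonneg (by linarith) hs.le) hl) (hf x)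
    calc (1 - s) / (1 + s) * l * (f x * (1 + s * psib x))
        = (1 - s) / (1 + s) * l * f x * (1 + s * psib x) := by ring
      _ ≤ (1 - s) / (1 + s) * l * f x * (1 + s) := mul_le_mul_of_nonneg_left h4 h5
      _ = (1 - s) * (l * f x) := by field_simp
  have h4 : (1 - s) * (l * f x) ≤ (1 - s) * ∑ i, f (x + sing i) :=
    mul_le_mul_of_nonneg_left (ha x) (by linarith)
  have h5 : (1 - s) * ∑ i, f (x + sing i) ≤ ∑ i, mulC f s (x + sing i) := by
    rw [Finset.mul_sum]
    apply Finset.sum_le_sum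
    intro i _
    unfold mulC
    have h6 := abs_le.mp (abs_psib (x + sing i))
    have h7 : 1 - s ≤ 1 + s * psib (x + sing i) := by nlinarith [h6.1, h6.2]
    have h8 := mul_le_mul_of_nonneg_left h7 (hf (x + sing i))
    linarith
  linarith

theorem addC_nonneg {f : Wd n → ℝ} (hf : ∀ x, 0 ≤ f x) {s : ℝ} (h0 : 0 ≤ s) (x : Wd n) :
    0 ≤ addC f s x := by
  unfold addC
  have h1 : 0 ≤ ∑ z, mub z * f (x + z) :=
    Finset.sum_nonneg fun z _ => mul_nonneg (mub_pos z).le (hf _)
  have h2 := mul_nonneg h0 h1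
  linarith [hf x]

theorem sum_addC (f : Wd n → ℝ) (s : ℝ) : ∑ x, addC f s x = (1 + s) * ∑ x, f x := by
  unfold addC
  rw [Finset.sum_add_distrib, ← Finset.mul_sum, Finset.sum_comm]
  have h1 : ∀ z : Wd n, ∑ x, mub z * f (x + z) = mub z * ∑ x, f x := by
    intro z
    rw [← Finset.mul_sum]
    congr 1
    exact Equiv.sum_comp (Equiv.addRight z) f
  rw [Finset.sum_congr rfl fun z _ => h1 z, ← Finset.sum_mul, sum_mub]
  ring

theorem hatW_addC (f : Wd n → ℝ) (s : ℝ) (x : Wd n) :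
    hatW (addC f s) x = hatW f x * (1 + s * psib x) := by
  unfold hatW addC psib
  have h1 : ∀ y : Wd n, (f y + s * ∑ z, mub z * f (y + z)) * e x y =
      f y * e x y + ∑ z, s * (mub z * (f (y + z) * e x y)) := by
    intro y
    have h2 : ∑ z : Wd n, s * (mub z * (f (y + z) * e x y)) =
        s * (∑ z, mub z * f (y + z)) * e x y := by
      rw [Finset.mul_sum, Finset.sum_mul]
      apply Finset.sum_congr rfl
      intro z _
      ring
    rw [h2]
    ring
  rw [Finset.sum_congr rfl fun y _ => h1 y, Finset.sum_add_distrib, Finset.sum_comm]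
  have h3 : ∀ z : Wd n, ∑ y, s * (mub z * (f (y + z) * e x y)) =
      s * (mub z * e z x) * ∑ y, f y * e x y := by
    intro z
    rw [← Equiv.sum_comp (Equiv.addRight z) (fun y => f y * e x y), Finset.mul_sum]
    apply Finset.sum_congr rfl
    intro y _
    rw [Equiv.coe_addRight, e_add_right, e_comm x z]
    have h4 := e_mul_self z x
    calc s * (mub z * (f (y + z) * e x y)) = s * (mub z * (f (y + z) * e x y)) * (e z x * e z x) := by
          rw [h4, mul_one]
      _ = _ := by ring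
  rw [Finset.sum_congr rfl fun z _ => h3 z, ← Finset.sum_mul, ← Finset.mul_sum]
  ring

theorem addC_adj {f : Wd n → ℝ} {l s : ℝ} (h0 : 0 ≤ s)
    (ha : ∀ x, l * f x ≤ ∑ i, f (x + sing i)) (x : Wd n) :
    l * addC f s x ≤ ∑ i, addC f s (x + sing i) := by
  unfold addC
  have h1 : ∑ i, (f (x + sing i) + s * ∑ z, mub z * f (x + sing i + z)) =
      (∑ i, f (x + sing i)) + s * ∑ z, mub z * ∑ i, f (x + z + sing i) := by
    rw [Finset.sum_add_distrib, ← Finset.mul_sum, Finset.sum_comm]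
    congr 2
    apply Finset.sum_congr rfl
    intro z _
    rw [Finset.mul_sum]
    apply Finset.sum_congr rfl
    intro i _
    rw [add_right_comm]
  rw [h1]
  have h2 : s * (l * ∑ z, mub z * f (x + z)) ≤ s * ∑ z, mub z * ∑ i, f (x + z + sing i) := by
    apply mul_le_mul_of_nonneg_left _ h0
    rw [Finset.mul_sum]
    apply Finset.sum_le_sum
    intro z _
    have h3 := mul_le_mul_of_nonneg_left (ha (x + z)) (mub_pos z).le
    linarith
  have h3 := ha x
  linarith

private theorem mul_sum_hat (g : Wd n → ℝ) : ∑ x, hatW g x = 2 ^ n * g 0 := by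
  unfold hatW
  rw [Finset.sum_comm]
  have h1 : ∀ y : Wd n, ∑ x, g y * e x y = if y = 0 then 2 ^ n * g 0 else 0 := by
    intro y
    rw [← Finset.mul_sum]
    have h2 := orth y 0
    have h3 : ∑ u : Wd n, e u y * e u 0 = ∑ x : Wd n, e x y := by
      apply Finset.sum_congr rfl
      intro u _
      rw [e_zero_right, mul_one]
    rw [h3] at h2
    rw [h2]
    by_cases h : y = 0
    · rw [if_pos h, if_pos h, h]
      ring
    · rw [if_neg h, if_neg h, mul_zero]
  rw [Finset.sum_congr rfl fun y _ => h1 y, Finset.sum_ite_eq']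
  simp

/-- some low shell carries the mass of the transform: the mean of `n - 2 wt` under `hatW f / 2^n` is
`∑ i, f(e_i) ≥ l > n - 2 (D + 1)`-type inequality; see head of HAm.lean -/
theorem exists_low {l : ℝ} {f : Wd n → ℝ} (hf : WCert l f) {D : ℕ} (hD : D ≤ n)
    (hl : (n : ℝ) - 2 * D < l) :
    ∃ j ≤ D, (2 : ℝ) ^ n / ((n : ℝ) + 1) ^ 2 ≤
      ∑ x ∈ univ.filter (fun x : Wd n => wt x = j), hatW f x := by
  classical
  by_contra hcon
  push Not at hcon
  have hp : (0 : ℝ) < 2 ^ n := by positivity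
  set A := ∑ x ∈ univ.filter (fun x : Wd n => wt x ≤ D), hatW f x with hA
  set B := ∑ x ∈ univ.filter (fun x : Wd n => ¬ wt x ≤ D), hatW f x with hB
  have h1 : A + B = 2 ^ n := by
    rw [hA, hB, Finset.sum_filter_add_sum_filter_not, mul_sum_hat, hf.one, mul_one]
  have h2 : (2 : ℝ) ^ n * l ≤ ∑ x, ((n : ℝ) - 2 * wt x) * hatW f x := by
    have h3 : ∑ x : Wd n, ((n : ℝ) - 2 * wt x) * hatW f x =
        ∑ x, hatW (fun y => ∑ i, f (y + sing i)) x := by
      apply Finset.sum_congr rfl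
      intro x _
      rw [hatW_adj]
    rw [h3, mul_sum_hat]
    apply mul_le_mul_of_nonneg_left _ hp.le
    have h4 := hf.adj 0
    rw [hf.one, mul_one] at h4
    exact h4
  have h3 : ∑ x : Wd n, ((n : ℝ) - 2 * wt x) * hatW f x ≤ n * A + (n - 2 * (D + 1)) * B := by
    rw [← Finset.sum_filter_add_sum_filter_not univ (fun x : Wd n => wt x ≤ D), hA, hB,
      Finset.mul_sum, Finset.mul_sum]
    apply add_le_add
    · apply Finset.sum_le_sum
      intro x _
      have h4 := hf.hat x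
      have h5 : (0 : ℝ) ≤ wt x := by positivity
      nlinarith
    · apply Finset.sum_le_sum
      intro x hx
      have h4 := hf.hat x
      have h5 : D + 1 ≤ wt x := by
        have := (Finset.mem_filter.mp hx).2
        omega
      have h6 : (D : ℝ) + 1 ≤ wt x := by exact_mod_cast h5
      nlinarith
  have h4 : A ≤ (D + 1) * (2 ^ n / ((n : ℝ) + 1) ^ 2) := by
    have h5 : A = ∑ j ∈ range (D + 1),
        ∑ x ∈ (univ.filter (fun x : Wd n => wt x ≤ D)).filter (fun x => wt x = j), hatW f x := by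
      rw [hA]
      symm
      apply Finset.sum_fiberwise_of_maps_to
      intro x hx
      rw [mem_range]
      have := (Finset.mem_filter.mp hx).2
      omega
    rw [h5]
    have h6 : ∀ j ∈ range (D + 1),
        ∑ x ∈ (univ.filter (fun x : Wd n => wt x ≤ D)).filter (fun x => wt x = j), hatW f x ≤
          2 ^ n / ((n : ℝ) + 1) ^ 2 := by
      intro j hj
      rw [mem_range] at hj
      have h7 : (univ.filter (fun x : Wd n => wt x ≤ D)).filter (fun x => wt x = j) =
          univ.filter (fun x : Wd n => wt x = j) := by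
        ext x
        simp only [Finset.mem_filter, Finset.mem_univ, true_and]
        constructor
        · exact fun h => h.2
        · exact fun h => ⟨by omega, h⟩
      rw [h7]
      exact (hcon j (by omega)).le
    have h7 := Finset.sum_le_card_nsmul _ _ _ h6
    rw [nsmul_eq_mul, card_range] at h7
    push_cast at h7
    exact h7
  have hDn : (D : ℝ) ≤ n := by exact_mod_cast hD
  have hn1 : (0 : ℝ) < (n : ℝ) + 1 := by positivity
  have hD0 : (0 : ℝ) ≤ D := by positivity
  -- `(D + 1) A ≤ 2 ^ n`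
  have h5 : ((D : ℝ) + 1) * A ≤ 2 ^ n := by
    have h6 : ((D : ℝ) + 1) * ((D + 1) * (2 ^ n / ((n : ℝ) + 1) ^ 2)) ≤ 2 ^ n := by
      have h7 : ((D : ℝ) + 1) * ((D + 1) * (2 ^ n / ((n : ℝ) + 1) ^ 2)) =
          ((D : ℝ) + 1) ^ 2 / ((n : ℝ) + 1) ^ 2 * 2 ^ n := by ring
      rw [h7]
      have h8 : ((D : ℝ) + 1) ^ 2 / ((n : ℝ) + 1) ^ 2 ≤ 1 := by
        rw [div_le_one (by positivity)]
        exact pow_le_pow_left₀ (by linarith) (by linarith) 2
      nlinarith
    have h7 : ((D : ℝ) + 1) * A ≤ ((D : ℝ) + 1) * ((D + 1) * (2 ^ n / ((n : ℝ) + 1) ^ 2)) :=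
      mul_le_mul_of_nonneg_left h4 (by linarith)
    linarith
  have h6 : B = 2 ^ n - A := by linarith
  rw [h6] at h3
  have h7 : (2 : ℝ) ^ n * (n - 2 * D) < 2 ^ n * l := mul_lt_mul_of_pos_left hl hp
  nlinarith

end Pool.Agent.Lib.MP_0430e4_lc.BY
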